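import Pool.Agent.L0h29.EN.Hom
import Pool.Agent.N550.TS.Flm

/-!
# Project EN: the arc lemma
-/

set_option autoImplicit false
set_option linter.unusedSectionVars false
set_option linter.unusedVariables false

open Set Filter Topology Metric Function MeasureTheory
open scoped Manifold ContDiff unitInterval

noncomputable section

namespace Pool.Agent.L0h29.EN

open Pool.Agent.Y522 Pool.Agent.N550.KH Pool.Agent.N550.KH.One Pool.Agent.L0h29.CS
  Pool.Agent.N550.TS.Flm

variable {X : Type} [TopologicalSpace X] [ChartedSpace (E 4) X]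

/-- the arc lemma -/
theorem arc [T2Space X] [IsManifold (𝓡 4) ∞ X] [SimplyConnectedSpace X] {c : E 4 → X}
    (hc : Cell c) {S : Set X} (hS : IsCompact S) (hSn : NullH2 4 S) (hSc : S ⊆ range c)
    {ψ : E 4 → X} (hψ : Cell ψ) {z P : E 4} (hne : z ≠ P) (hz : ψ z ∈ range c)
    (hP : ψ P ∈ range c) (hST : S ∩ sg ψ z P ⊆ {ψ z, ψ P}) : Eg (S ∪ sg ψ z P) := by
  obtain ⟨u, hu⟩ := hz
  obtain ⟨w, hw⟩ := hP
  have hlnc : ∀ u w : E 4, Continuous fun t : ℝ => ln u w t := by
    intro u w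
    unfold ln
    fun_prop
  let p₀ : Path (ψ z) (ψ P) :=
    { toFun := fun t => c (ln u w (t : ℝ))
      continuous_toFun := hc.cont.comp ((hlnc u w).comp continuous_subtype_val)
      source' := by rw [Icc.coe_zero, ln_zero, hu]
      target' := by rw [Icc.coe_one, ln_one, hw] }
  let q₀ : Path (ψ z) (ψ P) :=
    { toFun := fun t => ψ (ln z P (t : ℝ))
      continuous_toFun := hψ.cont.comp ((hlnc z P).comp continuous_subtype_val)
      source' := by rw [Icc.coe_zero, ln_zero]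
      target' := by rw [Icc.coe_one, ln_one] }
  obtain ⟨F⟩ := SimplyConnectedSpace.paths_homotopic p₀ q₀
  let pr : ℝ × ℝ → I × I := fun x =>
    (projIcc (0 : ℝ) 1 zero_le_one x.1, projIcc (0 : ℝ) 1 zero_le_one x.2)
  have hpr : Continuous pr :=
    (continuous_projIcc.comp continuous_fst).prodMk (continuous_projIcc.comp continuous_snd)
  have hprd : ∀ p q : ℝ × ℝ, dist (pr p) (pr q) ≤ dist p q := by
    intro p q
    rw [Prod.dist_eq, Prod.dist_eq]
    have h1 := (LipschitzWith.projIcc (a := (0 : ℝ)) (b := 1) zero_le_one).dist_le_mul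
    refine max_le_max ?_ ?_
    · simpa using h1 p.1 q.1
    · simpa using h1 p.2 q.2
  let H : ℝ × ℝ → X := fun x => F (pr x)
  have hH : Continuous H := F.continuous.comp hpr
  have hcov : ∃ δ : ℝ, 0 < δ ∧ ∀ p, ∃ U, Cvx U ∧ ∀ q, dist q p < δ → H q ∈ U := by
    have h1 : ∀ x : X, ∃ U : Set X, Cvx U ∧ x ∈ U := by
      intro x
      obtain ⟨d, hi, hl, h0⟩ := exists_cell0 (n := 4) x
      exact ⟨d '' ball 0 1, ⟨d, ball 0 1, ⟨hi, hl⟩, isOpen_ball, convex_ball _ _, rfl⟩, 0,
        mem_ball_self one_pos, h0⟩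
    choose U hU hxU using h1
    obtain ⟨δ, hδ, h2⟩ := lebesgue_number_lemma_of_metric (s := (univ : Set (I × I)))
      (c := fun x : X => F ⁻¹' (U x)) isCompact_univ
      (fun x => (hU x).isOpen.preimage F.continuous)
      (fun y _ => mem_iUnion.2 ⟨F y, hxU _⟩)
    refine ⟨δ, hδ, fun p => ?_⟩
    obtain ⟨x, hx⟩ := h2 (pr p) (mem_univ _)
    exact ⟨U x, hU x, fun q hq => hx (mem_ball.2 (lt_of_le_of_lt (hprd q p) hq))⟩
  have hp0 : projIcc (0 : ℝ) 1 zero_le_one 0 = 0 := projIcc_left _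
  have hp1 : projIcc (0 : ℝ) 1 zero_le_one 1 = 1 := projIcc_right _
  refine arcH H hH hcov (a := ψ z) (b := ψ P) ?_ ?_ hc ?_ hS hSn hSc hψ hne ?_ hST
  · intro r
    show F (projIcc (0 : ℝ) 1 zero_le_one r, projIcc (0 : ℝ) 1 zero_le_one 0) = _
    rw [hp0, F.source]
  · intro r
    show F (projIcc (0 : ℝ) 1 zero_le_one r, projIcc (0 : ℝ) 1 zero_le_one 1) = _
    rw [hp1, F.target]
  · intro t
    show F (projIcc (0 : ℝ) 1 zero_le_one 0, projIcc (0 : ℝ) 1 zero_le_one t) ∈ _
    rw [hp0, F.apply_zero]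
    exact ⟨_, rfl⟩
  · intro t ht
    show F (projIcc (0 : ℝ) 1 zero_le_one 1, projIcc (0 : ℝ) 1 zero_le_one t) = _
    rw [hp1, F.apply_one, projIcc_of_mem zero_le_one ht]
    rfl

/-- points can be added to engulfed null sets -/
theorem point [T2Space X] [IsManifold (𝓡 4) ∞ X] [PreconnectedSpace X] {T : Set X}
    (hT : IsCompact T) (hTn : NullH2 4 T) (hE : Eg T) (p : X) : Eg (T ∪ {p}) := by
  have h1 : IsOpen {p : X | Eg (T ∪ {p})} := by
    rw [isOpen_iff_mem_nhds]
    rintro p ⟨c, hc, hTc⟩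
    filter_upwards [hc.isOpen.mem_nhds (hTc (Or.inr rfl))] with q hq
    exact ⟨c, hc, union_subset (subset_union_left.trans hTc) (singleton_subset_iff.2 hq)⟩
  have h2 : IsClosed {p : X | Eg (T ∪ {p})} := by
    rw [isClosed_iff_clusterPt]
    intro p hp
    by_cases hpT : p ∈ T
    · exact hE.mono (union_subset (Subset.refl _) (singleton_subset_iff.2 hpT))
    obtain ⟨ψ, hi, hl, h0⟩ := exists_cell0 (n := 4) p
    have hψ : Cell ψ := ⟨hi, hl⟩
    obtain ⟨q, hq1, hq2⟩ := clusterPt_principal_iff.1 hp _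
      (hψ.isOpen.mem_nhds ⟨0, h0⟩)
    obtain ⟨q', rfl⟩ := hq1
    obtain ⟨c, hc, hTc⟩ := hq2
    have hthin : Thin ({p} : Set X) := by
      have h3 := thin_sg hψ 0 0
      have h4 : sg ψ 0 0 = {p} := by
        ext y
        rw [mem_sg, mem_singleton_iff]
        constructor
        · rintro ⟨t, -, rfl⟩
          rw [ln, sub_zero, smul_zero, add_zero, h0]
        · rintro rfl
          exact ⟨0, ⟨le_rfl, zero_le_one⟩, by rw [ln_zero, h0]⟩
      rwa [h4] at h3
    obtain ⟨w, hw1, hw2⟩ := exists_generic (hc.isOpen.preimage hψ.cont)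
      ⟨q', hTc (Or.inr rfl)⟩ (hthin.bad ψ hψ T hTn)
    have h5 := star hψ (z := w) (D := cone w {0}) (cone_cpt w isCompact_singleton)
      (fun P hP t ht => cone_star hP ht) (K := T) hT.isClosed hc (subset_union_left.trans hTc)
      hw1 (by
        rintro P ⟨P', rfl, s, hs, rfl⟩ hPT
        exfalso
        refine hw2 ⟨0, h0, s, hs, hPT, ?_⟩
        intro h6
        rw [mem_singleton_iff] at h6
        rw [h6] at hPT
        exact hpT hPT)
    refine h5.mono (union_subset_union_right _ (singleton_subset_iff.2 ?_))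
    exact ⟨0, subset_cone _ _ rfl, h0⟩
  have h3 : ({p : X | Eg (T ∪ {p})}).Nonempty := by
    obtain ⟨c, hc, hTc⟩ := hE
    exact ⟨c 0, c, hc, union_subset hTc (singleton_subset_iff.2 ⟨0, rfl⟩)⟩
  have h4 := IsClopen.eq_univ ⟨h2, h1⟩ h3
  have : p ∈ {p : X | Eg (T ∪ {p})} := by rw [h4]; trivial
  exact this

end Pool.Agent.L0h29.EN
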