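import Pool.Agent.N550.SH.Gen
import Pool.Agent.N550.KH.Shift

/-!
# Project EN: regions bounded by spheres are cells
-/

set_option autoImplicit false
set_option linter.unusedSectionVars false
set_option linter.unusedVariables false

open Set Filter Topology Metric Function MeasureTheory
open scoped Manifold ContDiff

noncomputable section

namespace Pool.Agent.L0h29.EN

open Pool.Agent.Y522 Pool.Agent.N550.SH

/-- the profile function -/
def Bf (t : ℝ) : ℝ := Real.smoothTransition (t - 1) * (t - 3) - 1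

theorem Bf_smooth : ContDiff ℝ ∞ Bf := by
  unfold Bf
  have h1 : ContDiff ℝ ∞ fun t : ℝ => Real.smoothTransition (t - 1) :=
    Real.smoothTransition.contDiff.comp (contDiff_id.sub contDiff_const)
  fun_prop

theorem Bf_one {t : ℝ} (h : t ≤ 1) : Bf t = -1 := by
  unfold Bf
  rw [Real.smoothTransition.zero_of_nonpos (by linarith)]
  ring

theorem Bf_two {t : ℝ} (h : 2 ≤ t) : Bf t = t - 4 := by
  unfold Bf
  rw [Real.smoothTransition.one_of_one_le (by linarith)]
  ring

theorem Bf_neg {t : ℝ} (h : t < 4) : Bf t < 0 := by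
  rcases le_or_gt 2 t with h2 | h2
  · rw [Bf_two h2]; linarith
  · unfold Bf
    have h3 := Real.smoothTransition.nonneg (t - 1)
    nlinarith

theorem Bf_nonpos {t : ℝ} : Bf t ≤ 0 ↔ t ≤ 4 := by
  constructor
  · intro h
    by_contra hcon
    rw [Bf_two (by linarith)] at h
    linarith
  · intro h
    rcases h.lt_or_eq with h | h
    · exact (Bf_neg h).le
    · rw [Bf_two (by linarith)]; linarith

theorem Bf_zero {t : ℝ} : Bf t = 0 ↔ t = 4 := by
  constructor
  · intro h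
    have h1 := Bf_nonpos.1 h.le
    rcases h1.lt_or_eq with h2 | h2
    · exact absurd h (Bf_neg h2).ne
    · exact h2
  · intro h
    rw [Bf_two (by linarith)]; linarith

theorem Bf_lt {t : ℝ} : Bf t < 0 ↔ t < 4 := by
  constructor
  · intro h
    by_contra hcon
    rw [Bf_two (by linarith)] at h
    linarith
  · exact Bf_neg

theorem stP_smooth {m : ℕ} {r : ℝ} (hr : 0 < r) : ContDiff ℝ ∞ (stP r : E m → E (m + 1)) := by
  have h1 : ContDiff ℝ ∞ fun y : E m => r * (‖y‖ ^ 2 - r ^ 2) / (‖y‖ ^ 2 + r ^ 2) := by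
    refine ContDiff.div ?_ ?_ fun y => (den_pos hr y).ne'
    · exact contDiff_const.mul ((contDiff_norm_sq ℝ).sub contDiff_const)
    · exact (contDiff_norm_sq ℝ).add contDiff_const
  have h2 : ContDiff ℝ ∞ fun y : E m => (2 * r ^ 2 / (‖y‖ ^ 2 + r ^ 2)) • y := by
    refine ContDiff.smul (ContDiff.div contDiff_const ((contDiff_norm_sq ℝ).add contDiff_const)
      fun y => (den_pos hr y).ne') contDiff_id
  have h3 : (stP r : E m → E (m + 1)) = fun y => (r * (‖y‖ ^ 2 - r ^ 2) / (‖y‖ ^ 2 + r ^ 2)) •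
      (e0 : E (m + 1)) + inc ((2 * r ^ 2 / (‖y‖ ^ 2 + r ^ 2)) • y) := by
    funext y
    unfold stP
    rw [cn_eq, inc_apply]
  rw [h3]
  exact (h1.smul contDiff_const).add ((inc (m := m)).contDiff.comp h2)

theorem stT_smooth {m : ℕ} {r : ℝ} {p : E (m + 1)} (h : p 0 ≠ r) :
    ContDiffAt ℝ ∞ (stT r : E (m + 1) → E m) p := by
  unfold stT
  refine ContDiffAt.smul (f := fun p : E (m + 1) => r / (r - p 0))
    (g := fun p : E (m + 1) => (tl p : E m)) ?_ (tl (m := m)).contDiff.contDiffAt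
  refine ContDiffAt.div contDiffAt_const ?_ (fun h1 => h (by linarith))
  fun_prop

/-- the region bounded by a sphere -/
theorem region {m : ℕ} {M N : Type} [TopologicalSpace M] [CompactSpace M] [T2Space M]
    [ChartedSpace (E (m + 1)) M] [IsManifold (𝓡 (m + 1)) ∞ M] [TopologicalSpace N]
    [CompactSpace N] [T2Space N] [ChartedSpace (E (m + 1)) N] [IsManifold (𝓡 (m + 1)) ∞ N]
    (φ : M → N) (i : N → M) (Z' : Set M) (Z : Set N) (hZ' : IsClosed Z') (hZ : IsClosed Z)
    (h1 : ∀ x, x ∉ Z' → φ x ∉ Z ∧ i (φ x) = x) (h2 : ∀ y, y ∉ Z → i y ∉ Z' ∧ φ (i y) = y)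
    (hφ : ∀ x, x ∉ Z' → LD (m + 1) φ x) (hi : ∀ y, y ∉ Z → LD (m + 1) i y)
    (c : E (m + 1) → N) (hci : Injective c) (hcl : ∀ z, LD (m + 1) c z) (hZc : Z ⊆ range c)
    (c' : E (m + 1) → M) (hci' : Injective c') (hcl' : ∀ z, LD (m + 1) c' z)
    (hZc' : Z' ⊆ c' '' ball 0 1) (hcc : ∀ x ∈ range c', x ∉ Z' → φ x ∈ range c) (K : Set N)
    (hK : IsCompact K) (hKS : ∀ y ∈ K, y ∈ Z ∨ i y ∈ c' '' ball 0 2) :
    ∃ g : E (m + 1) → N, Injective g ∧ (∀ z, LD (m + 1) g z) ∧ K ⊆ range g ∧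
      ∀ z, g z ∈ Z ∨ i (g z) ∈ c' '' ball 0 2 := by
  classical
  have hcc0 : Continuous c := continuous_iff_continuousAt.2 fun z => (hcl z).continuousAt
  have hcc' : Continuous c' := continuous_iff_continuousAt.2 fun z => (hcl' z).continuousAt
  have hinv : ∀ z, invFun c (c z) = z := leftInverse_invFun hci
  have hinv' : ∀ z, invFun c' (c' z) = z := leftInverse_invFun hci'
  have hinvl : ∀ z, LD (m + 1) (invFun c) (c z) := fun z =>
    LD.inverse isOpen_univ (fun x _ => hcl x) (fun x _ => hinv x) (mem_univ z)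
  have hinvl' : ∀ z, LD (m + 1) (invFun c') (c' z) := fun z =>
    LD.inverse isOpen_univ (fun x _ => hcl' x) (fun x _ => hinv' x) (mem_univ z)
  let S : ℝ → Set N := fun t => {y | y ∈ Z ∨ i y ∈ c' '' ball 0 t}
  let Sc : ℝ → Set N := fun t => {y | y ∈ Z ∨ i y ∈ c' '' closedBall 0 t}
  have hZ'sub : ∀ t : ℝ, 1 ≤ t → ∀ x, x ∉ c' '' ball 0 t → x ∉ Z' := fun t ht x hx hxZ =>
    hx (image_mono (ball_subset_ball ht) (hZc' hxZ))
  have hSo : ∀ t : ℝ, 1 ≤ t → IsOpen (S t) := by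
    intro t ht
    have e1 : (S t)ᶜ = φ '' (c' '' ball 0 t)ᶜ := by
      ext y
      constructor
      · intro hy
        have hyZ : y ∉ Z := fun h => hy (Or.inl h)
        exact ⟨i y, fun h => hy (Or.inr h), (h2 y hyZ).2⟩
      · rintro ⟨x, hx, rfl⟩ hcon
        have hxZ := hZ'sub t ht x hx
        rcases hcon with h | h
        · exact (h1 x hxZ).1 h
        · rw [(h1 x hxZ).2] at h
          exact hx h
    have e2 : IsCompact (S t)ᶜ := by
      rw [e1]
      refine IsCompact.image_of_continuousOn ?_ fun x hx =>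
        (hφ x (hZ'sub t ht x hx)).continuousAt.continuousWithinAt
      exact (isOpen_image_of_LD isOpen_ball fun z _ => hcl' z).isClosed_compl.isCompact
    have e3 := e2.isClosed.isOpen_compl
    rwa [compl_compl] at e3
  have hScc : ∀ t : ℝ, 1 ≤ t → IsCompact (Sc t) := by
    intro t ht
    have hsub : ∀ x, x ∉ c' '' closedBall 0 t → x ∉ Z' := fun x hx =>
      hZ'sub t ht x fun h => hx (image_mono ball_subset_closedBall h)
    have e1 : (Sc t)ᶜ = φ '' (c' '' closedBall 0 t)ᶜ := by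
      ext y
      constructor
      · intro hy
        have hyZ : y ∉ Z := fun h => hy (Or.inl h)
        exact ⟨i y, fun h => hy (Or.inr h), (h2 y hyZ).2⟩
      · rintro ⟨x, hx, rfl⟩ hcon
        have hxZ := hsub x hx
        rcases hcon with h | h
        · exact (h1 x hxZ).1 h
        · rw [(h1 x hxZ).2] at h
          exact hx h
    have e2 : IsOpen (Sc t)ᶜ := by
      rw [e1]
      refine isOpen_image_of_LD ?_ fun x hx => hφ x (hsub x hx)
      exact ((isCompact_closedBall _ _).image hcc').isClosed.isOpen_compl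
    exact (isOpen_compl_iff.1 e2).isCompact
  have hScr : ∀ t, Sc t ⊆ range c := by
    rintro t y hy
    by_cases hyZ : y ∈ Z
    · exact hZc hyZ
    · have h3 : i y ∈ c' '' closedBall 0 t := hy.resolve_left hyZ
      have h4 := hcc (i y) (image_subset_range _ _ h3) (h2 y hyZ).1
      rwa [(h2 y hyZ).2] at h4
  have hSSc : ∀ t, S t ⊆ Sc t := fun t y hy =>
    hy.imp id fun h => image_mono ball_subset_closedBall h
  -- the function
  let κ : E (m + 1) → E (m + 1) := fun w => invFun c' (i (c w))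
  let F : E (m + 1) → ℝ := fun w => if c w ∈ Z then -1 else Bf (‖κ w‖ ^ 2)
  have hF1 : ∀ w, c w ∈ Z → F w = -1 := fun w hw => if_pos hw
  have hF2 : ∀ w, c w ∉ Z → F w = Bf (‖κ w‖ ^ 2) := fun w hw => if_neg hw
  have hκ : ∀ w, c w ∉ Z → ∀ t, c w ∈ S t → ‖κ w‖ < t ∧ c' (κ w) = i (c w) := by
    intro w hw t ht
    obtain ⟨z, hz, hzw⟩ : i (c w) ∈ c' '' ball 0 t := ht.resolve_left hw
    have : κ w = z := by
      show invFun c' (i (c w)) = z
      rw [← hzw, hinv']
    rw [this]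
    exact ⟨mem_ball_zero_iff.1 hz, hzw⟩
  have hκl : ∀ w, c w ∉ Z → ∀ t, c w ∈ S t → LD (m + 1) κ w := by
    intro w hw t ht
    have h3 := (hκ w hw t ht).2
    refine LD.comp_fun (g := invFun c') (f := fun w => i (c w)) ?_
      (LD.comp_fun (g := i) (f := c) (hi _ hw) (hcl w))
    rw [← h3]
    exact hinvl' _
  -- the inverse of κ
  let lm : E (m + 1) → E (m + 1) := fun z => invFun c (φ (c' z))
  have hlc : ∀ z, c' z ∉ Z' → c (lm z) = φ (c' z) := by
    intro z hz
    obtain ⟨w, hw⟩ := hcc (c' z) ⟨z, rfl⟩ hz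
    show c (invFun c (φ (c' z))) = _
    rw [← hw, hinv]
  have hκL : ∀ z, c' z ∉ Z' → κ (lm z) = z := by
    intro z hz
    show invFun c' (i (c (lm z))) = z
    rw [hlc z hz, (h1 _ hz).2, hinv']
  have hlκ : ∀ w, c w ∉ Z → ∀ t, c w ∈ S t → lm (κ w) = w := by
    intro w hw t ht
    show invFun c (φ (c' (κ w))) = w
    rw [(hκ w hw t ht).2, (h2 _ hw).2, hinv]
  have hll : ∀ z, c' z ∉ Z' → LD (m + 1) lm z := by
    intro z hz
    obtain ⟨w, hw⟩ := hcc (c' z) ⟨z, rfl⟩ hz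
    refine LD.comp_fun (g := invFun c) (f := fun z => φ (c' z)) ?_
      (LD.comp_fun (g := φ) (f := c') (hφ _ hz) (hcl' z))
    rw [← hw]
    exact hinvl _
  have hout : ∀ z : E (m + 1), 1 ≤ ‖z‖ → c' z ∉ Z' := by
    intro z hz hcon
    obtain ⟨w, hw, hwz⟩ := hZc' hcon
    rw [hci' hwz] at hw
    exact absurd (mem_ball_zero_iff.1 hw) (not_lt.2 hz)
  set N₀ : Set (E (m + 1)) := c ⁻¹' S 3 with hN₀
  have hN₀o : IsOpen N₀ := (hSo 3 (by norm_num)).preimage hcc0
  have hFs : ∀ w ∈ N₀, ContDiffAt ℝ ∞ F w := by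
    intro w hw
    by_cases hwZ : c w ∈ Z
    · refine (contDiffAt_const (c := (-1 : ℝ))).congr_of_eventuallyEq ?_
      filter_upwards [((hSo 1 le_rfl).preimage hcc0).mem_nhds (show c w ∈ S 1 from Or.inl hwZ)]
        with w' hw'
      by_cases hwZ' : c w' ∈ Z
      · exact hF1 w' hwZ'
      · have h3 := (hκ w' hwZ' 1 hw').1
        rw [hF2 w' hwZ', Bf_one]
        nlinarith [norm_nonneg (κ w')]
    · have h3 : ContDiffAt ℝ ∞ (fun w => Bf (‖κ w‖ ^ 2)) w :=
        Bf_smooth.contDiffAt.comp w ((contDiff_norm_sq ℝ).contDiffAt.comp w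
          (hκl w hwZ 3 hw).contDiffAt)
      refine h3.congr_of_eventuallyEq ?_
      filter_upwards [(hZ.isOpen_compl.preimage hcc0).mem_nhds hwZ] with w' hw'
      exact hF2 w' hw'
  have hFle : ∀ w, w ∈ N₀ ∧ F w ≤ 0 ↔ c w ∈ Sc 2 := by
    intro w
    by_cases hwZ : c w ∈ Z
    · refine ⟨fun _ => Or.inl hwZ, fun _ => ⟨Or.inl hwZ, ?_⟩⟩
      rw [hF1 w hwZ]; norm_num
    · constructor
      · rintro ⟨hw, hF⟩
        rw [hF2 w hwZ, Bf_nonpos] at hF
        have h3 := (hκ w hwZ 3 hw).2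
        refine Or.inr ⟨κ w, ?_, h3⟩
        rw [mem_closedBall_zero_iff]
        nlinarith [norm_nonneg (κ w)]
      · intro hw
        obtain ⟨z, hz, hzw⟩ : i (c w) ∈ c' '' closedBall 0 2 := hw.resolve_left hwZ
        have hκw : κ w = z := by
          show invFun c' (i (c w)) = z
          rw [← hzw, hinv']
        refine ⟨Or.inr ⟨z, closedBall_subset_ball (by norm_num) hz, hzw⟩, ?_⟩
        rw [hF2 w hwZ, Bf_nonpos, hκw]
        have := mem_closedBall_zero_iff.1 hz
        nlinarith [norm_nonneg z]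
  have hFlt : ∀ w, w ∈ N₀ ∧ F w < 0 ↔ c w ∈ S 2 := by
    intro w
    by_cases hwZ : c w ∈ Z
    · refine ⟨fun _ => Or.inl hwZ, fun _ => ⟨Or.inl hwZ, ?_⟩⟩
      rw [hF1 w hwZ]; norm_num
    · constructor
      · rintro ⟨hw, hF⟩
        rw [hF2 w hwZ, Bf_lt] at hF
        have h3 := (hκ w hwZ 3 hw).2
        refine Or.inr ⟨κ w, ?_, h3⟩
        rw [mem_ball_zero_iff]
        nlinarith [norm_nonneg (κ w)]
      · intro hw
        obtain ⟨z, hz, hzw⟩ : i (c w) ∈ c' '' ball 0 2 := hw.resolve_left hwZ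
        have hκw : κ w = z := by
          show invFun c' (i (c w)) = z
          rw [← hzw, hinv']
        refine ⟨Or.inr ⟨z, ball_subset_ball (by norm_num) hz, hzw⟩, ?_⟩
        rw [hF2 w hwZ, Bf_lt, hκw]
        have := mem_ball_zero_iff.1 hz
        nlinarith [norm_nonneg z]
  have hFz : ∀ w ∈ N₀, F w = 0 → c w ∉ Z ∧ ‖κ w‖ ^ 2 = 2 ^ 2 := by
    intro w hw hF
    have hwZ : c w ∉ Z := by
      intro hcon
      rw [hF1 w hcon] at hF
      norm_num at hF
    rw [hF2 w hwZ, Bf_zero] at hF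
    exact ⟨hwZ, by rw [hF]; norm_num⟩
  have hcemb : IsOpenEmbedding c := IsOpenEmbedding.of_continuous_injective_isOpenMap hcc0 hci
    fun _ hs => isOpen_image_of_LD (n := m + 1) hs fun z _ => hcl z
  have hcomp : IsCompact {w | w ∈ N₀ ∧ F w ≤ 0} := by
    have e1 : {w | w ∈ N₀ ∧ F w ≤ 0} = c ⁻¹' Sc 2 := by
      ext w
      exact hFle w
    rw [e1]
    exact hcemb.isInducing.isCompact_preimage' (hScc 2 (by norm_num)) (hScr 2)
  have hreg : ∀ w ∈ N₀, F w = 0 → fderiv ℝ F w ≠ 0 := by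
    intro w hw hF hcon
    obtain ⟨hwZ, hκ2⟩ := hFz w hw hF
    have hκd := hκl w hwZ 3 hw
    have hκc : ContinuousAt κ w := hκd.continuousAt
    have e1 : F =ᶠ[𝓝 w] fun w => ‖κ w‖ ^ 2 - 4 := by
      have e2 : ∀ᶠ w' in 𝓝 w, 2 < ‖κ w'‖ ^ 2 := by
        have e3 : ContinuousAt (fun w' => ‖κ w'‖ ^ 2) w := hκc.norm.pow 2
        exact e3.eventually (lt_mem_nhds (by show 2 < ‖κ w‖ ^ 2; rw [hκ2]; norm_num))
      filter_upwards [e2, (hZ.isOpen_compl.preimage hcc0).mem_nhds hwZ] with w' h3 h4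
      rw [hF2 w' h4, Bf_two h3.le]
    rw [e1.fderiv_eq] at hcon
    have hκdiff : DifferentiableAt ℝ κ w := hκd.contDiffAt.differentiableAt (by simp)
    have e4 : HasFDerivAt (fun w => ‖κ w‖ ^ 2 - 4)
        (2 • (innerSL ℝ (κ w)).comp (fderiv ℝ κ w)) w :=
      (hκdiff.hasFDerivAt.norm_sq).sub_const 4
    rw [e4.fderiv] at hcon
    have e5 : Injective (fderiv ℝ κ w) := by
      have := hκd.mfderiv_injective
      rwa [mfderiv_eq_fderiv] at this
    have e6 : Surjective (fderiv ℝ κ w) :=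
      LinearMap.surjective_of_injective (f := (fderiv ℝ κ w).toLinearMap) e5
    obtain ⟨v, hv⟩ := e6 (κ w)
    have e7 := congrArg (fun L : E (m + 1) →L[ℝ] ℝ => L v) hcon
    simp only [smul_apply, ContinuousLinearMap.comp_apply, hv,
      innerSL_apply_apply, real_inner_self_eq_norm_sq, hκ2, zero_apply] at e7
    norm_num at e7
  -- the special point
  have hcn : ‖(cn 2 0 : E (m + 1))‖ ^ 2 = 2 ^ 2 := by rw [norm_cn_sq]; simp
  have hcn1 : 1 ≤ ‖(cn 2 0 : E (m + 1))‖ := by nlinarith [norm_nonneg (cn 2 0 : E (m + 1))]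
  have hsph : ∀ z : E (m + 1), ‖z‖ ^ 2 = 2 ^ 2 → lm z ∈ N₀ ∧ F (lm z) = 0 ∧ c (lm z) ∉ Z ∧
      κ (lm z) = z := by
    intro z hz
    have hz1 : 1 ≤ ‖z‖ := by nlinarith [norm_nonneg z]
    have hzo := hout z hz1
    have hcl0 : c (lm z) ∉ Z := by
      rw [hlc z hzo]
      exact (h1 _ hzo).1
    refine ⟨Or.inr ?_, ?_, hcl0, hκL z hzo⟩
    · rw [hlc z hzo, (h1 _ hzo).2]
      refine ⟨z, ?_, rfl⟩
      rw [mem_ball_zero_iff]
      nlinarith [norm_nonneg z]
    · rw [hF2 _ hcl0, hκL z hzo, Bf_zero, hz]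
      norm_num
  obtain ⟨hs1, hs2, hs3, hs4⟩ := hsph (cn 2 0) hcn
  -- application of the Mazur lemma
  have hKr : K ⊆ range c := fun y hy => hScr 2 (hSSc 2 (hKS y hy))
  obtain ⟨g, hg1, hg2, hg3, hg4⟩ := hMazur m N₀ F (lm (cn 2 0)) hN₀o hFs hcomp hreg hs1 hs2 (by
    intro K' hK' hK'S
    have hf0 : ∀ y : E m, ‖(stP 2 y : E (m + 1))‖ ^ 2 = 2 ^ 2 := fun y => norm_stP (by norm_num) y
    have hfo : ∀ y : E m, c' (stP 2 y) ∉ Z' := fun y => hout _ (by
      have := hf0 y
      nlinarith [norm_nonneg (stP 2 y : E (m + 1))])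
    have hfs : ContDiff ℝ ∞ fun y : E m => lm (stP 2 y) := by
      rw [contDiff_iff_contDiffAt]
      intro y
      exact (hll _ (hfo y)).contDiffAt.comp y (stP_smooth (by norm_num)).contDiffAt
    have hleft : ∀ y : E m, stT 2 (κ (lm (stP 2 y))) = y := by
      intro y
      rw [(hsph _ (hf0 y)).2.2.2, stT_stP (by norm_num)]
    refine ⟨fun y => lm (stP 2 y), fun y y' h => ?_, hfs, fun y => ?_, fun y => ⟨(hsph _ (hf0 y)).1,
      (hsph _ (hf0 y)).2.1, ?_⟩, ?_⟩
    · rw [← hleft y, ← hleft y']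
      exact congrArg (fun w => stT 2 (κ w)) h
    · obtain ⟨hq1, hq2, hq3, hq4⟩ := hsph _ (hf0 y)
      have e1 : DifferentiableAt ℝ (fun w => (stT 2 (κ w) : E m)) (lm (stP 2 y)) := by
        have e2 : ContDiffAt ℝ ∞ (fun w => (stT 2 (κ w) : E m)) (lm (stP 2 y)) := by
          refine ContDiffAt.comp (g := (stT 2 : E (m + 1) → E m)) _ ?_
            (hκl _ hq3 3 hq1).contDiffAt
          rw [hq4]
          exact stT_smooth (stP_zero_lt (by norm_num) y).ne
        exact e2.differentiableAt (by simp)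
      have e3 : HasFDerivAt (fun y : E m => (stT 2 (κ (lm (stP 2 y))) : E m))
          ((fderiv ℝ (fun w => (stT 2 (κ w) : E m)) (lm (stP 2 y))).comp
            (fderiv ℝ (fun y : E m => lm (stP 2 y)) y)) y :=
        HasFDerivAt.comp (g := fun w => (stT 2 (κ w) : E m)) (f := fun y : E m => lm (stP 2 y)) y
          e1.hasFDerivAt (hfs.differentiable (by simp) y).hasFDerivAt
      have e4 : (fun y : E m => (stT 2 (κ (lm (stP 2 y))) : E m)) = id := funext hleft
      rw [e4] at e3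
      have e5 := e3.unique (hasFDerivAt_id y)
      intro v v' hvv
      have e6 := congrArg (fun L : E m →L[ℝ] E m => L v) e5
      have e7 := congrArg (fun L : E m →L[ℝ] E m => L v') e5
      simp only [ContinuousLinearMap.comp_apply, ContinuousLinearMap.id_apply] at e6 e7
      rw [← e6, ← e7, hvv]
    · intro hcon
      have e1 := congrArg κ hcon
      rw [(hsph _ (hf0 y)).2.2.2, hs4] at e1
      have e2 := stP_zero_lt (r := 2) (by norm_num) y
      rw [e1, cn_zero] at e2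
      exact lt_irrefl _ e2
    · intro w hw
      obtain ⟨hw1, hw2, hw3⟩ := hK'S w hw
      obtain ⟨hwZ, hκw⟩ := hFz w hw1 hw2
      have hne : (κ w) 0 ≠ 2 := by
        intro hcon
        apply hw3
        rw [← hlκ w hwZ 3 hw1]
        congr 1
        have e1 := norm_sq_split (κ w)
        have e2 : ‖tl (κ w)‖ ^ 2 = 0 := by rw [hcon] at e1; linarith
        have e3 : tl (κ w) = 0 := by
          rw [← norm_eq_zero]
          exact pow_eq_zero_iff (two_ne_zero) |>.1 e2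
        rw [← cn_tl (κ w), e3, hcon]
      refine ⟨stT 2 (κ w), ?_⟩
      show lm (stP 2 (stT 2 (κ w))) = w
      rw [stP_stT (by norm_num) hκw hne, hlκ w hwZ 3 hw1])
    (c ⁻¹' K) (hcemb.isInducing.isCompact_preimage' hK hKr) (fun w hw => (hFlt w).2 (hKS _ hw))
  refine ⟨fun z => c (g z), fun a b hab => hg1 (hci hab), fun z =>
    LD.comp_fun (g := c) (f := g) (hcl _) (hg2 z), fun y hy => ?_, fun z => (hFlt _).1 (hg4 z)⟩
  obtain ⟨w, rfl⟩ := hKr hy
  obtain ⟨z, hz⟩ := hg3 hy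
  exact ⟨z, congrArg c hz⟩

end Pool.Agent.L0h29.EN
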