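import Pool.Agent.L0h29.EN.Sec
import Pool.Agent.L0h29.EN.Reg
import Pool.Agent.N550.SH.Fin
import Pool.Agent.N550.KH.Asm
import Pool.Agent.N550.KH.End

/-!
# Project EN: assembly
-/

set_option autoImplicit false
set_option linter.unusedSectionVars false
set_option linter.unusedVariables false

open Set Filter Topology Metric Function MeasureTheory
open scoped Manifold ContDiff

noncomputable section

namespace Pool.Agent.L0h29.EN

open Pool.Agent.Y522 Pool.Agent.N550.KH Pool.Agent.N550.KH.One Pool.Agent.N550.KH.Supp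
  Pool.Agent.L0h29.CS Pool.Agent.N550.TS.Flm Pool.Agent.L0h29.RG Pool.Agent.N550.KH.End

/-- open subsets in which compact subsets are engulfed are cells -/
theorem cell_of_eng {N : Type} [TopologicalSpace N] [CompactSpace N] [T2Space N]
    [ChartedSpace (E 4) N] [IsManifold (𝓡 4) ∞ N] (S : Set N) (hS : IsOpen S)
    (h : ∀ K : Set N, IsCompact K → K ⊆ S → ∃ g : E 4 → N, Injective g ∧ (∀ z, LD 4 g z) ∧
      K ⊆ range g ∧ ∀ z, g z ∈ S) : ∃ b : E 4 → N, Cell b ∧ range b = S := by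
  classical
  let X : TopologicalSpace.Opens N := ⟨S, hS⟩
  have hval : ∀ x : X, LD 4 (Subtype.val : X → N) x := fun x =>
    Pool.Agent.N550.SH.ld_opens X x
  have hX : Eng 4 X := by
    intro K hK
    obtain ⟨g, hg1, hg2, hg3, hg4⟩ := h (Subtype.val '' K) (hK.image continuous_subtype_val)
      (by rintro _ ⟨x, -, rfl⟩; exact x.2)
    let x₀ : X := ⟨g 0, hg4 0⟩
    let r : N → X := fun y => if hy : y ∈ S then ⟨y, hy⟩ else x₀
    have hr : ∀ x : X, r x = x := by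
      intro x
      have hx : (x : N) ∈ S := x.2
      show (if hy : (x : N) ∈ S then (⟨x, hy⟩ : X) else x₀) = x
      rw [dif_pos hx]
    have hrl : ∀ x : X, LD 4 r (x : N) := fun x =>
      LD.inverse (n := 4) (k := (Subtype.val : X → N)) (g := r) isOpen_univ (fun y _ => hval y)
        (fun y _ => hr y) (mem_univ x)
    refine ⟨fun z => r (g z), fun a b hab => ?_, fun z => ?_, fun x hx => ?_⟩
    · have h1 : r (g a) = ⟨g a, hg4 a⟩ := hr ⟨g a, hg4 a⟩
      have h2 : r (g b) = ⟨g b, hg4 b⟩ := hr ⟨g b, hg4 b⟩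
      have h3 : r (g a) = r (g b) := hab
      rw [h1, h2] at h3
      exact hg1 (congrArg Subtype.val h3)
    · exact LD.comp_fun (g := r) (f := g) (hrl ⟨g z, hg4 z⟩) (hg2 z)
    · obtain ⟨z, hz⟩ := hg3 ⟨x, hx, rfl⟩
      refine ⟨z, ?_⟩
      show r (g z) = x
      rw [hz]
      exact hr x
  have h1 : SecondCountableTopology N := by
    have : SigmaCompactSpace N := inferInstance
    exact ChartedSpace.secondCountable_of_sigmaCompact (E 4) N
  have h2 : LocallyCompactSpace X := ChartedSpace.locallyCompactSpace (E 4) X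
  have h3 : SigmaCompactSpace X := inferInstance
  obtain ⟨Ψ⟩ := Pool.Agent.Y496.SH.monotone (Pool.Agent.Y784.SH.ext Pool.Agent.Y248.SH.germ) 4 X hX
  refine ⟨fun z => ((Ψ.symm z : X) : N), ⟨fun a b hab => ?_, fun z => ?_⟩, ?_⟩
  · exact Ψ.symm.injective (Subtype.ext hab)
  · exact LD.comp_fun (g := (Subtype.val : X → N)) (f := fun z => Ψ.symm z) (hval _)
      (Ψ.symm.isLocalDiffeomorph z)
  · ext y
    constructor
    · rintro ⟨z, rfl⟩
      exact (Ψ.symm z).2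
    · intro hy
      exact ⟨Ψ ⟨y, hy⟩, congrArg Subtype.val (Ψ.symm_apply_apply ⟨y, hy⟩)⟩

variable {M N : Type} [TopologicalSpace M] [ChartedSpace (E 4) M] [TopologicalSpace N]
  [ChartedSpace (E 4) N]

theorem exists_rad {c : E 4 → N} (hc : Cell c) {K : Set N} (hK : IsCompact K)
    (hKc : K ⊆ range c) : ∃ R : ℝ, 0 < R ∧ K ⊆ c '' ball 0 R := by
  obtain ⟨R, hR⟩ := (hc.emb.isInducing.isCompact_preimage' hK hKc).isBounded.subset_ball
    (0 : E 4)
  refine ⟨max R 1, by positivity, fun y hy => ?_⟩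
  obtain ⟨z, rfl⟩ := hKc hy
  exact ⟨z, ball_subset_ball (le_max_left _ _) (hR hy), rfl⟩

/-- rescaling of cells -/
theorem Cell.scale {c : E 4 → N} (hc : Cell c) {R : ℝ} (hR : 0 < R) :
    Cell fun z => c (R • z) := by
  refine ⟨fun a b hab => smul_right_injective _ hR.ne' (hc.1 hab), fun z => ?_⟩
  exact LD.comp_fun (g := c) (f := fun z => R • z) (hc.2 _)
    (LD_linear (ContinuousLinearEquiv.smulLeft (Units.mk0 R hR.ne')) z)

/-- closed 4-manifolds with diffeomorphic complements of sets in cells -/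
theorem DfOff.homeo' [CompactSpace M] [T2Space M] [CompactSpace N] [T2Space N] [Nonempty M]
    [IsManifold (𝓡 4) ∞ M] [IsManifold (𝓡 4) ∞ N] {φ : M → N} {Z' : Set M} {Z : Set N}
    (h : DfOff φ Z' Z) {c : E 4 → N} (hc : Cell c) (hZc : Z ⊆ range c) {c₁ : E 4 → M}
    (hc₁ : Cell c₁) (hZ'c : Z' ⊆ range c₁) (hcc : ∀ x ∈ range c₁, x ∈ Z' ∨ φ x ∈ range c) :
    ∃ G : M ≃ₜ N, ∃ x₀ : M, ∀ x, x ≠ x₀ → LD 4 G x := by
  obtain ⟨R', hR', hZR'⟩ := exists_rad hc₁ h.cl'.isCompact hZ'c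
  set c' : E 4 → M := fun z => c₁ (R' • z) with hc'd
  have hc' : Cell c' := hc₁.scale hR'
  have hZc' : Z' ⊆ c' '' ball 0 1 := by
    intro x hx
    obtain ⟨z, hz, hzx⟩ := hZR' hx
    refine ⟨R'⁻¹ • z, ?_, ?_⟩
    · rw [mem_ball_zero_iff] at hz ⊢
      rw [norm_smul, norm_inv, Real.norm_of_nonneg hR'.le, inv_mul_lt_iff₀ hR']
      linarith
    · show c₁ (R' • R'⁻¹ • z) = x
      rw [smul_smul, mul_inv_cancel₀ hR'.ne', one_smul, hzx]
  obtain ⟨i, hi1, hi2, hi3⟩ := h.exists_inv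
  set S : Set N := {y | y ∈ Z ∨ i y ∈ c' '' ball 0 2} with hS
  have hoff : ∀ x, x ∉ c' '' ball 0 2 → x ∉ Z' := fun x hx hxZ =>
    hx (image_mono (ball_subset_ball (by norm_num)) (hZc' hxZ))
  have hSc : Sᶜ = φ '' (c' '' ball 0 2)ᶜ := by
    ext y
    constructor
    · intro hy
      have hyZ : y ∉ Z := fun h => hy (Or.inl h)
      exact ⟨i y, fun h => hy (Or.inr h), (hi2 y hyZ).2⟩
    · rintro ⟨x, hx, rfl⟩ hcon
      have hxZ := hoff x hx
      rcases hcon with h' | h'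
      · exact h.notMem hxZ h'
      · rw [hi1 x hxZ] at h'
        exact hx h'
  have hXc : IsCompact (c' '' ball 0 2)ᶜ := (hc'.open_image isOpen_ball).isClosed_compl.isCompact
  have hSo : IsOpen S := by
    have h1 : IsCompact Sᶜ := by
      rw [hSc]
      exact hXc.image_of_continuousOn fun x hx =>
        (h.ld x (hoff x hx)).continuousAt.continuousWithinAt
    have h2 := h1.isClosed.isOpen_compl
    rwa [compl_compl] at h2
  obtain ⟨b, hb, hbS⟩ := cell_of_eng S hSo fun K hK hKS =>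
    region (m := 3) φ i Z' Z h.cl' h.cl (fun x hx => ⟨h.notMem hx, hi1 x hx⟩) hi2 h.ld hi3 c hc.1
      hc.2 hZc c' hc'.1 hc'.2 hZc' (fun x hx hxZ => by
        obtain ⟨z, rfl⟩ := hx
        exact (hcc _ ⟨R' • z, rfl⟩).resolve_left hxZ) K hK hKS
  have h2 : (0 : ℝ) < 2 := by norm_num
  have hjb : Cell fun z => c' (jb 2 z) :=
    ⟨fun x y hxy => jb_inj 2 h2 (hc'.1 hxy), fun z =>
      LD.comp_fun (g := c') (f := jb 2) (hc'.2 _) (jb_LD 2 h2 z)⟩
  have hjr : range (fun z : E 4 => c' (jb 2 z)) = (c' '' ball 0 2)ᶜᶜ := by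
    rw [compl_compl]
    ext x
    constructor
    · rintro ⟨z, rfl⟩
      exact ⟨_, mem_ball_zero_iff.2 (jb_norm 2 h2 z), rfl⟩
    · rintro ⟨w, hw, rfl⟩
      obtain ⟨z, hz⟩ := jb_surj 2 h2 w (mem_ball_zero_iff.1 hw)
      exact ⟨z, congrArg c' hz⟩
  have hne : ((c' '' ball 0 2)ᶜ : Set M).Nonempty := by
    refine ⟨c' (cn 2 0), ?_⟩
    rintro ⟨w, hw, hwz⟩
    rw [hc'.1 hwz, mem_ball_zero_iff] at hw
    have h3 : ‖(cn 2 0 : E (3 + 1))‖ ^ 2 = 4 := by rw [norm_cn_sq]; norm_num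
    have h4 : ‖(cn 2 0 : E (3 + 1))‖ < 2 := hw
    nlinarith [norm_nonneg (cn 2 0 : E (3 + 1))]
  exact Pool.Agent.N550.KH.Asm.main Pool.Agent.N550.KH.End.main 4 M N (c' '' ball 0 2)ᶜ Sᶜ
    (fun z => c' (jb 2 z)) b φ (by norm_num) hne hjb.1 hjb.2 hjr hb.1 hb.2
    (by rw [compl_compl]; exact hbS) (fun x hx => h.ld x (hoff x hx))
    (h.inj.mono fun x hx => hoff x hx) hSc.symm

/-- closed 4-manifolds with diffeomorphic complements of null sets -/
theorem DfOff.homeo [CompactSpace M] [T2Space M] [CompactSpace N] [T2Space N]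
    [IsManifold (𝓡 4) ∞ M] [IsManifold (𝓡 4) ∞ N] [SimplyConnectedSpace M]
    [SimplyConnectedSpace N] {φ : M → N} {Z' : Set M} {Z : Set N} (h : DfOff φ Z' Z)
    (hZ' : NullH2 4 Z') (hZ : NullH2 4 Z) : ∃ G : M ≃ₜ N, ∃ x₀ : M, ∀ x, x ≠ x₀ → LD 4 G x := by
  obtain ⟨c, hc, hZc⟩ := engulf h.cl.isCompact hZ
  obtain ⟨R, hR, hZR⟩ := exists_rad hc h.cl.isCompact hZc
  obtain ⟨c₁, hc₁, hZ'c, hcc⟩ := h.second_cell hZ' hc hR hZR
  have hM : Nonempty M := PathConnectedSpace.nonempty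
  exact h.homeo' hc hZc hc₁ hZ'c hcc

end Pool.Agent.L0h29.EN
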