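import Pool.Agent.L0h29.EN.Lab
import Pool.Agent.L0h29.EN.Arc

/-!
# Project EN: the two cell lemma
-/

set_option autoImplicit false
set_option linter.unusedSectionVars false
set_option linter.unusedVariables false

open Set Filter Topology Metric Function MeasureTheory
open scoped Manifold ContDiff ENNReal NNReal

noncomputable section

namespace Pool.Agent.L0h29.EN

open Pool.Agent.Y522 Pool.Agent.N550.KH Pool.Agent.N550.KH.One Pool.Agent.L0h29.CS
  Pool.Agent.N550.TS.Flm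

theorem tri {τ y₀ y : E 4} {u v : ℝ} (hu : u ∈ Icc (0 : ℝ) 1) (hv : v ∈ Icc (0 : ℝ) 1) :
    ln y₀ (ln τ y u) v = τ ∨ ∃ σ ∈ Ioc (0 : ℝ) 1, ∃ r ∈ Icc (0 : ℝ) 1,
      ln y₀ (ln τ y u) v = ln τ (ln y₀ y r) σ := by
  have hu0 := hu.1
  have hu1 := hu.2
  have hv0 := hv.1
  have hv1 := hv.2
  have h0 : 0 ≤ 1 - v * (1 - u) := by nlinarith
  have h1 : 1 - v * (1 - u) ≤ 1 := by nlinarith
  rcases h0.eq_or_lt with h2 | h2
  · left
    have hv' : v = 1 := by nlinarith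
    have hu' : u = 0 := by rw [hv'] at h2; linarith
    rw [hv', hu', ln_one, ln_zero]
  · right
    refine ⟨1 - v * (1 - u), ⟨h2, h1⟩, v * u / (1 - v * (1 - u)), ⟨by positivity, ?_⟩, ?_⟩
    · rw [div_le_one h2]
      nlinarith
    · ext i
      simp only [ln_apply]
      field_simp
      ring

variable {X : Type} [TopologicalSpace X] [ChartedSpace (E 4) X]

theorem nullH2_biUnion {ι : Type} (F : Finset ι) (A : ι → Set X) (h : ∀ i ∈ F, NullH2 4 (A i)) :
    NullH2 4 (⋃ i ∈ F, A i) := by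
  intro g hi hl
  rw [preimage_iUnion₂]
  exact (measure_biUnion_null_iff F.countable_toSet).2 fun i hi' => h i hi' g hi hl

/-- engulfing of the part in a generic box -/
theorem box_engulf [T2Space X] [IsManifold (𝓡 4) ∞ X] [SimplyConnectedSpace X] {ψ : E 4 → X}
    (hψ : Cell ψ) {Z : Set X} (hZ : IsCompact Z) (hZn : NullH2 4 Z) {τ : E 4}
    (g1 : Measure.hausdorffMeasure 1 (ψ ⁻¹' Z ∩ (qc τ \ qo τ)) = 0)
    (g2 : ∀ i j : Fin 4, i ≠ j → ∀ z ∈ ψ ⁻¹' Z, |z i - τ i| = 3 → ∀ s : ℚ, z j - τ j ≠ s)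
    {c : E 4 → X} (hc : Cell c) (hT : Z \ ψ '' qo τ ⊆ range c) : Eg Z := by
  classical
  set A : Set (E 4) := ψ ⁻¹' Z with hA
  have hAc : IsClosed A := hZ.isClosed.preimage hψ.cont
  set Y : Set (E 4) := A ∩ (qc τ \ qo τ) with hY
  have hYc : IsCompact Y := ((isCompact_qc τ).diff (isOpen_qo τ)).inter_left hAc
  set T : Set X := Z \ ψ '' qo τ with hTdef
  have hTc : IsCompact T := hZ.diff (hψ.open_image (isOpen_qo τ))
  have hTn : NullH2 4 T := NullH2.mono sdiff_subset hZn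
  have hYT : ∀ z ∈ Y, ψ z ∈ T := by
    intro z hz
    refine ⟨hz.1, ?_⟩
    rintro ⟨w, hw, hwz⟩
    rw [hψ.1 hwz] at hw
    exact hz.2.2 hw
  have hYO : Y ⊆ ψ ⁻¹' range c := fun z hz => hT (hYT z hz)
  obtain ⟨ε, hε, hεO⟩ := hYc.exists_thickening_subset_open (hc.isOpen.preimage hψ.cont) hYO
  obtain ⟨m, hm⟩ := exists_nat_gt (2 / ε)
  have hm' : (0 : ℝ) < m := lt_trans (by positivity) hm
  have hm0 : 0 < m := by exact_mod_cast hm'
  have hmε : 2 * (1 / (m : ℝ)) < ε := by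
    rw [div_lt_iff₀ hε] at hm
    rw [mul_one_div, div_lt_iff₀ hm']
    linarith
  -- labels
  have hfin := lb_finite m τ A
  set F : Finset (Fin 4 → ℤ × ℤ) := hfin.toFinset with hF
  let Yl : (Fin 4 → ℤ × ℤ) → Set (E 4) := fun L => {z | z ∈ Y ∧ lb m τ z = L}
  have hrep : ∀ L ∈ F, ∃ y, y ∈ Yl L := by
    intro L hL
    obtain ⟨y, hy, hyL⟩ := hfin.mem_toFinset.1 hL
    exact ⟨y, hy, hyL⟩
  choose! y hy using hrep
  have hYl : ∀ L ∈ F, IsCompact (Yl L) := by
    intro L hL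
    have h1 : Yl L = Y ∩ {z | ∀ j, ((L j).1 : ℝ) ≤ (m : ℝ) * (z j - τ j) ∧
        (m : ℝ) * (z j - τ j) ≤ ((L j).2 : ℝ)} := by
      ext z
      constructor
      · rintro ⟨h1, rfl⟩
        exact ⟨h1, fun j => lb_self m τ z j⟩
      · rintro ⟨h1, h2⟩
        refine ⟨h1, ?_⟩
        have h3 := (hy L hL).2
        rw [← h3] at h2 ⊢
        exact lb_closed hm0 g2 (hy L hL).1 h1 h2
    rw [h1]
    refine hYc.inter_right ?_
    simp only [ofPred_forall]
    refine isClosed_iInter fun j => ?_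
    have hcj : Continuous fun z : E 4 => (m : ℝ) * (z j - τ j) := by fun_prop
    exact (isClosed_le continuous_const hcj).inter (isClosed_le hcj continuous_const)
  have hYln : ∀ L, Measure.hausdorffMeasure 1 (Yl L) = 0 := fun L =>
    measure_mono_null (fun z hz => hz.1) g1
  let C : (Fin 4 → ℤ × ℤ) → Set (E 4) := fun L => cone (y L) (Yl L)
  have hC1 : ∀ L ∈ F, ∀ z ∈ C L, lb m τ z = L ∧ z ∈ qc τ \ qo τ ∧ ψ z ∈ range c := by
    rintro L hL _ ⟨z, ⟨hzY, hzL⟩, t, ht, rfl⟩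
    have h1 := hy L hL
    have h2 : lb m τ (y L) = lb m τ z := by rw [h1.2, hzL]
    have h3 := lb_ln h2 ht
    refine ⟨by rw [h3, h1.2], ⟨?_, ?_⟩, ?_⟩
    · intro i
      have e1 := h1.1.2.1 i
      have e2 := hzY.2.1 i
      rw [ln_apply]
      rw [abs_le] at e1 e2 ⊢
      have ht0 := ht.1
      have ht1 := ht.2
      constructor <;> nlinarith
    · intro hcon
      obtain ⟨i, hi⟩ := mem_bd h1.1.2
      have h4 : (ln (y L) z t) i = (y L) i := lb_face hm0 (by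
        have := lb_self m τ (ln (y L) z t) i
        rwa [h3] at this) hi
      have := hcon i
      rw [h4, hi] at this
      exact lt_irrefl _ this
    · apply hεO
      rw [mem_thickening_iff]
      exact ⟨y L, h1.1, lt_of_le_of_lt (lb_dist hm0 h3) hmε⟩
  set Tp : Set X := T ∪ ⋃ L ∈ F, ψ '' C L with hTp
  have hTpc : IsCompact Tp := hTc.union (F.isCompact_biUnion fun L hL =>
    (cone_cpt _ (hYl L hL)).image hψ.cont)
  have hTpn : NullH2 4 Tp := NullH2.union hTn (nullH2_biUnion F _ fun L hL =>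
    nullH2_chart hψ (cone_null _ (hYln L)))
  have hTpr : Tp ⊆ range c := by
    refine union_subset hT (iUnion₂_subset fun L hL => ?_)
    rintro _ ⟨z, hz, rfl⟩
    exact (hC1 L hL z hz).2.2
  have hTpo : ∀ P, ψ P ∈ Tp → P ∉ qo τ := by
    rintro P (hP | hP) hcon
    · exact hP.2 ⟨P, hcon, rfl⟩
    · obtain ⟨L, hL, z, hz, hzP⟩ := mem_iUnion₂.1 hP
      rw [hψ.1 hzP] at hz
      exact (hC1 L hL P hz).2.1.2 hcon
  have hbd : ∀ L ∈ F, y L ∈ qc τ \ qo τ := fun L hL => (hy L hL).1.2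
  -- membership
  have hmem : ∀ (s : Finset (Fin 4 → ℤ × ℤ)) (P : E 4),
      ψ P ∈ Tp ∪ {ψ τ} ∪ ⋃ L ∈ s, ψ '' cone τ (Yl L) → ψ P ∈ Tp ∨ P = τ ∨
        ∃ L ∈ s, ∃ y' ∈ Yl L, ∃ s' ∈ Ioc (0 : ℝ) 1, P = ln τ y' s' := by
    rintro s P ((hP | hP) | hP)
    · exact Or.inl hP
    · exact Or.inr (Or.inl (hψ.1 hP))
    · obtain ⟨L, hL, z, ⟨y', hy', s', hs', rfl⟩, hzP⟩ := mem_iUnion₂.1 hP
      have h1 := hψ.1 hzP
      rcases hs'.1.eq_or_lt with h2 | h2
      · right; left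
        rw [← h1, ← h2, ln_zero]
      · right; right
        exact ⟨L, hL, y', hy', s', ⟨h2, hs'.2⟩, h1.symm⟩
  have hScpt : ∀ s : Finset (Fin 4 → ℤ × ℤ), s ⊆ F →
      IsCompact (Tp ∪ {ψ τ} ∪ ⋃ L ∈ s, ψ '' cone τ (Yl L)) := fun s hs =>
    (hTpc.union isCompact_singleton).union (s.isCompact_biUnion fun L hL =>
      (cone_cpt _ (hYl L (hs hL))).image hψ.cont)
  have hSnull : ∀ s : Finset (Fin 4 → ℤ × ℤ),
      NullH2 4 (Tp ∪ {ψ τ} ∪ ⋃ L ∈ s, ψ '' cone τ (Yl L)) := fun s =>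
    NullH2.union (NullH2.union hTpn (null_single _)) (nullH2_biUnion s _ fun L hL =>
      nullH2_chart hψ (cone_null _ (hYln L)))
  have main : ∀ s : Finset (Fin 4 → ℤ × ℤ), s ⊆ F →
      Eg (Tp ∪ {ψ τ} ∪ ⋃ L ∈ s, ψ '' cone τ (Yl L)) := by
    intro s
    induction s using Finset.induction_on with
    | empty =>
      intro _
      refine (point hTpc hTpn ⟨c, hc, hTpr⟩ (ψ τ)).mono ?_
      simp
    | insert L₀ s hL₀ ih =>
      intro hs
      have hL₀F : L₀ ∈ F := hs (Finset.mem_insert_self _ _)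
      have hsF : s ⊆ F := (Finset.subset_insert _ _).trans hs
      obtain ⟨c', hc', hSc'⟩ := ih hsF
      have hSc := hScpt s hsF
      have hSn := hSnull s
      have hSm := hmem s
      set S : Set X := Tp ∪ {ψ τ} ∪ ⋃ L ∈ s, ψ '' cone τ (Yl L) with hS
      have hyT : ψ (y L₀) ∈ S := Or.inl (Or.inl (Or.inl (hYT _ (hy L₀ hL₀F).1)))
      have hτS : ψ τ ∈ S := Or.inl (Or.inr rfl)
      have hne : τ ≠ y L₀ := by
        intro hcon
        refine (hbd L₀ hL₀F).2 ?_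
        rw [← hcon]
        intro i
        simp
      have hrad : ∀ L ∈ s, ∀ y' ∈ Yl L, ∀ s' ∈ Ioc (0 : ℝ) 1, ∀ y'' : E 4, lb m τ y'' = L₀ →
          y'' ∈ qc τ \ qo τ → ∀ σ : ℝ, 0 ≤ σ → ln τ y' s' ≠ ln τ y'' σ := by
        intro L hL y' hy' s' hs' y'' hy''L hy''bd σ hσ hcon
        have h1 := rad hy'.1.2 hy''bd hs'.1 hσ hcon
        refine hL₀ ?_
        rw [← hy''L, ← h1, hy'.2]
        exact hL
      have h1 := arc hc' hSc hSn hSc' hψ hne (hSc' hτS) (hSc' hyT) (by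
        rintro p ⟨hpS, hpsg⟩
        obtain ⟨t, ht, rfl⟩ := mem_sg.1 hpsg
        rcases hSm _ hpS with h2 | h2 | ⟨L, hL, y', hy', s', hs', h2⟩
        · right
          rcases ht.2.eq_or_lt with h3 | h3
          · rw [h3, ln_one]; rfl
          · exact absurd (qo_of_lt (hbd L₀ hL₀F).1 ht.1 h3) (hTpo _ h2)
        · left
          rw [h2]
        · exact absurd h2.symm (hrad L hL y' hy' s' hs' _ (hy L₀ hL₀F).2 (hbd L₀ hL₀F) t ht.1))
      obtain ⟨c'', hc'', hKc⟩ := h1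
      have hseg : ∀ t ∈ Icc (0 : ℝ) 1, ψ (ln (y L₀) τ t) ∈ range c'' := by
        intro t ht
        refine hKc (Or.inr (mem_sg.2 ⟨1 - t, ⟨by linarith [ht.2], by linarith [ht.1]⟩, ?_⟩))
        rw [ln_swap (y L₀) τ t]
      have h2 := star hψ (z := y L₀) (D := cone (y L₀) (cone τ (Yl L₀)))
        (cone_cpt _ (cone_cpt _ (hYl L₀ hL₀F))) (fun P hP t ht => cone_star hP ht)
        (K := S ∪ sg ψ τ (y L₀))
        (hSc.isClosed.union ((cone_cpt τ isCompact_singleton).image hψ.cont).isClosed)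
        hc'' hKc (hKc (Or.inl hyT)) (by
          rintro P ⟨_, ⟨y₁, hy₁, u, hu, rfl⟩, v, hv, rfl⟩ hPK t ht
          have htau : ln (y L₀) (ln τ y₁ u) v = τ →
              ψ (ln (y L₀) (ln (y L₀) (ln τ y₁ u) v) t) ∈ range c'' := by
            intro h3
            rw [h3]
            exact hseg t ht
          rcases tri (τ := τ) (y₀ := y L₀) (y := y₁) hu hv with h3 | ⟨σ, hσ, r, hr, h3⟩
          · exact htau h3
          have hy'' : ln (y L₀) y₁ r ∈ C L₀ := ⟨y₁, hy₁, r, hr, rfl⟩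
          have h4 := hC1 L₀ hL₀F _ hy''
          rcases hPK with h5 | h5
          · rcases hSm _ h5 with h6 | h6 | ⟨L, hL, y', hy', s', hs', h6⟩
            · rcases hσ.2.eq_or_lt with h7 | h7
              · rw [h3, h7, ln_one]
                refine hKc (Or.inl (Or.inl (Or.inl (Or.inr (mem_iUnion₂.2 ⟨L₀, hL₀F, ?_⟩)))))
                exact ⟨_, cone_star hy'' ht, rfl⟩
              · exfalso
                refine hTpo _ h6 ?_
                rw [h3]
                exact qo_of_lt h4.2.1.1 hσ.1.le h7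
            · exact htau h6
            · exfalso
              exact hrad L hL y' hy' s' hs' _ h4.1 h4.2.1 σ hσ.1.le (by rw [← h6, h3])
          · obtain ⟨s', hs', h6⟩ := mem_sg.1 h5
            rw [← hψ.1 h6, ln_swap τ (y L₀) s', ln_ln]
            have e1 := hs'.1
            have e2 := hs'.2
            exact hseg _ ⟨mul_nonneg ht.1 (by linarith), mul_le_one₀ ht.2 (by linarith)
              (by linarith)⟩)
      refine h2.mono ?_
      rw [Finset.set_biUnion_insert]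
      rintro p (hp | hp | hp)
      · exact Or.inl (Or.inl (Or.inl hp))
      · obtain ⟨z, hz, rfl⟩ := hp
        exact Or.inr ⟨z, subset_cone _ _ hz, rfl⟩
      · exact Or.inl (Or.inl (Or.inr hp))
  -- the last step
  obtain ⟨c', hc', hSc'⟩ := main F (Finset.Subset.refl F)
  have hSc := hScpt F (Finset.Subset.refl F)
  have hSm := hmem F
  set S : Set X := Tp ∪ {ψ τ} ∪ ⋃ L ∈ F, ψ '' cone τ (Yl L) with hS
  have hτS : ψ τ ∈ S := Or.inl (Or.inr rfl)
  have hYcone : ∀ z ∈ Y, ∀ t ∈ Icc (0 : ℝ) 1, ψ (ln τ z t) ∈ S := by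
    intro z hz t ht
    have hL : lb m τ z ∈ F := hfin.mem_toFinset.2 ⟨z, hz, rfl⟩
    exact Or.inr (mem_iUnion₂.2 ⟨lb m τ z, hL, _, ⟨z, ⟨hz, rfl⟩, t, ht, rfl⟩, rfl⟩)
  have h1 := star hψ (z := τ) (D := cone τ (A ∩ qc τ))
    (cone_cpt _ ((isCompact_qc τ).inter_left hAc)) (fun P hP t ht => cone_star hP ht)
    (K := S) hSc.isClosed hc' hSc' (hSc' hτS) (by
      rintro P ⟨a, ⟨haA, haq⟩, u, hu, rfl⟩ hPS t ht
      rcases hSm _ hPS with h2 | h2 | ⟨L, hL, y', hy', s', hs', h2⟩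
      · rcases hu.2.eq_or_lt with h3 | h3
        · rw [h3, ln_one]
          rw [h3, ln_one] at h2
          exact hSc' (hYcone a ⟨haA, haq, hTpo _ h2⟩ t ht)
        · exact absurd (qo_of_lt haq hu.1 h3) (hTpo _ h2)
      · rw [h2]
        have : ln τ τ t = τ := by simp [ln]
        rw [this]
        exact hSc' hτS
      · rw [h2, ln_ln]
        exact hSc' (hYcone y' hy'.1 _ ⟨mul_nonneg ht.1 hs'.1.le, mul_le_one₀ ht.2 hs'.1.le hs'.2⟩))
  refine h1.mono ?_
  intro p hp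
  by_cases hpo : p ∈ ψ '' qo τ
  · obtain ⟨z, hz, rfl⟩ := hpo
    exact Or.inr ⟨z, subset_cone _ _ ⟨hp, qo_qc hz⟩, rfl⟩
  · exact Or.inl (Or.inl (Or.inl (Or.inl ⟨hp, hpo⟩)))

/-- the two cell lemma -/
theorem two_cell [T2Space X] [IsManifold (𝓡 4) ∞ X] [SimplyConnectedSpace X] {ψ : E 4 → X}
    (hψ : Cell ψ) {Z : Set X} (hZ : IsCompact Z) (hZn : NullH2 4 Z)
    (hE : Eg (Z \ ψ '' ball 0 1)) : Eg Z := by
  obtain ⟨c, hc, hcZ⟩ := hE
  obtain ⟨τ, h1, h2, h3⟩ := generic_box (hZn ψ hψ.1 hψ.2)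
  refine box_engulf hψ hZ hZn h2 h3 hc (Subset.trans (sdiff_subset_sdiff_right (image_mono ?_)) hcZ)
  intro z hz i
  rw [mem_ball_zero_iff] at hz
  have e1 : |z i| ≤ ‖z‖ := PiLp.norm_apply_le z i
  have e2 : |τ i| ≤ ‖τ‖ := PiLp.norm_apply_le τ i
  have e3 := abs_sub (z i) (τ i)
  linarith

/-- **Engulfing**: compact sets whose two-dimensional Hausdorff measure vanishes lie in cells -/
theorem engulf [T2Space X] [IsManifold (𝓡 4) ∞ X] [SimplyConnectedSpace X] {Z : Set X}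
    (hZ : IsCompact Z) (hZn : NullH2 4 Z) : Eg Z := by
  classical
  choose ψ hi hl h0 using fun x : X => exists_cell0 (n := 4) x
  have hψ : ∀ x, Cell (ψ x) := fun x => ⟨hi x, hl x⟩
  have key : ∀ (s : Finset X) (Z : Set X), IsCompact Z → NullH2 4 Z →
      Z ⊆ ⋃ x ∈ s, ψ x '' ball 0 1 → Eg Z := by
    intro s
    induction s using Finset.induction_on with
    | empty =>
      intro Z _ _ h1
      obtain ⟨x⟩ : Nonempty X := PathConnectedSpace.nonempty
      refine ⟨ψ x, hψ x, h1.trans ?_⟩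
      simp
    | insert x s _ ih =>
      intro Z hZ hZn h1
      refine two_cell (hψ x) hZ hZn (ih _ (hZ.diff ((hψ x).open_image isOpen_ball))
        (NullH2.mono sdiff_subset hZn) ?_)
      rw [Finset.set_biUnion_insert] at h1
      rintro p ⟨hp, hpx⟩
      rcases h1 hp with h2 | h2
      · exact absurd h2 hpx
      · exact h2
  obtain ⟨s, hs⟩ := hZ.elim_finite_subcover (fun x : X => ψ x '' ball 0 1)
    (fun x => (hψ x).open_image isOpen_ball)
    (fun x _ => mem_iUnion.2 ⟨x, 0, mem_ball_self one_pos, h0 x⟩)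
  exact key s Z hZ hZn hs

end Pool.Agent.L0h29.EN
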