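import Pool.Agent.L0h29.EN.Sum3
import Pool.Agent.L0h29.EN.Box
import Pool.Agent.L0h29.RG.Norm

/-!
# Project EN: diffeomorphisms between complements, collapse
-/

set_option autoImplicit false
set_option linter.unusedSectionVars false
set_option linter.unusedVariables false

open Set Filter Topology Metric Function MeasureTheory
open scoped Manifold ContDiff

noncomputable section

namespace Pool.Agent.L0h29.EN

open Pool.Agent.Y522 Pool.Agent.N550.KH Pool.Agent.N550.KH.One Pool.Agent.N550.KH.Supp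
  Pool.Agent.L0h29.CS Pool.Agent.N550.TS.Flm Pool.Agent.L0h29.RG

variable {M N : Type} [TopologicalSpace M] [ChartedSpace (E 4) M] [TopologicalSpace N]
  [ChartedSpace (E 4) N]

/-- `φ` is a diffeomorphism between the complements of the closed sets `Z'` and `Z` -/
structure DfOff (φ : M → N) (Z' : Set M) (Z : Set N) : Prop where
  cl' : IsClosed Z'
  cl : IsClosed Z
  inj : InjOn φ Z'ᶜ
  ld : ∀ x, x ∉ Z' → LD 4 φ x
  img : φ '' Z'ᶜ = Zᶜ

/-- the inverse on the complement -/
theorem DfOff.exists_inv [Nonempty M] {φ : M → N} {Z' : Set M} {Z : Set N} (h : DfOff φ Z' Z) :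
    ∃ i : N → M, (∀ x, x ∉ Z' → i (φ x) = x) ∧ (∀ y, y ∉ Z → i y ∉ Z' ∧ φ (i y) = y) ∧
      ∀ y, y ∉ Z → LD 4 i y := by
  have h1 : ∀ y, y ∉ Z → ∃ x, x ∉ Z' ∧ φ x = y := by
    intro y hy
    have : y ∈ φ '' Z'ᶜ := by rw [h.img]; exact hy
    obtain ⟨x, hx, hxy⟩ := this
    exact ⟨x, hx, hxy⟩
  choose! i hi using h1
  have h2 : ∀ x, x ∉ Z' → i (φ x) = x := by
    intro x hx
    have hφx : φ x ∉ Z := by
      have : φ x ∈ φ '' Z'ᶜ := ⟨x, hx, rfl⟩
      rw [h.img] at this
      exact this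
    exact h.inj (hi _ hφx).1 hx (hi _ hφx).2
  refine ⟨i, h2, hi, fun y hy => ?_⟩
  have h3 := LD.inverse (n := 4) (k := φ) (g := i) h.cl'.isOpen_compl (fun x hx => h.ld x hx)
    (fun x hx => h2 x hx) (x := i y) (hi y hy).1
  rw [(hi y hy).2] at h3
  exact h3

theorem DfOff.notMem {φ : M → N} {Z' : Set M} {Z : Set N} (h : DfOff φ Z' Z) {x : M}
    (hx : x ∉ Z') : φ x ∉ Z := by
  have : φ x ∈ φ '' Z'ᶜ := ⟨x, hx, rfl⟩
  rw [h.img] at this
  exact this

/-- closed sets disjoint from `Z` have closed preimages -/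
theorem DfOff.isClosed_pre [CompactSpace N] [T2Space M] {φ : M → N} {Z' : Set M}
    {Z : Set N} (h : DfOff φ Z' Z) {K : Set N} (hK : IsClosed K) (hKZ : Disjoint K Z) :
    IsCompact {x | x ∉ Z' ∧ φ x ∈ K} := by
  by_cases hM : Nonempty M
  · obtain ⟨i, h1, h2, h3⟩ := h.exists_inv
    have h4 : {x | x ∉ Z' ∧ φ x ∈ K} = i '' K := by
      ext x
      constructor
      · rintro ⟨hx, hxK⟩
        exact ⟨φ x, hxK, h1 x hx⟩
      · rintro ⟨y, hy, rfl⟩
        have hyZ : y ∉ Z := fun hcon => disjoint_left.1 hKZ hy hcon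
        exact ⟨(h2 y hyZ).1, by rw [(h2 y hyZ).2]; exact hy⟩
    rw [h4]
    refine hK.isCompact.image_of_continuousOn fun y hy => ?_
    exact (h3 y fun hcon => disjoint_left.1 hKZ hy hcon).continuousAt.continuousWithinAt
  · have h4 : {x | x ∉ Z' ∧ φ x ∈ K} = ∅ := by
      ext x
      exact absurd ⟨x⟩ hM
    rw [h4]
    exact isCompact_empty

/-- the collapse map -/
theorem DfOff.exists_coll [CompactSpace M] [T2Space M] [CompactSpace N] [T2Space N]
    [IsManifold (𝓡 4) ∞ M] [IsManifold (𝓡 4) ∞ N] {φ : M → N} {Z' : Set M}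
    {Z : Set N} (h : DfOff φ Z' Z) {c : E 4 → N} (hc : Cell c) {R : ℝ} (hR : 0 < R)
    (hZc : Z ⊆ c '' ball 0 R) :
    ∃ G : M → N, Continuous G ∧ (∀ x ∈ Z', G x = c 0) ∧
      (∀ x, x ∉ Z' → G x = act c (psiR R) (φ x)) ∧
      ∀ y, y ≠ c 0 → ∃ x, G x = y ∧ LD 4 G x ∧ ∀ x', G x' = y → x' = x := by
  classical
  obtain ⟨hi, hl⟩ := hc
  let G : M → N := fun x => if x ∈ Z' then c 0 else act c (psiR R) (φ x)
  have hG1 : ∀ x ∈ Z', G x = c 0 := fun x hx => if_pos hx
  have hG2 : ∀ x, x ∉ Z' → G x = act c (psiR R) (φ x) := fun x hx => if_neg hx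
  have hnear : ∀ x, x ∉ Z' → G =ᶠ[𝓝 x] fun x => act c (psiR R) (φ x) := by
    intro x hx
    filter_upwards [h.cl'.isOpen_compl.mem_nhds hx] with y hy
    exact hG2 y hy
  refine ⟨G, ?_, hG1, hG2, fun y hy => ?_⟩
  · rw [continuous_iff_continuousAt]
    intro x
    by_cases hx : x ∈ Z'
    · have h1 : IsCompact {x | x ∉ Z' ∧ φ x ∈ (c '' ball 0 R)ᶜ} :=
        h.isClosed_pre (isOpen_image_of_LD (n := 4) isOpen_ball fun z _ => hl z).isClosed_compl
          (disjoint_left.2 fun y hy hyZ => hy (hZc hyZ))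
      have h2 : ∀ᶠ y in 𝓝 x, G y = c 0 := by
        filter_upwards [h1.isClosed.isOpen_compl.mem_nhds (fun hcon => hcon.1 hx)] with y hy
        by_cases hy' : y ∈ Z'
        · exact hG1 y hy'
        · have h3 : φ y ∈ c '' ball 0 R := by
            by_contra hcon
            exact hy ⟨hy', hcon⟩
          obtain ⟨z, hz, hzy⟩ := h3
          rw [hG2 y hy', ← hzy, coll_c hi, psiR_zero hR]
          have := mem_ball_zero_iff.1 hz
          linarith
      refine (continuousAt_const (y := c 0)).congr ?_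
      exact h2.mono fun y hy => hy.symm
    · refine ContinuousAt.congr ?_ (hnear x hx).symm
      exact ContinuousAt.comp (g := act c (psiR R)) (coll_smooth hi hl hR _).continuousAt
        (h.ld x hx).continuousAt
  · obtain ⟨y', hy'⟩ := coll_surj (c := c) hi hR hy
    have hyZ : y' ∉ Z := by
      intro hcon
      obtain ⟨z, hz, hzy⟩ := hZc hcon
      apply hy
      rw [← hy', ← hzy, coll_c hi, psiR_zero hR]
      have := mem_ball_zero_iff.1 hz
      linarith
    have : y' ∈ φ '' Z'ᶜ := by rw [h.img]; exact hyZ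
    obtain ⟨x, hx, hxy⟩ := this
    refine ⟨x, by rw [hG2 x hx, hxy, hy'], ?_, fun x' hx' => ?_⟩
    · refine LD.congr ?_ (hnear x hx)
      refine LD.comp_fun (g := act c (psiR R)) (f := φ) ?_ (h.ld x hx)
      refine coll_ld hi hl hR ?_
      rw [hxy, hy']
      exact hy
    · have hx'Z : x' ∉ Z' := by
        intro hcon
        rw [hG1 x' hcon] at hx'
        exact hy hx'.symm
      rw [hG2 x' hx'Z, ← hy', ← hxy] at hx'
      have h1 := coll_inj hi hR hx' (by rw [hx', hxy, hy']; exact hy)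
      exact h.inj hx'Z hx h1

/-- compact manifolds are not cells -/
theorem Cell.ne_univ [CompactSpace N] {c : E 4 → N} (hc : Cell c) : range c ≠ univ := by
  intro hcon
  have h1 : CompactSpace (E 4) := by
    have e := hc.emb.toIsEmbedding.toHomeomorph
    have h2 : CompactSpace (range c) := by
      rw [← isCompact_iff_compactSpace, hcon]
      exact isCompact_univ
    exact e.symm.compactSpace
  exact noncompact_univ (E 4) (isCompact_univ)

end Pool.Agent.L0h29.EN
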