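import Pool.Agent.Y522.Basic

/-!
# Project EN: Hausdorff null sets, products and slices
-/

set_option autoImplicit false

open Set Filter Topology Metric Function MeasureTheory
open scoped Manifold ContDiff ENNReal NNReal

noncomputable section

namespace Pool.Agent.L0h29.EN

open Pool.Agent.Y522

section cov

variable {α : Type*} [MetricSpace α] [MeasurableSpace α] [BorelSpace α]

/-- coverings of Hausdorff null sets -/
theorem exists_cover {d : ℝ} (hd : 0 < d) {A : Set α} (h : Measure.hausdorffMeasure d A = 0)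
    (ε r : ℝ≥0∞) (hε : 0 < ε) (hr : 0 < r) :
    ∃ t : ℕ → Set α, A ⊆ ⋃ n, t n ∧ (∀ n, ediam (t n) ≤ r) ∧ ∑' n, ediam (t n) ^ d < ε := by
  rw [Measure.hausdorffMeasure_apply] at h
  have h1 : (⨅ (t : ℕ → Set α) (_ : A ⊆ ⋃ n, t n) (_ : ∀ n, ediam (t n) ≤ r),
      ∑' n, ⨆ _ : (t n).Nonempty, ediam (t n) ^ d) < ε := by
    refine lt_of_le_of_lt ?_ hε
    rw [← h]
    exact le_iSup₂ (f := fun (r : ℝ≥0∞) (_ : 0 < r) =>
      ⨅ (t : ℕ → Set α) (_ : A ⊆ ⋃ n, t n) (_ : ∀ n, ediam (t n) ≤ r),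
        ∑' n, ⨆ _ : (t n).Nonempty, ediam (t n) ^ d) r hr
  obtain ⟨t, ht⟩ := iInf_lt_iff.1 h1
  obtain ⟨h2, ht⟩ := iInf_lt_iff.1 ht
  obtain ⟨h3, ht⟩ := iInf_lt_iff.1 ht
  refine ⟨t, h2, h3, lt_of_le_of_lt (ENNReal.tsum_le_tsum fun n => ?_) ht⟩
  rcases (t n).eq_empty_or_nonempty with h4 | h4
  · rw [h4]
    simp [hd]
  · exact le_iSup (f := fun _ : (t n).Nonempty => ediam (t n) ^ d) h4

/-- coverings with positive radii -/
theorem exists_cover' {d : ℝ} (hd : 0 < d) {A : Set α} (h : Measure.hausdorffMeasure d A = 0)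
    (ε : ℝ≥0) (hε : 0 < ε) :
    ∃ (t : ℕ → Set α) (ρ : ℕ → ℝ≥0), A ⊆ ⋃ n, t n ∧ (∀ n, 0 < ρ n) ∧ (∀ n, ρ n ≤ ε) ∧
      (∀ n, ediam (t n) ≤ ρ n) ∧ ∑' n, (ρ n : ℝ≥0∞) ^ d ≤ ε := by
  obtain ⟨η, hη, hη2⟩ := ENNReal.exists_pos_sum_of_countable (ε := ((min (ε / 2) (ε ^ d) : ℝ≥0) : ℝ≥0∞))
    (by
      have h1 : 0 < min (ε / 2) (ε ^ d) := lt_min (by positivity) (by positivity)
      exact_mod_cast h1.ne') ℕ
  obtain ⟨t, ht1, ht2, ht3⟩ := exists_cover hd h ((ε / 2 : ℝ≥0) : ℝ≥0∞) (ε : ℝ≥0∞)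
    (by exact_mod_cast (by positivity : 0 < ε / 2)) (by exact_mod_cast hε)
  have hfin : ∀ n, ediam (t n) ≠ ⊤ := fun n => ne_top_of_le_ne_top ENNReal.coe_ne_top (ht2 n)
  have hηn : ∀ n, (η n : ℝ≥0∞) < ((min (ε / 2) (ε ^ d) : ℝ≥0) : ℝ≥0∞) := fun n =>
    lt_of_le_of_lt (ENNReal.le_tsum n) hη2
  have hηn' : ∀ n, η n ≤ ε ^ d := fun n => by
    have h1 : η n < min (ε / 2) (ε ^ d) := by exact_mod_cast hηn n
    exact h1.le.trans (min_le_right _ _)
  refine ⟨t, fun n => max (ediam (t n)).toNNReal ((η n) ^ (1 / d)), ht1, fun n => ?_,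
    fun n => ?_, fun n => ?_, ?_⟩
  · exact lt_max_of_lt_right (by have := hη n; positivity)
  · refine max_le ?_ ?_
    · rw [← ENNReal.coe_le_coe, ENNReal.coe_toNNReal (hfin n)]
      exact ht2 n
    · calc (η n) ^ (1 / d) ≤ (ε ^ d) ^ (1 / d) := NNReal.rpow_le_rpow (hηn' n) (by positivity)
        _ = ε := by rw [← NNReal.rpow_mul, mul_one_div, div_self hd.ne', NNReal.rpow_one]
  · rw [← ENNReal.coe_toNNReal (hfin n), ENNReal.coe_le_coe]
    exact le_max_left _ _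
  · have h1 : ∀ n, ((max (ediam (t n)).toNNReal ((η n) ^ (1 / d)) : ℝ≥0) : ℝ≥0∞) ^ d ≤
        ediam (t n) ^ d + η n := by
      intro n
      rcases max_cases (ediam (t n)).toNNReal ((η n) ^ (1 / d)) with ⟨h2, -⟩ | ⟨h2, -⟩
      · rw [h2, ENNReal.coe_toNNReal (hfin n)]
        exact le_self_add
      · rw [h2, ENNReal.coe_rpow_of_nonneg _ (by positivity), ← ENNReal.rpow_mul,
          one_div_mul_cancel hd.ne', ENNReal.rpow_one]
        exact le_add_self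
    calc _ ≤ ∑' n, (ediam (t n) ^ d + (η n : ℝ≥0∞)) := ENNReal.tsum_le_tsum h1
      _ = ∑' n, ediam (t n) ^ d + ∑' n, (η n : ℝ≥0∞) := ENNReal.tsum_add
      _ ≤ ((ε / 2 : ℝ≥0) : ℝ≥0∞) + ((min (ε / 2) (ε ^ d) : ℝ≥0) : ℝ≥0∞) :=
          add_le_add ht3.le hη2.le
      _ ≤ ((ε / 2 : ℝ≥0) : ℝ≥0∞) + ((ε / 2 : ℝ≥0) : ℝ≥0∞) := by
          gcongr
          exact min_le_left _ _
      _ = ε := by rw [← ENNReal.coe_add, add_halves]

/-- a criterion for null sets -/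
theorem null_of_covers {d : ℝ} {A : Set α} {ι : Type*} [Countable ι]
    (h : ∀ ε : ℝ≥0, 0 < ε → ∃ t : ι → Set α, A ⊆ ⋃ i, t i ∧ (∀ i, ediam (t i) ≤ ε) ∧
      ∑' i, ediam (t i) ^ d ≤ ε) : Measure.hausdorffMeasure d A = 0 := by
  have h0 : ∀ k : ℕ, (0 : ℝ≥0) < 1 / (k + 1) := fun k => by positivity
  choose t h1 h2 h3 using fun k : ℕ => h (1 / (k + 1)) (h0 k)
  have hlim : Tendsto (fun k : ℕ => ((1 / (k + 1) : ℝ≥0) : ℝ≥0∞)) atTop (𝓝 0) := by
    have : Tendsto (fun k : ℕ => (1 / (k + 1) : ℝ≥0)) atTop (𝓝 0) := by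
      rw [← NNReal.tendsto_coe]
      push_cast
      exact tendsto_one_div_add_atTop_nhds_zero_nat
    exact ENNReal.tendsto_coe.2 this
  have h4 := Measure.hausdorffMeasure_le_liminf_tsum (ι := fun _ : ℕ => ι) d A
    (fun k : ℕ => ((1 / (k + 1) : ℝ≥0) : ℝ≥0∞)) hlim t (Eventually.of_forall h2)
    (Eventually.of_forall h1)
  have h5 : liminf (fun k => ∑' i, ediam (t k i) ^ d) atTop ≤ 0 := by
    have h6 : Tendsto (fun k => ∑' i, ediam (t k i) ^ d) atTop (𝓝 0) :=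
      tendsto_of_tendsto_of_tendsto_of_le_of_le tendsto_const_nhds hlim (fun _ => bot_le) h3
    rw [h6.liminf_eq]
  exact le_antisymm (h4.trans h5) bot_le

/-- products with an interval -/
theorem prod_null {d : ℝ} (hd : 0 < d) [SecondCountableTopology α] {A : Set α}
    (h : Measure.hausdorffMeasure d A = 0) :
    Measure.hausdorffMeasure (d + 1) (A ×ˢ (univ : Set ℝ)) = 0 := by
  have h1 : A ×ˢ (univ : Set ℝ) ⊆ ⋃ k : ℤ, A ×ˢ Icc (k : ℝ) (k + 1) := by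
    rintro ⟨a, t⟩ ⟨ha, -⟩
    exact mem_iUnion.2 ⟨⌊t⌋, ha, Int.floor_le t, (Int.lt_floor_add_one t).le⟩
  refine measure_mono_null h1 (measure_iUnion_null fun k => ?_)
  refine null_of_covers (ι := ℕ × ℕ) fun ε hε => ?_
  obtain ⟨t, ρ, ht1, hρ0, hρε, ht2, ht3⟩ := exists_cover' hd h (min ε 1 / 2)
    (by have := lt_min hε one_pos; positivity)
  have hρ1 : ∀ n, ρ n ≤ 1 := fun n => (hρε n).trans (by
    have h5 : min ε 1 ≤ 1 := min_le_right _ _
    exact (half_le_self zero_le).trans h5)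
  let s : ℕ × ℕ → Set (α × ℝ) := fun p =>
    if (p.2 : ℝ) * ρ p.1 ≤ 1 then
      t p.1 ×ˢ Icc ((k : ℝ) + p.2 * ρ p.1) (k + (p.2 + 1) * ρ p.1) else ∅
  have hsd : ∀ p, ediam (s p) ≤ ρ p.1 := by
    intro p
    show ediam (if (p.2 : ℝ) * ρ p.1 ≤ 1 then
      t p.1 ×ˢ Icc ((k : ℝ) + p.2 * ρ p.1) (k + (p.2 + 1) * ρ p.1) else ∅) ≤ ρ p.1
    split_ifs with h2
    · refine ediam_le fun x hx y hy => ?_
      rw [Prod.edist_eq]
      refine max_le ((edist_le_ediam_of_mem hx.1 hy.1).trans (ht2 _)) ?_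
      refine (edist_le_ediam_of_mem hx.2 hy.2).trans ?_
      rw [Real.ediam_Icc]
      have h3 : (k : ℝ) + (p.2 + 1) * ρ p.1 - (k + p.2 * ρ p.1) = ρ p.1 := by ring
      rw [h3]
      exact le_of_eq ENNReal.ofReal_coe_nnreal
    · simp
  refine ⟨s, ?_, fun p => (hsd p).trans ?_, ?_⟩
  · rintro ⟨a, u⟩ ⟨ha, hu1, hu2⟩
    obtain ⟨n, hn⟩ := mem_iUnion.1 (ht1 ha)
    have hρn : (0 : ℝ) < ρ n := by exact_mod_cast hρ0 n
    have h2 : 0 ≤ (u - k) / ρ n := div_nonneg (by linarith) hρn.le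
    refine mem_iUnion.2 ⟨(n, ⌊(u - k) / ρ n⌋₊), ?_⟩
    have h3 : (⌊(u - k) / ρ n⌋₊ : ℝ) ≤ (u - k) / ρ n := Nat.floor_le h2
    have h4 : (u - k) / ρ n < ⌊(u - k) / ρ n⌋₊ + 1 := Nat.lt_floor_add_one _
    have h5 : (⌊(u - k) / ρ n⌋₊ : ℝ) * ρ n ≤ u - k := by
      rwa [le_div_iff₀ hρn] at h3
    have h6 : u - k ≤ (⌊(u - k) / ρ n⌋₊ + 1 : ℝ) * ρ n := by
      rw [div_lt_iff₀ hρn] at h4
      exact h4.le
    show (a, u) ∈ (if ((⌊(u - k) / ρ n⌋₊ : ℕ) : ℝ) * ρ n ≤ 1 then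
      t n ×ˢ Icc ((k : ℝ) + (⌊(u - k) / ρ n⌋₊ : ℕ) * ρ n) (k + ((⌊(u - k) / ρ n⌋₊ : ℕ) + 1) * ρ n)
      else ∅)
    rw [if_pos (by simp only at hu1 hu2; linarith)]
    exact ⟨hn, by simp only; linarith, by simp only; linarith⟩
  · have h2 := hρε p.1
    have h3 : min ε 1 / 2 ≤ ε := (half_le_self zero_le).trans (min_le_left _ _)
    exact_mod_cast h2.trans h3
  · have h2 : ∀ n : ℕ, ∑' j : ℕ, ediam (s (n, j)) ^ (d + 1) ≤ 2 * (ρ n : ℝ≥0∞) ^ d := by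
      intro n
      have hρn : (0 : ℝ) < ρ n := by exact_mod_cast hρ0 n
      have hfin : ∀ j ∉ Finset.range (⌊(1 : ℝ) / ρ n⌋₊ + 1), ediam (s (n, j)) ^ (d + 1) = 0 := by
        intro j hj
        rw [Finset.mem_range, not_lt] at hj
        have h3 : s (n, j) = ∅ := by
          show (if (j : ℝ) * ρ n ≤ 1 then _ else ∅) = (∅ : Set (α × ℝ))
          rw [if_neg]
          rw [← le_div_iff₀ hρn, not_le]
          exact Nat.lt_of_floor_lt (by omega)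
        rw [h3]
        simp only [ediam_empty]
        exact ENNReal.zero_rpow_of_pos (by linarith)
      rw [tsum_eq_sum hfin]
      have h4 : ∀ j ∈ Finset.range (⌊(1 : ℝ) / ρ n⌋₊ + 1),
          ediam (s (n, j)) ^ (d + 1) ≤ (ρ n : ℝ≥0∞) ^ (d + 1) := fun j _ =>
        ENNReal.rpow_le_rpow (hsd (n, j)) (by linarith)
      refine (Finset.sum_le_sum h4).trans ?_
      rw [Finset.sum_const, Finset.card_range, nsmul_eq_mul]
      have hρne : (ρ n : ℝ≥0∞) ≠ 0 := by exact_mod_cast (hρ0 n).ne'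
      rw [ENNReal.rpow_add _ _ hρne ENNReal.coe_ne_top, ENNReal.rpow_one, mul_comm, mul_assoc,
        mul_comm (2 : ℝ≥0∞)]
      refine mul_le_mul_right ?_ _
      have h5 : (((⌊(1 : ℝ) / ρ n⌋₊ + 1 : ℕ) : ℝ≥0) : ℝ≥0) * ρ n ≤ 2 := by
        have h6 : ((⌊(1 : ℝ) / ρ n⌋₊ : ℕ) : ℝ) ≤ 1 / ρ n := Nat.floor_le (by positivity)
        have h7 : ((⌊(1 : ℝ) / ρ n⌋₊ : ℕ) : ℝ) * ρ n ≤ 1 := by
          rwa [le_div_iff₀ hρn] at h6
        have h8 : (ρ n : ℝ) ≤ 1 := by exact_mod_cast hρ1 n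
        rw [← NNReal.coe_le_coe]
        push_cast
        nlinarith
      rw [mul_comm]
      exact_mod_cast h5
    rw [ENNReal.tsum_prod']
    calc _ ≤ ∑' n, 2 * (ρ n : ℝ≥0∞) ^ d := ENNReal.tsum_le_tsum h2
      _ = 2 * ∑' n, (ρ n : ℝ≥0∞) ^ d := ENNReal.tsum_mul_left
      _ ≤ 2 * ((min ε 1 / 2 : ℝ≥0) : ℝ≥0∞) := by gcongr
      _ ≤ ε := by
        have h5 : 2 * (min ε 1 / 2) ≤ ε := by
          rw [mul_div_cancel₀ _ (two_ne_zero)]
          exact min_le_left _ _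
        exact_mod_cast h5

/-- almost all slices of a null set are null -/
theorem slice_null {d : ℝ} (hd : 0 < d) {A : Set α}
    (h : Measure.hausdorffMeasure (d + 1) A = 0) {p : α → ℝ} (hp : LipschitzWith 1 p) :
    ∀ᵐ s : ℝ, Measure.hausdorffMeasure d (A ∩ {z | p z = s}) = 0 := by
  classical
  have h0 : ∀ k : ℕ, (0 : ℝ≥0) < (1 / 2) ^ k := fun k => by positivity
  choose t ρ ht hρ0 hρε htρ hsum using fun k : ℕ =>
    exists_cover' (by linarith : 0 < d + 1) h ((1 / 2) ^ k) (h0 k)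
  let J : ℕ → ℕ → Set ℝ := fun k n => if hn : (t k n).Nonempty then
    Icc (p hn.choose - ρ k n) (p hn.choose + ρ k n) else ∅
  have hJ : ∀ k n z, z ∈ t k n → p z ∈ J k n := by
    intro k n z hz
    have hn : (t k n).Nonempty := ⟨z, hz⟩
    show p z ∈ (if hn : (t k n).Nonempty then
      Icc (p hn.choose - ρ k n) (p hn.choose + ρ k n) else ∅)
    rw [dif_pos hn]
    have h1 : edist (p z) (p hn.choose) ≤ ρ k n := by
      refine (hp z hn.choose).trans ?_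
      rw [ENNReal.coe_one, one_mul]
      exact (edist_le_ediam_of_mem hz hn.choose_spec).trans (htρ k n)
    rw [edist_nndist, ENNReal.coe_le_coe] at h1
    have h2 : |p z - p hn.choose| ≤ ρ k n := by
      rw [← Real.dist_eq, ← coe_nndist]
      exact_mod_cast h1
    rw [abs_le] at h2
    exact ⟨by linarith [h2.1], by linarith [h2.2]⟩
  have hJm : ∀ k n, MeasurableSet (J k n) := by
    intro k n
    show MeasurableSet (if hn : (t k n).Nonempty then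
      Icc (p hn.choose - ρ k n) (p hn.choose + ρ k n) else ∅)
    split_ifs
    · exact measurableSet_Icc
    · exact MeasurableSet.empty
  have hJv : ∀ k n, volume (J k n) ≤ 2 * (ρ k n : ℝ≥0∞) := by
    intro k n
    show volume (if hn : (t k n).Nonempty then
      Icc (p hn.choose - ρ k n) (p hn.choose + ρ k n) else ∅) ≤ _
    split_ifs
    · rw [Real.volume_Icc]
      have h3 : ∀ a : ℝ, a + ρ k n - (a - ρ k n) = ((2 * ρ k n : ℝ≥0) : ℝ) := fun a => by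
        push_cast; ring
      rw [h3, ENNReal.ofReal_coe_nnreal]
      push_cast
      exact le_rfl
    · simp
  let g : ℕ → ℝ → ℝ≥0∞ := fun k s => ∑' n, (J k n).indicator (fun _ => (ρ k n : ℝ≥0∞) ^ d) s
  have hgm : ∀ k, Measurable (g k) := fun k => Measurable.ennreal_tsum fun n =>
    measurable_const.indicator (hJm k n)
  have hgi : ∀ k, ∫⁻ s, g k s ≤ 2 * ((1 / 2 : ℝ≥0∞) ^ k) := by
    intro k
    show ∫⁻ s, ∑' n, (J k n).indicator (fun _ => (ρ k n : ℝ≥0∞) ^ d) s ≤ _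
    rw [lintegral_tsum fun n => (measurable_const.indicator (hJm k n)).aemeasurable]
    have h1 : ∀ n, ∫⁻ s, (J k n).indicator (fun _ => (ρ k n : ℝ≥0∞) ^ d) s ≤
        2 * (ρ k n : ℝ≥0∞) ^ (d + 1) := by
      intro n
      rw [lintegral_indicator_const (hJm k n)]
      have hρne : (ρ k n : ℝ≥0∞) ≠ 0 := by exact_mod_cast (hρ0 k n).ne'
      rw [ENNReal.rpow_add _ _ hρne ENNReal.coe_ne_top, ENNReal.rpow_one]
      calc (ρ k n : ℝ≥0∞) ^ d * volume (J k n) ≤ (ρ k n : ℝ≥0∞) ^ d * (2 * (ρ k n : ℝ≥0∞)) := by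
            gcongr
            exact hJv k n
        _ = 2 * ((ρ k n : ℝ≥0∞) ^ d * ρ k n) := by ring
    calc _ ≤ ∑' n, 2 * (ρ k n : ℝ≥0∞) ^ (d + 1) := ENNReal.tsum_le_tsum h1
      _ = 2 * ∑' n, (ρ k n : ℝ≥0∞) ^ (d + 1) := ENNReal.tsum_mul_left
      _ ≤ 2 * (((1 / 2 : ℝ≥0) ^ k : ℝ≥0) : ℝ≥0∞) := by
          gcongr
          exact hsum k
      _ = 2 * ((1 / 2 : ℝ≥0∞) ^ k) := by
          rw [ENNReal.coe_pow]
          congr 2
          rw [ENNReal.coe_div two_ne_zero]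
          simp
  have htot : ∫⁻ s, ∑' k, g k s ≠ ⊤ := by
    rw [lintegral_tsum fun k => (hgm k).aemeasurable]
    refine ne_top_of_le_ne_top ?_ (ENNReal.tsum_le_tsum hgi)
    rw [ENNReal.tsum_mul_left, ENNReal.tsum_geometric]
    refine ENNReal.mul_ne_top (by simp) ?_
    simp
  have hae := ae_lt_top (Measurable.ennreal_tsum hgm) htot
  filter_upwards [hae] with s hs
  have hlim : Tendsto (fun k => g k s) atTop (𝓝 0) :=
    ENNReal.tendsto_atTop_zero_of_tsum_ne_top hs.ne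
  have hεlim : Tendsto (fun k : ℕ => (((1 / 2 : ℝ≥0) ^ k : ℝ≥0) : ℝ≥0∞)) atTop (𝓝 0) := by
    refine ENNReal.tendsto_coe.2 ?_
    exact tendsto_pow_atTop_nhds_zero_of_lt_one zero_le (by
      rw [← NNReal.coe_lt_coe]; push_cast; norm_num)
  have h4 := Measure.hausdorffMeasure_le_liminf_tsum (ι := fun _ : ℕ => ℕ) d
    (A ∩ {z | p z = s}) (fun k : ℕ => (((1 / 2 : ℝ≥0) ^ k : ℝ≥0) : ℝ≥0∞)) hεlim
    (fun k n => t k n ∩ {z | p z = s})
    (Eventually.of_forall fun k n => (ediam_mono inter_subset_left).trans ((htρ k n).trans (by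
      exact_mod_cast hρε k n)))
    (Eventually.of_forall fun k => by
      rintro z ⟨hz, hzs⟩
      obtain ⟨n, hn⟩ := mem_iUnion.1 (ht k hz)
      exact mem_iUnion.2 ⟨n, hn, hzs⟩)
  have h5 : liminf (fun k => ∑' n, ediam (t k n ∩ {z | p z = s}) ^ d) atTop ≤ 0 := by
    have h6 : Tendsto (fun k => ∑' n, ediam (t k n ∩ {z | p z = s}) ^ d) atTop (𝓝 0) := by
      refine tendsto_of_tendsto_of_tendsto_of_le_of_le tendsto_const_nhds hlim (fun _ => bot_le)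
        fun k => ?_
      refine ENNReal.tsum_le_tsum fun n => ?_
      by_cases hsJ : s ∈ J k n
      · rw [indicator_of_mem hsJ]
        exact ENNReal.rpow_le_rpow ((ediam_mono inter_subset_left).trans (htρ k n)) hd.le
      · have h7 : t k n ∩ {z | p z = s} = ∅ := by
          rw [eq_empty_iff_forall_notMem]
          rintro z ⟨hz1, hz2⟩
          exact hsJ (by rw [← (hz2 : p z = s)]; exact hJ k n z hz1)
        rw [h7, ediam_empty, ENNReal.zero_rpow_of_pos hd]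
        exact bot_le
    rw [h6.liminf_eq]
  exact le_antisymm (h4.trans h5) bot_le

end cov

end Pool.Agent.L0h29.EN
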