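import Pool.Agent.N550.TS.All2
import Pool.Agent.L0h29.RG.Psi

/-!
# Project EN: flattening with at most one critical point
-/

set_option autoImplicit false
set_option linter.unusedSectionVars false
set_option linter.unusedVariables false

open Set Filter Topology Metric Function MeasureTheory
open scoped Manifold ContDiff

noncomputable section

namespace Pool.Agent.L0h29.EN

open Pool.Agent.Y522 Pool.Agent.N550.KH Pool.Agent.N550.KH.Supp Pool.Agent.N550.TS
  Pool.Agent.N550.TS.Flm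

theorem rad_ld {n : ℕ} {θ : ℝ → ℝ} (hθ : ContDiff ℝ ∞ θ) (hm : Monotone θ)
    (hp : ∀ s, 0 < s → 0 < θ s) {z : E n} (hz : z ≠ 0) : LD n (rad θ) z := by
  have hlam : 0 < θ (‖z‖ ^ 2) := hp _ (by positivity)
  have h1 : HasDerivAt θ (deriv θ (‖z‖ ^ 2)) (‖z‖ ^ 2) :=
    (hθ.differentiable (by simp) _).hasDerivAt
  have h2 : HasFDerivAt (fun w : E n => ‖w‖ ^ 2) (2 • (innerSL ℝ z)) z :=
    (hasStrictFDerivAt_norm_sq z).hasFDerivAt
  have h3 : HasFDerivAt (fun w : E n => θ (‖w‖ ^ 2))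
      (deriv θ (‖z‖ ^ 2) • (2 • (innerSL ℝ z) : E n →L[ℝ] ℝ)) z :=
    HasDerivAt.comp_hasFDerivAt (h₂ := θ) (f := fun w : E n => ‖w‖ ^ 2) z h1 h2
  have h4 := h3.smul (hasFDerivAt_id z)
  refine Pool.Agent.N550.SH.Moeb.LD_of_injective
    (Eventually.of_forall fun y => (rad_smooth hθ).contDiffAt) h4 ?_
  rw [injective_iff_map_eq_zero]
  intro v hv
  simp only [ContinuousLinearMap.add_apply, ContinuousLinearMap.smul_apply,
    ContinuousLinearMap.id_apply, ContinuousLinearMap.smulRight_apply, id_eq,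
    innerSL_apply_apply, smul_eq_mul, nsmul_eq_mul, Nat.cast_ofNat] at hv
  set D := deriv θ (‖z‖ ^ 2) with hD
  have hD0 : 0 ≤ D := by
    rw [hD, ← derivWithin_univ]
    exact (hm.monotoneOn univ).derivWithin_nonneg
  have h5 : inner ℝ z v * (θ (‖z‖ ^ 2) + 2 * D * ‖z‖ ^ 2) = 0 := by
    have h6 := congrArg (fun w => inner ℝ z w) hv
    simp only [inner_add_right, inner_smul_right, inner_zero_right,
      real_inner_self_eq_norm_sq] at h6
    linarith
  have h6 : 0 < θ (‖z‖ ^ 2) + 2 * D * ‖z‖ ^ 2 := by positivity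
  have h7 : inner ℝ z v = (0 : ℝ) := by
    rcases mul_eq_zero.1 h5 with h | h
    · exact h
    · exact absurd h h6.ne'
  rw [h7] at hv
  simp only [mul_zero, zero_smul, add_zero] at hv
  exact (smul_eq_zero.1 hv).resolve_left hlam.ne'

theorem flat (n : ℕ) (M N : Type) [TopologicalSpace M] [ChartedSpace (E n) M]
    [IsManifold (𝓡 n) ∞ M] [TopologicalSpace N] [T2Space N] [ChartedSpace (E n) N]
    [IsManifold (𝓡 n) ∞ N] (G : M ≃ₜ N) (x₀ : M) (hG : ∀ x, x ≠ x₀ → LD n G x) :
    ∃ f : M ≃ₜ N, ContMDiff (𝓡 n) (𝓡 n) ∞ f ∧ ∀ x, x ≠ x₀ → LD n f x := by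
  have hF := Flt.main
  obtain ⟨a, ai, ald, a0⟩ := exists_cell0 (n := n) x₀
  obtain ⟨h, hi, hld, h0⟩ := exists_cell0 (n := n) (G x₀)
  have hginv : ∀ w, invFun h (h w) = w := leftInverse_invFun hi
  have hainv : ∀ w, invFun a (a w) = w := leftInverse_invFun ai
  have hopen : IsOpen (range h) := by
    rw [← image_univ]
    exact isOpen_image_of_LD isOpen_univ fun x _ => hld x
  have haopen : IsOpen (range a) := by
    rw [← image_univ]
    exact isOpen_image_of_LD isOpen_univ fun x _ => ald x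
  have hacont : Continuous a := continuous_iff_continuousAt.2 fun z => (ald z).continuousAt
  obtain ⟨g, hg⟩ : ∃ g : E n → E n, g = fun z => invFun h (G (a z)) := ⟨_, rfl⟩
  obtain ⟨W, hW⟩ : ∃ W : Set (E n), W = {z | G (a z) ∈ range h} := ⟨_, rfl⟩
  have hGh : ∀ z ∈ W, h (g z) = G (a z) := by
    intro z hz
    rw [hW] at hz
    obtain ⟨w, hw⟩ := hz
    rw [hg]
    simp only
    rw [← hw, hginv]
  have hWo : IsOpen W := by
    rw [hW]
    exact hopen.preimage (G.continuous.comp hacont)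
  have h0W : (0 : E n) ∈ W := by
    rw [hW]
    exact ⟨0, by rw [h0, a0]⟩
  have hg0 : g 0 = 0 := by
    rw [hg]
    simp only
    rw [a0, ← h0, hginv]
  have hgc : ContinuousOn g W := by
    intro z hz
    apply ContinuousAt.continuousWithinAt
    have h1 := hGh z hz
    have h2 : ContinuousAt (invFun h) (G (a z)) := by
      rw [← h1]
      exact (inv_LD hi hld _).continuousAt
    rw [hg]
    exact ContinuousAt.comp (g := invFun h) (f := fun z => G (a z)) h2
      (G.continuous.comp hacont).continuousAt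
  have hgs : ∀ x ∈ W, x ≠ 0 → ContDiffAt ℝ ∞ g x ∧ g x ≠ 0 := by
    intro z hz hz0
    have haz : a z ≠ x₀ := by
      intro hcon
      rw [← a0] at hcon
      exact hz0 (ai hcon)
    refine ⟨?_, ?_⟩
    · have h1 : LD n (fun z => G (a z)) z := LD.comp_fun (g := G) (hG _ haz) (ald z)
      have h2 : LD n (invFun h) (G (a z)) := by
        rw [← hGh z hz]
        exact inv_LD hi hld _
      have h3 : LD n g z := by
        rw [hg]
        exact LD.comp_fun (g := invFun h) (f := fun z => G (a z)) h2 h1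
      exact h3.contDiffAt
    · intro hcon
      have h1 := hGh z hz
      rw [hcon, h0] at h1
      exact haz (G.injective h1.symm)
  obtain ⟨θ, hθ, hθm, hθp, hθ1, hθs⟩ := hF n g W 1 hWo h0W one_pos hgc hg0 hgs
  obtain ⟨ψ, hψ⟩ := rad_homeo (n := n) hθ.continuous hθm hθp hθ1
  have hψr : (ψ : E n → E n) = rad θ := funext hψ
  have hR : ∀ z : E n, 1 ≤ ‖z‖ → ψ z = z := fun z hz => by rw [hψ, rad_far hθ1 hz]
  obtain ⟨Ψ, hΨ⟩ := act_homeo hi hld ψ hR
  have hΨs : ∀ y, ContMDiffAt (𝓡 n) (𝓡 n) ∞ Ψ y := by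
    intro y
    have h1 : (Ψ : N → N) = act h ψ := funext hΨ
    rw [h1]
    refine act_smooth hi hld hR ?_ y
    rw [hψr]
    exact rad_smooth hθ
  have hΨl : ∀ y, y ≠ h 0 → LD n Ψ y := by
    intro y hy
    have h1 : (Ψ : N → N) = act h ψ := funext hΨ
    rw [h1]
    by_cases hyr : y ∈ range h
    · obtain ⟨z, rfl⟩ := hyr
      have hz : z ≠ 0 := fun hcon => hy (by rw [hcon])
      have h2 : LD n (fun y => h (rad θ (invFun h y))) (h z) := by
        refine LD.comp_fun (g := h) (f := fun y => rad θ (invFun h y)) (hld _) ?_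
        refine LD.comp_fun (g := rad θ) (f := invFun h) ?_ (inv_LD hi hld z)
        rw [hginv]
        exact rad_ld hθ hθm hθp hz
      refine h2.congr ?_
      have h3 := act_near hi hld (ψ : E n → E n) z
      rw [hψr] at h3 ⊢
      exact h3
    · exact (LD.id (n := n) y).congr (act_far hi hld (R := 1) hR hyr)
  refine ⟨G.trans Ψ, fun x => ?_, fun x hx => ?_⟩
  swap
  · refine LD.comp_fun (g := Ψ) (f := G) (hΨl _ ?_) (hG x hx)
    intro hcon
    rw [h0] at hcon
    exact hx (G.injective hcon)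
  rcases eq_or_ne x x₀ with hx | hx
  · -- at the singular point
    have h1 : (G.trans Ψ : M → N) =ᶠ[𝓝 x] fun y => h (rad θ (g (invFun a y))) := by
      have h2 : range a ∈ 𝓝 x := haopen.mem_nhds ⟨0, by rw [a0, hx]⟩
      have h3 : G ⁻¹' (range h) ∈ 𝓝 x :=
        (hopen.preimage G.continuous).mem_nhds ⟨0, by rw [h0, hx]⟩
      filter_upwards [h2, h3] with y hy1 hy2
      obtain ⟨z, rfl⟩ := hy1
      have hzW : z ∈ W := by
        rw [hW]
        exact hy2
      rw [Homeomorph.trans_apply, hΨ, ← hGh z hzW, act_range hi, hψ, hainv]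
    refine ContMDiffAt.congr_of_eventuallyEq ?_ h1
    have h4 : ContMDiffAt (𝓡 n) (𝓡 n) ∞ (invFun a) x := by
      rw [hx, ← a0]
      exact (inv_LD ai ald 0).contMDiffAt
    have h5 : invFun a x = 0 := by
      rw [hx, ← a0, hainv]
    have h6 : ContMDiffAt (𝓡 n) (𝓡 n) ∞ (fun z => rad θ (g z)) (invFun a x) := by
      rw [h5]
      exact hθs.contMDiffAt
    have h7 : ContMDiffAt (𝓡 n) (𝓡 n) ∞ (fun y => rad θ (g (invFun a y))) x :=
      ContMDiffAt.comp (g := fun z => rad θ (g z)) x h6 h4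
    exact ContMDiffAt.comp (g := h) x (hld _).contMDiffAt h7
  · exact ContMDiffAt.comp (g := Ψ) (f := G) x (hΨs _) (hG x hx).contMDiffAt

end Pool.Agent.L0h29.EN
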