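import Pool.Agent.L0h29.EN.Sph
import Pool.Agent.L0h29.BL.Man

/-!
# Project EN: from homeomorphisms to invertible summands
-/

set_option autoImplicit false
set_option linter.unusedSectionVars false
set_option linter.unusedVariables false

open Set Filter Topology Metric Function MeasureTheory
open scoped Manifold ContDiff

noncomputable section

namespace Pool.Agent.L0h29.EN

open Pool.Agent.Y522 Pool.Agent.N550.KH Pool.Agent.N550.KH.One Pool.Agent.N550.KH.Supp
  Pool.Agent.L0h29.CS Pool.Agent.N550.TS.Flm Pool.Agent.L0h29.RG Pool.Agent.N550.KH.End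
  Pool.Agent.N550.SH

theorem sp_connected : ConnectedSpace (Sp 4) := by
  rw [← isConnected_iff_connectedSpace]
  refine isConnected_sphere ?_ _ zero_le_one
  rw [← Module.finrank_eq_rank, finrank_euclideanSpace, Fintype.card_fin]
  norm_num

variable {M N : Type} [TopologicalSpace M] [ChartedSpace (E 4) M] [TopologicalSpace N]
  [ChartedSpace (E 4) N]

/-- from homeomorphisms to invertible summands -/
theorem exists_inv_summand [CompactSpace M] [T2Space M] [ConnectedSpace M]
    [IsManifold (𝓡 4) ∞ M] [CompactSpace N] [T2Space N] [IsManifold (𝓡 4) ∞ N]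
    (G : M ≃ₜ N) (x₀ : M) (hG : ∀ x, x ≠ x₀ → LD 4 G x) :
    ∃ (P : Type) (_ : TopologicalSpace P) (_ : ChartedSpace (E 4) P), CompactSpace P ∧
      T2Space P ∧ ConnectedSpace P ∧ IsManifold (𝓡 4) ∞ P ∧ ConnSum 4 M N P ∧
      ∃ (P' : Type) (_ : TopologicalSpace P') (_ : ChartedSpace (E 4) P'), CompactSpace P' ∧
        T2Space P' ∧ ConnectedSpace P' ∧ IsManifold (𝓡 4) ∞ P' ∧ ConnSum 4 (Sp 4) P P' := by
  classical
  obtain ⟨p, hpi, hpl, hp0⟩ := exists_cell0 (n := 4) x₀
  have hp : Cell p := ⟨hpi, hpl⟩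
  have hW : G '' (p '' ball 0 1) ∈ 𝓝 (G x₀) :=
    (G.isOpenMap _ (hp.open_image isOpen_ball)).mem_nhds
      ⟨x₀, ⟨0, mem_ball_self one_pos, hp0⟩, rfl⟩
  obtain ⟨c, hci, hcl, hc0, hcW⟩ := Pool.Agent.L0h29.BL.exists_cell hW
  have hc : Cell c := ⟨hci, hcl⟩
  obtain ⟨P, tP, cP, hPc, hPt, hPm, hcs, hconn, u, y₀, hu, hul, hui, huy, hus⟩ :=
    exists_connSum3 4 (by norm_num) M N G G.continuous c hc.1 hc.2 fun y hy => by
      refine ⟨G.symm y, G.apply_symm_apply y, hG _ ?_, fun x' hx' => ?_⟩
      · intro hcon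
        apply hy
        refine ⟨0, mem_closedBall_self (by norm_num), ?_⟩
        rw [hc0, ← hcon, G.apply_symm_apply]
      · rw [← hx', G.symm_apply_apply]
  have hPcon : ConnectedSpace P := hconn hc.ne_univ inferInstance
  have hVp : ∀ x, G x ∈ range c → x ∈ p '' ball 0 1 := by
    intro x hx
    obtain ⟨x', hx', hxx⟩ := hcW hx
    rw [← G.injective hxx]
    exact hx'
  -- the map from the sphere
  obtain ⟨a⟩ : Nonempty (Sp 4) := sp_connected.toNonempty
  let F : Sp 4 → P := fun s => if s = a then y₀ else u (p (ste 4 a s))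
  have hFa : F a = y₀ := if_pos rfl
  have hF : ∀ s, s ≠ a → F s = u (p (ste 4 a s)) := fun s hs => if_neg hs
  have hri : ∀ z : E 4, ste 4 a ((ste 4 a).symm z) = z := fun z =>
    (ste 4 a).right_inv (by rw [ste_target]; trivial)
  have hli : ∀ s, s ≠ a → (ste 4 a).symm (ste 4 a s) = s := fun s hs =>
    (ste 4 a).left_inv (by rw [ste_source]; exact hs)
  obtain ⟨hsc, hsr⟩ := ste_cell a
  have hsa : ∀ z : E 4, (ste 4 a).symm z ≠ a := by
    intro z hz
    have : (ste 4 a).symm z ∈ range fun z : E 4 => (ste 4 a).symm z := ⟨z, rfl⟩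
    rw [hsr] at this
    exact this hz
  have hnear : ∀ s, s ≠ a → F =ᶠ[𝓝 s] fun s => u (p (ste 4 a s)) := by
    intro s hs
    filter_upwards [isOpen_compl_singleton.mem_nhds hs] with s' hs'
    exact hF s' hs'
  have hFV : ∀ s, F s ≠ y₀ → s ≠ a ∧ G (p (ste 4 a s)) ∈ range c := by
    intro s hs
    have hsa' : s ≠ a := fun hcon => hs (by rw [hcon, hFa])
    refine ⟨hsa', ?_⟩
    rw [hF s hsa', Ne, huy, not_not] at hs
    exact hs
  have hFld : ∀ s, F s ≠ y₀ → LD 4 F s := by
    intro s hs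
    obtain ⟨hsa', hV⟩ := hFV s hs
    refine LD.congr ?_ (hnear s hsa')
    exact LD.comp_fun (g := u) (f := fun s => p (ste 4 a s)) (hul _ hV)
      (LD.comp_fun (g := p) (f := ste 4 a) (hp.2 _) (ste_ld 4 a s hsa'))
  have hFc : Continuous F := by
    rw [continuous_iff_continuousAt]
    intro s
    by_cases hs : s = a
    · have h1 : IsCompact ((fun z : E 4 => (ste 4 a).symm z) '' closedBall 0 1) :=
        (isCompact_closedBall _ _).image hsc.cont
      have h2 : ∀ᶠ s' in 𝓝 s, F s' = y₀ := by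
        filter_upwards [h1.isClosed.isOpen_compl.mem_nhds (by
          rintro ⟨z, -, hz⟩
          exact hsa z (hz.trans hs))] with s' hs'
        by_cases hs'a : s' = a
        · rw [hs'a, hFa]
        · rw [hF s' hs'a, huy]
          intro hcon
          apply hs'
          obtain ⟨z, hz, hzp⟩ := hVp _ hcon
          refine ⟨z, ball_subset_closedBall hz, ?_⟩
          show (ste 4 a).symm z = s'
          rw [hp.1 hzp, hli s' hs'a]
      have h3 : F s = y₀ := by rw [hs, hFa]
      rw [ContinuousAt, h3]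
      exact tendsto_const_nhds.congr' (h2.mono fun _ h => h.symm)
    · refine ContinuousAt.congr ?_ (hnear s hs).symm
      refine ContinuousAt.comp (g := u) hu.continuousAt ?_
      exact ContinuousAt.comp (g := p) hp.cont.continuousAt (ste_ld 4 a s hs).continuousAt
  obtain ⟨d, hdi, hdl, hd0⟩ := exists_cell0 (n := 4) y₀
  have hd : Cell d := ⟨hdi, hdl⟩
  obtain ⟨P', tP', cP', hPc', hPt', hPm', hcs', -, hconn'⟩ :=
    exists_connSum 4 (by norm_num) (Sp 4) P F hFc d hd.1 hd.2 fun y hy => by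
      have hyy : y ≠ y₀ := by
        rintro rfl
        exact hy ⟨0, mem_closedBall_self (by norm_num), hd0⟩
      obtain ⟨x, hx⟩ := hus y hyy
      have hxV : G x ∈ range c := by
        by_contra hcon
        rw [← huy] at hcon
        exact hyy (by rw [← hx, hcon])
      obtain ⟨z, hz, hzx⟩ := hVp x hxV
      have h4 : F ((ste 4 a).symm z) = y := by
        rw [hF _ (hsa z), hri, hzx, hx]
      refine ⟨(ste 4 a).symm z, h4, hFld _ (by rw [h4]; exact hyy), fun s' hs' => ?_⟩
      obtain ⟨h5, h6⟩ := hFV s' (by rw [hs']; exact hyy)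
      rw [hF s' h5, ← hx] at hs'
      have h7 := hui (show p (ste 4 a s') ∈ G ⁻¹' range c from h6)
        (show x ∈ G ⁻¹' range c from hxV) hs'
      rw [← hli s' h5]
      congr 1
      rw [← hzx] at h7
      exact hp.1 h7
  exact ⟨P, tP, cP, hPc, hPt, hPcon, hPm, hcs, P', tP', cP', hPc', hPt',
    hconn' hd.ne_univ sp_connected, hPm', hcs'⟩

end Pool.Agent.L0h29.EN
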