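import Pool.Agent.L0h29.EN.Thin

/-!
# Project EN: generic boxes
-/

set_option autoImplicit false
set_option linter.unusedSectionVars false
set_option linter.unusedVariables false

open Set Filter Topology Metric Function MeasureTheory
open scoped Manifold ContDiff ENNReal NNReal

noncomputable section

namespace Pool.Agent.L0h29.EN

open Pool.Agent.Y522

theorem preimage_null {F : Type*} [NormedAddCommGroup F] [NormedSpace ℝ F] [MeasurableSpace F]
    [BorelSpace F] (ν : Measure F) [ν.IsAddHaarMeasure] (L : E 4 →ₗ[ℝ] F) (hL : Surjective L)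
    {B : Set F} (hB : ν B = 0) : volume (L ⁻¹' B) = 0 := by
  have h1 : MeasurableSet (toMeasurable ν B)ᶜ := (measurableSet_toMeasurable ν B).compl
  have h2 : ∀ᵐ y ∂ν, y ∈ (toMeasurable ν B)ᶜ := by
    rw [ae_iff]
    have : {a | a ∉ (toMeasurable ν B)ᶜ} = toMeasurable ν B := by ext; simp
    rw [this, measure_toMeasurable, hB]
  have h3 := (ae_comp_linearMap_mem_iff L (volume : Measure (E 4)) ν hL h1).2 h2
  rw [ae_iff] at h3
  refine measure_mono_null ?_ h3
  intro x hx hcon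
  exact hcon (subset_toMeasurable ν B hx)

/-- the closed box -/
def qc (τ : E 4) : Set (E 4) := {z | ∀ i, |z i - τ i| ≤ 3}

/-- the open box -/
def qo (τ : E 4) : Set (E 4) := {z | ∀ i, |z i - τ i| < 3}

theorem coord_lip (i : Fin 4) (r : ℝ) : LipschitzWith 1 (fun z : E 4 => z i - r) := by
  refine LipschitzWith.of_dist_le_mul fun x y => ?_
  rw [NNReal.coe_one, one_mul, Real.dist_eq, dist_eq_norm]
  have : x i - r - (y i - r) = (x - y) i := by simp
  rw [this]
  exact PiLp.norm_apply_le (x - y) i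

theorem generic_box {A : Set (E 4)} (hA : Measure.hausdorffMeasure 2 A = 0) :
    ∃ τ : E 4, ‖τ‖ < 1 ∧
      Measure.hausdorffMeasure 1 (A ∩ (qc τ \ qo τ)) = 0 ∧
      ∀ i j : Fin 4, i ≠ j → ∀ z ∈ A, |z i - τ i| = 3 → ∀ s : ℚ, z j - τ j ≠ s := by
  -- the first family of exceptional sets
  have h1 : ∀ (i : Fin 4) (r : ℝ),
      volume {τ : E 4 | Measure.hausdorffMeasure 1 (A ∩ {z | z i - r = τ i}) ≠ 0} = 0 := by
    intro i r
    have h2 := slice_null (d := 1) one_pos (A := A) (by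
      have : (1 + 1 : ℝ) = 2 := by norm_num
      rw [this]; exact hA) (coord_lip i r)
    rw [ae_iff] at h2
    have h3 := preimage_null (volume : Measure ℝ) (EuclideanSpace.proj i : E 4 →L[ℝ] ℝ).toLinearMap
      (fun a => ⟨EuclideanSpace.single i a, by simp⟩) h2
    exact h3
  have h2 : ∀ (i j : Fin 4) (r s : ℝ), i ≠ j →
      volume {τ : E 4 | ∃ z ∈ A, z i - r = τ i ∧ z j - s = τ j} = 0 := by
    intro i j r s hij
    have h3 : LipschitzWith 1 (fun z : E 4 => ((z i - r, z j - s) : ℝ × ℝ)) := by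
      have := (coord_lip i r).prodMk (coord_lip j s)
      rwa [max_self] at this
    have h4 := (h3.lipschitzOnWith (s := A)).hausdorffMeasure_image_le (zero_le_two)
    rw [hA, mul_zero] at h4
    have h5 : (volume : Measure (ℝ × ℝ)) ((fun z : E 4 => ((z i - r, z j - s) : ℝ × ℝ)) '' A) = 0 := by
      rw [← hausdorffMeasure_prod_real]
      exact le_antisymm h4 bot_le
    have h6 := preimage_null (volume : Measure (ℝ × ℝ))
      ((EuclideanSpace.proj i : E 4 →L[ℝ] ℝ).toLinearMap.prod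
        (EuclideanSpace.proj j : E 4 →L[ℝ] ℝ).toLinearMap)
      (fun a => ⟨EuclideanSpace.single i a.1 + EuclideanSpace.single j a.2, by
        refine Prod.ext ?_ ?_
        · simp [hij]
        · simp [hij.symm]⟩) h5
    refine measure_mono_null ?_ h6
    rintro τ ⟨z, hz, h7, h8⟩
    exact ⟨z, hz, Prod.ext h7 h8⟩
  -- the union of the exceptional sets
  have h3 : volume ((⋃ i : Fin 4, ({τ : E 4 | Measure.hausdorffMeasure 1 (A ∩ {z | z i - 3 = τ i}) ≠ 0}
      ∪ {τ : E 4 | Measure.hausdorffMeasure 1 (A ∩ {z | z i - (-3) = τ i}) ≠ 0})) ∪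
      (⋃ (i : Fin 4) (j : Fin 4) (_ : i ≠ j) (s : ℚ),
        ({τ : E 4 | ∃ z ∈ A, z i - 3 = τ i ∧ z j - s = τ j} ∪
          {τ : E 4 | ∃ z ∈ A, z i - (-3) = τ i ∧ z j - s = τ j}))) = 0 := by
    refine measure_union_null (measure_iUnion_null fun i => measure_union_null (h1 i 3) (h1 i (-3)))
      (measure_iUnion_null fun i => measure_iUnion_null fun j => measure_iUnion_null fun hij =>
        measure_iUnion_null fun s => measure_union_null (h2 i j 3 s hij) (h2 i j (-3) s hij))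
  obtain ⟨τ, hτ, hτn⟩ : ∃ τ ∈ ball (0 : E 4) 1, τ ∉ ((⋃ i : Fin 4, ({τ : E 4 | Measure.hausdorffMeasure 1 (A ∩ {z | z i - 3 = τ i}) ≠ 0}
      ∪ {τ : E 4 | Measure.hausdorffMeasure 1 (A ∩ {z | z i - (-3) = τ i}) ≠ 0})) ∪
      (⋃ (i : Fin 4) (j : Fin 4) (_ : i ≠ j) (s : ℚ),
        ({τ : E 4 | ∃ z ∈ A, z i - 3 = τ i ∧ z j - s = τ j} ∪
          {τ : E 4 | ∃ z ∈ A, z i - (-3) = τ i ∧ z j - s = τ j}))) := by
    by_contra hcon
    push Not at hcon
    exact (isOpen_ball.measure_pos volume ⟨0, mem_ball_self one_pos⟩).ne'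
      (measure_mono_null hcon h3)
  rw [mem_union, not_or] at hτn
  obtain ⟨g1, g2⟩ := hτn
  refine ⟨τ, mem_ball_zero_iff.1 hτ, ?_, ?_⟩
  · have e1 : ∀ i : Fin 4, Measure.hausdorffMeasure 1 (A ∩ {z | z i - 3 = τ i}) = 0 ∧
        Measure.hausdorffMeasure 1 (A ∩ {z | z i - (-3) = τ i}) = 0 := by
      intro i
      constructor
      · by_contra hcon
        exact g1 (mem_iUnion.2 ⟨i, Or.inl hcon⟩)
      · by_contra hcon
        exact g1 (mem_iUnion.2 ⟨i, Or.inr hcon⟩)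
    refine measure_mono_null (t := ⋃ i : Fin 4, (A ∩ {z | z i - 3 = τ i}) ∪
      (A ∩ {z | z i - (-3) = τ i})) ?_ (measure_iUnion_null fun i =>
        measure_union_null (e1 i).1 (e1 i).2)
    rintro z ⟨hzA, hz1, hz2⟩
    simp only [qo, mem_ofPred_eq, not_forall, not_lt] at hz2
    obtain ⟨i, hi⟩ := hz2
    have h4 : |z i - τ i| = 3 := le_antisymm (hz1 i) hi
    rcases eq_or_eq_neg_of_abs_eq h4 with h5 | h5
    · refine mem_iUnion.2 ⟨i, Or.inl ⟨hzA, ?_⟩⟩
      simp only [mem_ofPred_eq]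
      linarith
    · refine mem_iUnion.2 ⟨i, Or.inr ⟨hzA, ?_⟩⟩
      simp only [mem_ofPred_eq]
      linarith
  · intro i j hij z hz h4 s hs
    rcases eq_or_eq_neg_of_abs_eq h4 with h5 | h5
    · refine g2 (mem_iUnion.2 ⟨i, mem_iUnion.2 ⟨j, mem_iUnion.2 ⟨hij, mem_iUnion.2 ⟨s, Or.inl
        ⟨z, hz, ?_, ?_⟩⟩⟩⟩⟩)
      · linarith
      · linarith
    · refine g2 (mem_iUnion.2 ⟨i, mem_iUnion.2 ⟨j, mem_iUnion.2 ⟨hij, mem_iUnion.2 ⟨s, Or.inr
        ⟨z, hz, ?_, ?_⟩⟩⟩⟩⟩)
      · linarith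
      · linarith

end Pool.Agent.L0h29.EN
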