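import Pool.Agent.L0h29.EN.Pe

/-!
# Project EN: summands with engulfed complements of points
-/

set_option autoImplicit false
set_option linter.unusedSectionVars false
set_option linter.unusedVariables false

open Set Filter Topology Metric Function MeasureTheory
open scoped Manifold ContDiff

noncomputable section

namespace Pool.Agent.L0h29.EN

open Pool.Agent.Y522 Pool.Agent.N550.KH Pool.Agent.N550.KH.One Pool.Agent.N550.KH.Supp
  Pool.Agent.L0h29.CS Pool.Agent.N550.TS.Flm Pool.Agent.L0h29.RG Pool.Agent.N550.KH.End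

variable {M N P : Type} [TopologicalSpace M] [ChartedSpace (E 4) M] [TopologicalSpace N]
  [ChartedSpace (E 4) N] [TopologicalSpace P] [ChartedSpace (E 4) P]

theorem DfOff.symm [Nonempty M] {φ : M → N} {Z' : Set M} {Z : Set N} (h : DfOff φ Z' Z) :
    ∃ i : N → M, DfOff i Z Z' ∧ (∀ x, x ∉ Z' → i (φ x) = x) ∧
      ∀ y, y ∉ Z → i y ∉ Z' ∧ φ (i y) = y := by
  obtain ⟨i, h1, h2, h3⟩ := h.exists_inv
  refine ⟨i, ⟨h.cl, h.cl', fun y hy y' hy' hyy => ?_, h3, ?_⟩, h1, h2⟩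
  · rw [← (h2 y hy).2, ← (h2 y' hy').2, hyy]
  · ext x
    constructor
    · rintro ⟨y, hy, rfl⟩
      exact (h2 y hy).1
    · intro hx
      exact ⟨φ x, h.notMem hx, h1 x hx⟩

theorem dfOff_emb {i : N → M} {Z : Set N} (hZ : IsClosed Z) (hi : InjOn i Zᶜ)
    (hl : ∀ y, y ∉ Z → LD 4 i y) : DfOff i Z (i '' Zᶜ)ᶜ :=
  ⟨hZ, (isOpen_image_of_LD (n := 4) hZ.isOpen_compl fun y hy => hl y hy).isClosed_compl, hi, hl,
    (compl_compl _).symm⟩

theorem inv_norm' {z : E 4} : ‖(‖z‖ ^ 2)⁻¹ • z‖ = ‖z‖⁻¹ := Close.norm_inv0 z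

theorem inv_inv' (z : E 4) : (‖(‖z‖ ^ 2)⁻¹ • z‖ ^ 2)⁻¹ • ((‖z‖ ^ 2)⁻¹ • z) = z :=
  Close.inv0_inv0 z

theorem inv_lt' {z : E 4} {a b : ℝ} (ha : 0 < a) (h1 : a < ‖z‖) (h2 : ‖z‖ < b) :
    b⁻¹ < ‖(‖z‖ ^ 2)⁻¹ • z‖ ∧ ‖(‖z‖ ^ 2)⁻¹ • z‖ < a⁻¹ := by
  rw [inv_norm']
  exact ⟨inv_strictAnti₀ (by linarith) h2, inv_strictAnti₀ ha h1⟩

/-- sums with a summand with engulfed complements of points -/
theorem homeo_of_PE [CompactSpace M] [T2Space M] [Nonempty M] [IsManifold (𝓡 4) ∞ M]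
    [CompactSpace N] [T2Space N] [Nonempty N] [IsManifold (𝓡 4) ∞ N] [CompactSpace P] [T2Space P]
    [IsManifold (𝓡 4) ∞ P] (h : ConnSum 4 M N P) (hP : PE P) :
    ∃ G : M ≃ₜ N, ∃ x₀ : M, ∀ x, x ≠ x₀ → LD 4 G x := by
  obtain ⟨p, q, i, j, hp, hq, hi1, hi2, hj1, hj2, hcov, hglue⟩ := h
  set Z : Set N := p '' closedBall 0 (1 / 2) with hZ
  have hZc : IsClosed Z := (disc_cpt hp (by norm_num)).isClosed
  have h1 : DfOff i Z (i '' Zᶜ)ᶜ := dfOff_emb hZc hi1 fun y hy => hi2 y hy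
  obtain ⟨φ, h2, h3, h4⟩ := h1.symm
  obtain ⟨hc, hcr⟩ := disc_cell' hp
  obtain ⟨g, hg, hgL, hgd⟩ := hP.disc hq
  have hgn : ∀ z, g z ∉ q '' closedBall 0 (1 / 2) := fun z hz => disjoint_left.1 hgd ⟨z, rfl⟩ hz
  have hjg : Cell fun z => j (g z) :=
    ⟨fun a b hab => hg.1 (hj1 (hgn a) (hgn b) hab), fun z =>
      LD.comp_fun (g := j) (f := g) (hj2 _ (hgn z)) (hg.2 z)⟩
  refine h2.homeo' hc ?_ hjg ?_ ?_
  · rw [hcr]
    exact image_mono (closedBall_subset_ball (by norm_num))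
  · intro x hx
    have hx1 : x ∈ i '' Zᶜ ∪ j '' (q '' closedBall 0 (1 / 2))ᶜ := by rw [hcov]; trivial
    obtain ⟨s, hs, rfl⟩ := hx1.resolve_left hx
    have hs2 : s ∉ q '' ball 0 2 := by
      rintro ⟨w, hw, rfl⟩
      have hw1 : 1 / 2 < ‖w‖ := by
        by_contra hcon
        exact hs ⟨w, mem_closedBall_zero_iff.2 (not_lt.1 hcon), rfl⟩
      have hw2 := mem_ball_zero_iff.1 hw
      obtain ⟨e1, e2⟩ := inv_lt' (by norm_num) hw1 hw2
      have e3 : p ((‖w‖ ^ 2)⁻¹ • w) ∉ Z := by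
        rintro ⟨w', hw', hww⟩
        have e4 := hp.1 (closedBall_subset_ball (by norm_num) hw')
          (mem_ball_zero_iff.2 (by norm_num at e2; exact e2)) hww
        rw [e4, mem_closedBall_zero_iff] at hw'
        norm_num at e1 hw'
        linarith
      have e5 := (hglue _ e3 _ hs).2 ⟨(‖w‖ ^ 2)⁻¹ • w, by norm_num at e1 ⊢; exact e1,
        by norm_num at e2 ⊢; exact e2, rfl, by rw [inv_inv']⟩
      exact hx ⟨_, e3, e5⟩
    obtain ⟨z, hz⟩ := hgL hs2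
    exact ⟨z, congrArg j hz⟩
  · rintro _ ⟨z, rfl⟩
    by_cases hx : j (g z) ∈ (i '' Zᶜ)ᶜ
    · exact Or.inl hx
    · right
      rw [mem_compl_iff, not_not] at hx
      obtain ⟨y, hy, hyz⟩ := hx
      obtain ⟨w, hw1, hw2, rfl, -⟩ := (hglue y hy _ (hgn z)).1 hyz
      simp only at hyz ⊢
      rw [← hyz, h3 _ hy, hcr]
      exact ⟨w, mem_ball_zero_iff.2 hw2, rfl⟩

end Pool.Agent.L0h29.EN
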