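import Pool.Agent.L0h29.EN.Row

/-!
# Project EN: the arc lemma, for a given homotopy
-/

set_option autoImplicit false
set_option linter.unusedSectionVars false
set_option linter.unusedVariables false

open Set Filter Topology Metric Function MeasureTheory
open scoped Manifold ContDiff

noncomputable section

namespace Pool.Agent.L0h29.EN

open Pool.Agent.Y522 Pool.Agent.N550.KH Pool.Agent.N550.KH.One Pool.Agent.L0h29.CS

variable {X : Type} [TopologicalSpace X] [ChartedSpace (E 4) X]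

theorem Cvx.isOpen {U : Set X} (h : Cvx U) : IsOpen U := by
  obtain ⟨ψ, C, hψ, hC, -, rfl⟩ := h
  exact hψ.open_image hC

theorem ln_ln2 (z P : E 4) (s t u : ℝ) :
    ln (ln z P s) (ln z P t) u = ln z P (s + u * (t - s)) := by
  simp only [ln, add_sub_add_left_eq_sub, add_smul, mul_smul, sub_smul, smul_sub]
  abel

theorem ln_inj {z P : E 4} (h : z ≠ P) {s t : ℝ} (hst : ln z P s = ln z P t) : s = t := by
  simp only [ln, add_right_inj] at hst
  have h1 : (s - t) • (P - z) = 0 := by rw [sub_smul, hst, sub_self]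
  rcases smul_eq_zero.1 h1 with h2 | h2
  · linarith
  · exact absurd (sub_eq_zero.1 h2).symm h

theorem sub_sg (ψ : E 4 → X) (z P : E 4) {s t : ℝ} (hst : s < t) :
    sg ψ (ln z P s) (ln z P t) = (fun u => ψ (ln z P u)) '' Icc s t := by
  ext x
  rw [mem_sg]
  constructor
  · rintro ⟨u, hu, rfl⟩
    refine ⟨s + u * (t - s), ⟨?_, ?_⟩, by simp only [ln_ln2]⟩
    · nlinarith [hu.1]
    · nlinarith [hu.2]
  · rintro ⟨u, hu, rfl⟩
    have h1 : 0 < t - s := by linarith
    refine ⟨(u - s) / (t - s), ⟨div_nonneg (by linarith [hu.1]) h1.le, ?_⟩, ?_⟩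
    · rw [div_le_one h1]; linarith [hu.2]
    · simp only [ln_ln2]
      rw [div_mul_cancel₀ _ h1.ne']
      congr 2
      ring

theorem sc' [T2Space X] {U V : Set X} (hU : Cvx U) (hV : IsOpen V) {γ : ℝ → X}
    (hγ : Continuous γ) (hγV : ∀ t ∈ Icc (0 : ℝ) 1, γ t ∈ V) (hγU : ∀ t ∈ Icc (0 : ℝ) 1, γ t ∈ U) :
    ∃ Wx Wz : Set X, Wx ∈ 𝓝 (γ 0) ∧ Wz ∈ 𝓝 (γ 1) ∧ SC Wx Wz V U := by
  obtain ⟨ψ, C, hψ, hC, hCc, rfl⟩ := hU
  obtain ⟨Wx, hx, Wz, hz, h⟩ := sc hψ hC hCc hV hγ hγV hγU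
  exact ⟨Wx, Wz, hx, hz, h⟩

theorem fr_sub {b : X} {V : Set X} (W : ℕ → Set X) (k : ℕ) : ∀ m x T,
    fr b (fun _ => V) W m k x T → T ⊆ V ∪ {b} := by
  induction k with
  | zero =>
    rintro m x T ⟨y, β, T', ⟨rfl, rfl⟩, -, hβV, -, -, -, -, rfl⟩
    exact union_subset_union_left _ hβV
  | succ k ih =>
    rintro m x T ⟨y, β, T', ⟨-, -, hT'⟩, -, hβV, -, -, -, -, rfl⟩
    exact union_subset (hβV.trans subset_union_left) (ih _ _ _ hT')

/-- the arc lemma, for a given homotopy -/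
theorem arcH [T2Space X] (H : ℝ × ℝ → X) (hH : Continuous H)
    (hcov : ∃ δ : ℝ, 0 < δ ∧ ∀ p, ∃ U, Cvx U ∧ ∀ q, dist q p < δ → H q ∈ U) {a b : X}
    (ha : ∀ r, H (r, 0) = a) (hb : ∀ r, H (r, 1) = b) {c : E 4 → X} (hc : Cell c)
    (h0 : ∀ t, H (0, t) ∈ range c) {S : Set X} (hS : IsCompact S) (hSn : NullH2 4 S)
    (hSc : S ⊆ range c) {ψ : E 4 → X} (hψ : Cell ψ) {z P : E 4} (hne : z ≠ P)
    (h1 : ∀ t ∈ Icc (0 : ℝ) 1, H (1, t) = ψ (ln z P t)) (hST : S ∩ sg ψ z P ⊆ {a, b}) :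
    Eg (S ∪ sg ψ z P) := by
  obtain ⟨δ, hδ, hcov⟩ := hcov
  obtain ⟨N, hN⟩ := exists_nat_gt (1 / δ)
  set n : ℝ := ((N + 1 : ℕ) : ℝ) with hn
  have hn0 : 0 < n := by rw [hn]; positivity
  have hn1 : 1 / n < δ := by
    have h3 : (N : ℝ) < n := by rw [hn]; push_cast; linarith
    rw [div_lt_iff₀ hδ] at hN
    rw [div_lt_iff₀ hn0]
    nlinarith
  choose Uc hUc hUcH using hcov
  let U : ℕ → ℕ → Set X := fun r i => match r with
    | 0 => range c
    | r + 1 => Uc ((r : ℝ) / n, (i : ℝ) / n)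
  let v : ℕ → ℕ → X := fun r i => H ((r : ℝ) / n, (i : ℝ) / n)
  have hU : ∀ r i, Cvx (U (r + 1) i) := fun r i => hUc _
  have hUo : ∀ r i, IsOpen (U r i) := by
    intro r i
    cases r with
    | zero => exact hc.isOpen
    | succ r => exact (hU r i).isOpen
  have hsq : ∀ (r i : ℕ) (s t : ℝ), s ∈ Icc (0 : ℝ) 1 → t ∈ Icc (0 : ℝ) 1 →
      H (((r : ℝ) + s) / n, ((i : ℝ) + t) / n) ∈ U (r + 1) i := by
    intro r i s t hs ht
    refine hUcH _ _ ?_
    have key : ∀ (j u : ℝ), u ∈ Icc (0 : ℝ) 1 → dist ((j + u) / n) (j / n) < δ := by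
      intro j u hu
      rw [Real.dist_eq]
      have h3 : (j + u) / n - j / n = u / n := by ring
      rw [h3, abs_of_nonneg (div_nonneg hu.1 hn0.le)]
      refine lt_of_le_of_lt ?_ hn1
      exact div_le_div_of_nonneg_right hu.2 hn0.le
    rw [Prod.dist_eq]
    exact max_lt (key _ _ hs) (key _ _ ht)
  have hsq' : ∀ (r i : ℕ) (t : ℝ), t ∈ Icc (0 : ℝ) 1 →
      H ((r : ℝ) / n, ((i : ℝ) + t) / n) ∈ U r i := by
    intro r i t ht
    cases r with
    | zero =>
      have : ((0 : ℕ) : ℝ) / n = 0 := by simp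
      rw [this]
      exact h0 _
    | succ r =>
      have := hsq r i 1 t ⟨zero_le_one, le_rfl⟩ ht
      push_cast
      exact this
  have hA : ∀ r i, ∃ Wx Wz : Set X, Wx ∈ 𝓝 (v r i) ∧ Wz ∈ 𝓝 (v r (i + 1)) ∧
      SC Wx Wz (U r i) (U (r + 1) i) := by
    intro r i
    have h3 := sc' (hU r i) (hUo r i) (γ := fun t => H ((r : ℝ) / n, ((i : ℝ) + t) / n))
      (by fun_prop) (fun t ht => hsq' r i t ht) (fun t ht => by
        have := hsq r i 0 t ⟨le_rfl, zero_le_one⟩ ht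
        rw [add_zero] at this
        exact this)
    simpa only [add_zero, v, Nat.cast_add, Nat.cast_one] using h3
  have hB : ∀ r i, ∃ Wx Wz : Set X, Wx ∈ 𝓝 (v (r + 1) (i + 1)) ∧ Wz ∈ 𝓝 (v r (i + 1)) ∧
      SC Wx Wz (U (r + 1) i ∩ U (r + 1) (i + 1)) (U (r + 1) (i + 1)) := by
    intro r i
    have h4 : ∀ t ∈ Icc (0 : ℝ) 1, H (((r : ℝ) + (1 - t)) / n, ((i : ℝ) + 1) / n) ∈
        U (r + 1) (i + 1) := by
      intro t ht
      have := hsq r (i + 1) (1 - t) 0 ⟨by linarith [ht.2], by linarith [ht.1]⟩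
        ⟨le_rfl, zero_le_one⟩
      rw [add_zero] at this
      push_cast at this
      exact this
    have h3 := sc' (hU r (i + 1)) ((hUo (r + 1) i).inter (hUo (r + 1) (i + 1)))
      (γ := fun t => H (((r : ℝ) + (1 - t)) / n, ((i : ℝ) + 1) / n))
      (by fun_prop) (fun t ht => ⟨hsq r i (1 - t) 1 ⟨by linarith [ht.2], by linarith [ht.1]⟩
        ⟨zero_le_one, le_rfl⟩, h4 t ht⟩) h4
    simpa only [sub_zero, sub_self, add_zero, v, Nat.cast_add, Nat.cast_one] using h3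
  choose Ax Az hAx hAz hASC using hA
  choose Bx Bz hBx hBz hBSC using hB
  let W : ℕ → ℕ → Set X := fun r i => {y | y ∈ Ax r i ∧ (∀ j, i = j + 1 → y ∈ Az r j ∧ y ∈ Bz r j) ∧
    ∀ s j, r = s + 1 → i = j + 1 → y ∈ Bx s j}
  have hW : ∀ r i, W r i ∈ 𝓝 (v r i) := by
    intro r i
    have e1 : ∀ᶠ y in 𝓝 (v r i), y ∈ Ax r i := hAx r i
    have e2 : ∀ᶠ y in 𝓝 (v r i), ∀ j, i = j + 1 → y ∈ Az r j ∧ y ∈ Bz r j := by
      cases i with
      | zero => exact Eventually.of_forall fun y j hj => by omega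
      | succ i =>
        have e3 : ∀ᶠ y in 𝓝 (v r (i + 1)), y ∈ Az r i := hAz r i
        have e4 : ∀ᶠ y in 𝓝 (v r (i + 1)), y ∈ Bz r i := hBz r i
        filter_upwards [e3, e4] with y h3 h4 j hj
        have : i = j := by omega
        subst this
        exact ⟨h3, h4⟩
    have e5 : ∀ᶠ y in 𝓝 (v r i), ∀ s j, r = s + 1 → i = j + 1 → y ∈ Bx s j := by
      cases i with
      | zero => exact Eventually.of_forall fun y s j hs hj => by omega
      | succ i =>
        cases r with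
        | zero => exact Eventually.of_forall fun y s j hs hj => by omega
        | succ r =>
          have e3 : ∀ᶠ y in 𝓝 (v (r + 1) (i + 1)), y ∈ Bx r i := hBx r i
          filter_upwards [e3] with y h3 s j hs hj
          have h4 : i = j := by omega
          have h5 : r = s := by omega
          subst h4
          subst h5
          exact h3
    filter_upwards [e1, e2, e5] with y h3 h4 h5
    exact ⟨h3, h4, h5⟩
  have hv0 : ∀ r, v r 0 = a := by
    intro r
    show H ((r : ℝ) / n, ((0 : ℕ) : ℝ) / n) = a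
    rw [Nat.cast_zero, zero_div]
    exact ha _
  have hvN : ∀ r, v r (N + 1) = b := by
    intro r
    show H ((r : ℝ) / n, ((N + 1 : ℕ) : ℝ) / n) = b
    rw [← hn, div_self hn0.ne']
    exact hb _
  have hgrid := grid (a := a) (b := b) (N := N) U W v
    (fun r => by rw [← hv0 r]; exact mem_of_mem_nhds (hW r 0))
    (fun r => by rw [← hvN r]; exact mem_of_mem_nhds (hW r (N + 1))) hU
    (fun r i => by
      have := hsq r i 0 0 ⟨le_rfl, zero_le_one⟩ ⟨le_rfl, zero_le_one⟩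
      rw [add_zero, add_zero] at this
      exact this) hW
    (fun r i => (hASC r i).mono (fun y hy => hy.1) (fun y hy => (hy.2.1 i rfl).1))
    (fun r i => (hBSC r i).mono (fun y hy => hy.2.2 r i rfl rfl) (fun y hy => (hy.2.1 i rfl).2))
    (N + 1)
  have hbc : b ∈ range c := by rw [← hb 0]; exact h0 1
  have hG0 : Good b (fr b (U 0) (W 0) 0 N) S a := by
    intro T hT _
    refine ⟨c, hc, union_subset hSc ((fr_sub _ _ _ _ _ hT).trans ?_)⟩
    rintro y (hy | hy)
    · exact hy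
    · rw [hy]; exact hbc
  have hG1 := hgrid S hS hSn a rfl hG0
  -- the segment as a configuration
  set p : ℝ → X := fun t => ψ (ln z P t) with hp
  have hpinj : ∀ s t, p s = p t → s = t := fun s t hst => ln_inj hne (hψ.1 hst)
  have hpv : ∀ i : ℕ, i ≤ N + 1 → v (N + 1) i = p ((i : ℝ) / n) := by
    intro i hi
    show H (((N + 1 : ℕ) : ℝ) / n, (i : ℝ) / n) = _
    rw [← hn, div_self hn0.ne']
    refine h1 _ ⟨by positivity, ?_⟩
    rw [div_le_one hn0, hn]
    exact_mod_cast hi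
  have hβU : ∀ i : ℕ, i ≤ N → p '' Icc ((i : ℝ) / n) (((i + 1 : ℕ) : ℝ) / n) ⊆ U (N + 1) i := by
    rintro i hi _ ⟨t, ht, rfl⟩
    have h3 := hsq N i 1 (t * n - i) ⟨zero_le_one, le_rfl⟩ ⟨?_, ?_⟩
    · have h4 : ((N : ℝ) + 1) / n = 1 := by
        rw [hn]; push_cast; exact div_self (by positivity)
      have h5 : ((i : ℝ) + (t * n - i)) / n = t := by
        rw [add_sub_cancel, mul_div_assoc, div_self hn0.ne', mul_one]
      rw [h4, h5, h1 t ⟨?_, ?_⟩] at h3
      · exact h3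
      · exact le_trans (by positivity) ht.1
      · refine ht.2.trans ?_
        rw [div_le_one hn0, hn]
        exact_mod_cast (by omega : i + 1 ≤ N + 1)
    · have := ht.1
      rw [div_le_iff₀ hn0] at this
      linarith
    · have := ht.2
      rw [le_div_iff₀ hn0] at this
      push_cast at this
      linarith
  have hlt : ∀ i : ℕ, (i : ℝ) / n < ((i + 1 : ℕ) : ℝ) / n := by
    intro i
    rw [div_lt_div_iff_of_pos_right hn0]
    push_cast
    linarith
  have hthin : ∀ i : ℕ, Thin (p '' Icc ((i : ℝ) / n) (((i + 1 : ℕ) : ℝ) / n)) := by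
    intro i
    rw [hp, ← sub_sg ψ z P (hlt i)]
    exact thin_sg hψ _ _
  have hlast : ((N + 1 : ℕ) : ℝ) / n = 1 := by rw [← hn]; exact div_self hn0.ne'
  have hbp : b = p 1 := by rw [← hb 1, h1 1 ⟨zero_le_one, le_rfl⟩]
  have hcfg : ∀ k m : ℕ, m + k = N →
      fr b (U (N + 1)) (W (N + 1)) m k (p ((m : ℝ) / n)) (p '' Icc ((m : ℝ) / n) 1) := by
    intro k
    induction k with
    | zero =>
      intro m hm
      have hmN : m = N := by omega
      subst hmN
      refine ⟨b, p '' Icc ((m : ℝ) / n) (((m + 1 : ℕ) : ℝ) / n), {b}, ⟨rfl, rfl⟩, hthin m,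
        hβU m le_rfl, ⟨_, ⟨le_rfl, (hlt m).le⟩, rfl⟩, ?_, ?_, inter_subset_right, ?_⟩
      · rw [hbp]
        exact ⟨1, ⟨by rw [← hlast]; exact (hlt m).le, hlast.ge⟩, rfl⟩
      · rw [hbp]
        intro h3
        have h4 := hpinj _ _ h3
        have h5 := hlt m
        rw [hlast] at h5
        linarith
      · rw [hlast]
        symm
        rw [union_eq_left, singleton_subset_iff, hbp]
        refine ⟨1, ⟨?_, le_rfl⟩, rfl⟩
        have h5 := hlt m
        rw [hlast] at h5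
        exact h5.le
    | succ k ih =>
      intro m hm
      have hm1 : ((m + 1 : ℕ) : ℝ) / n < 1 := by
        rw [div_lt_one hn0, hn]
        exact_mod_cast (by omega : m + 1 < N + 1)
      refine ⟨p (((m + 1 : ℕ) : ℝ) / n), p '' Icc ((m : ℝ) / n) (((m + 1 : ℕ) : ℝ) / n),
        p '' Icc (((m + 1 : ℕ) : ℝ) / n) 1, ⟨?_, ?_, ih (m + 1) (by omega)⟩, hthin m,
        hβU m (by omega), ⟨_, ⟨le_rfl, (hlt m).le⟩, rfl⟩, ⟨_, ⟨(hlt m).le, le_rfl⟩, rfl⟩, ?_, ?_, ?_⟩
      · rw [← hpv (m + 1) (by omega)]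
        exact mem_of_mem_nhds (hW _ _)
      · rw [hbp]
        intro h3
        have h4 := hpinj _ _ h3
        linarith
      · intro h3
        have h4 := hpinj _ _ h3
        exact (hlt m).ne' h4
      · rintro _ ⟨⟨s, hs, rfl⟩, ⟨t, ht, hts⟩⟩
        have h4 := hpinj _ _ hts
        rw [mem_singleton_iff]
        congr 1
        rw [h4] at ht
        exact le_antisymm hs.2 ht.1
      · rw [← image_union, Icc_union_Icc_eq_Icc (hlt m).le hm1.le]
  have hT : sg ψ z P = p '' Icc (((0 : ℕ) : ℝ) / n) 1 := by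
    have h3 := sub_sg ψ z P (zero_lt_one)
    rw [ln_zero, ln_one] at h3
    rw [h3, Nat.cast_zero, zero_div]
  have hap : a = p (((0 : ℕ) : ℝ) / n) := by
    rw [Nat.cast_zero, zero_div, ← ha 1, h1 0 ⟨le_rfl, zero_le_one⟩]
  refine hG1 _ ?_ hST
  rw [hT, hap]
  exact hcfg N 0 (by omega)

end Pool.Agent.L0h29.EN
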