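import Pool.Agent.L0h29.EN.Gen

/-!
# Project EN: boxes and their boundaries
-/

set_option autoImplicit false
set_option linter.unusedSectionVars false
set_option linter.unusedVariables false

open Set Filter Topology Metric Function MeasureTheory
open scoped Manifold ContDiff ENNReal NNReal

noncomputable section

namespace Pool.Agent.L0h29.EN

open Pool.Agent.Y522

@[simp] theorem ln_apply (z P : E 4) (t : ℝ) (i : Fin 4) : ln z P t i = z i + t * (P i - z i) := by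
  simp [ln]

theorem isClosed_qc (τ : E 4) : IsClosed (qc τ) := by
  simp only [qc, ofPred_forall]
  refine isClosed_iInter fun i => isClosed_le ?_ continuous_const
  fun_prop

theorem isOpen_qo (τ : E 4) : IsOpen (qo τ) := by
  simp only [qo, ofPred_forall]
  refine isOpen_iInter_of_finite fun i => isOpen_lt ?_ continuous_const
  fun_prop

theorem norm_le_two {x : E 4} {r : ℝ} (hr : 0 ≤ r) (h : ∀ i, |x i| ≤ r) : ‖x‖ ≤ 2 * r := by
  rw [EuclideanSpace.norm_eq, Real.sqrt_le_left (by positivity)]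
  have h1 : ∀ i ∈ (Finset.univ : Finset (Fin 4)), ‖x i‖ ^ 2 ≤ r ^ 2 := by
    intro i _
    rw [Real.norm_eq_abs]
    exact pow_le_pow_left₀ (abs_nonneg _) (h i) 2
  refine (Finset.sum_le_card_nsmul _ _ _ h1).trans ?_
  simp only [Finset.card_univ, Fintype.card_fin, nsmul_eq_mul]
  push_cast
  nlinarith

theorem isCompact_qc (τ : E 4) : IsCompact (qc τ) := by
  refine Metric.isCompact_of_isClosed_isBounded (isClosed_qc τ) ?_
  refine (isBounded_closedBall (x := τ) (r := 6)).subset fun z hz => ?_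
  rw [mem_closedBall, dist_eq_norm]
  have := norm_le_two (x := z - τ) (by norm_num : (0 : ℝ) ≤ 3) (fun i => by simpa using hz i)
  linarith

theorem qo_of_lt {τ z : E 4} (hz : z ∈ qc τ) {s : ℝ} (h0 : 0 ≤ s) (h1 : s < 1) :
    ln τ z s ∈ qo τ := by
  intro i
  rw [ln_apply, add_sub_cancel_left, abs_mul, abs_of_nonneg h0]
  have h2 := hz i
  have h3 := abs_nonneg (z i - τ i)
  nlinarith

theorem ln_qc {τ z : E 4} (hz : z ∈ qc τ) {s : ℝ} (h : s ∈ Icc (0 : ℝ) 1) : ln τ z s ∈ qc τ := by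
  intro i
  rw [ln_apply, add_sub_cancel_left, abs_mul, abs_of_nonneg h.1]
  have h2 := hz i
  have h3 := abs_nonneg (z i - τ i)
  have h4 := h.1
  have h5 := h.2
  nlinarith

theorem qo_qc {τ z : E 4} (h : z ∈ qo τ) : z ∈ qc τ := fun i => (h i).le

theorem mem_bd {τ z : E 4} (h : z ∈ qc τ \ qo τ) : ∃ i, |z i - τ i| = 3 := by
  obtain ⟨h1, h2⟩ := h
  simp only [qo, mem_ofPred_eq, not_forall, not_lt] at h2
  obtain ⟨i, hi⟩ := h2
  exact ⟨i, le_antisymm (h1 i) hi⟩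

theorem rad_le {τ z z' : E 4} (hz : z ∈ qc τ \ qo τ) (hz' : z' ∈ qc τ) {s σ : ℝ}
    (hs : 0 ≤ s) (hσ : 0 ≤ σ) (h : ln τ z s = ln τ z' σ) : s ≤ σ := by
  obtain ⟨i, hi⟩ := mem_bd hz
  have h1 : (ln τ z s) i = (ln τ z' σ) i := by rw [h]
  rw [ln_apply, ln_apply, add_right_inj] at h1
  have h2 : s * 3 = σ * |z' i - τ i| := by
    rw [← hi, ← abs_of_nonneg hs, ← abs_mul, h1, abs_mul, abs_of_nonneg hσ]
  have h3 := hz' i
  nlinarith

theorem rad {τ z z' : E 4} (hz : z ∈ qc τ \ qo τ) (hz' : z' ∈ qc τ \ qo τ) {s σ : ℝ}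
    (hs : 0 < s) (hσ : 0 ≤ σ) (h : ln τ z s = ln τ z' σ) : z = z' := by
  have h1 : s = σ := le_antisymm (rad_le hz hz'.1 hs.le hσ h) (rad_le hz' hz.1 hσ hs.le h.symm)
  subst h1
  simp only [ln, add_right_inj] at h
  have h2 := smul_right_injective (E 4) hs.ne' h
  simpa using h2

/-- labels -/
def lb (m : ℕ) (τ z : E 4) : Fin 4 → ℤ × ℤ := fun j =>
  (⌊(m : ℝ) * (z j - τ j)⌋, ⌈(m : ℝ) * (z j - τ j)⌉)

theorem lb_ln {m : ℕ} {τ z z' : E 4} (h : lb m τ z = lb m τ z') {t : ℝ} (ht : t ∈ Icc (0 : ℝ) 1) :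
    lb m τ (ln z z' t) = lb m τ z := by
  funext j
  have hj := congrFun h j
  simp only [lb, Prod.mk.injEq] at hj ⊢
  obtain ⟨h1, h2⟩ := hj
  have h3 : (m : ℝ) * (ln z z' t j - τ j) = (m : ℝ) * (z j - τ j) +
      t * ((m : ℝ) * (z' j - τ j) - (m : ℝ) * (z j - τ j)) := by
    rw [ln_apply]; ring
  rw [h3]
  generalize (m : ℝ) * (z j - τ j) = x at *
  generalize (m : ℝ) * (z' j - τ j) = x' at *
  have ht0 := ht.1
  have ht1 := ht.2
  constructor
  · rw [Int.floor_eq_iff]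
    have e1 := Int.floor_le x
    have e2 := Int.lt_floor_add_one x
    have e3 := Int.floor_le x'
    have e4 := Int.lt_floor_add_one x'
    rw [← h1] at e3 e4
    constructor
    · nlinarith
    · rcases eq_or_lt_of_le ht1 with h5 | h5
      · rw [h5]; linarith
      · nlinarith
  · rw [Int.ceil_eq_iff]
    have e1 := Int.le_ceil x
    have e2 := Int.ceil_lt_add_one x
    have e3 := Int.le_ceil x'
    have e4 := Int.ceil_lt_add_one x'
    rw [← h2] at e3 e4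
    constructor
    · rcases eq_or_lt_of_le ht1 with h5 | h5
      · rw [h5]; linarith
      · nlinarith
    · nlinarith

theorem lb_dist {m : ℕ} (hm : 0 < m) {τ z z' : E 4} (h : lb m τ z = lb m τ z') :
    dist z z' ≤ 2 * (1 / m) := by
  have hm' : (0 : ℝ) < m := by exact_mod_cast hm
  rw [dist_eq_norm]
  refine norm_le_two (by positivity) fun j => ?_
  have hj := congrFun h j
  simp only [lb, Prod.mk.injEq] at hj
  obtain ⟨h1, -⟩ := hj
  have e1 := Int.floor_le ((m : ℝ) * (z j - τ j))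
  have e2 := Int.lt_floor_add_one ((m : ℝ) * (z j - τ j))
  have e3 := Int.floor_le ((m : ℝ) * (z' j - τ j))
  have e4 := Int.lt_floor_add_one ((m : ℝ) * (z' j - τ j))
  rw [← h1] at e3 e4
  have h5 : (z - z') j = z j - z' j := by simp
  rw [h5, abs_le, ← sub_nonneg, ← sub_nonneg (a := 1 / (m : ℝ))]
  constructor
  · have : 0 ≤ ((m : ℝ) * (z j - τ j) - (m : ℝ) * (z' j - τ j) + 1) / m :=
      div_nonneg (by linarith) hm'.le
    have h6 : ((m : ℝ) * (z j - τ j) - (m : ℝ) * (z' j - τ j) + 1) / m = z j - z' j - -(1 / m) := by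
      field_simp
      ring
    rwa [h6] at this
  · have : 0 ≤ (1 - ((m : ℝ) * (z j - τ j) - (m : ℝ) * (z' j - τ j))) / m :=
      div_nonneg (by linarith) hm'.le
    have h6 : (1 - ((m : ℝ) * (z j - τ j) - (m : ℝ) * (z' j - τ j))) / m = 1 / m - (z j - z' j) := by
      field_simp
      ring
    rwa [h6] at this

theorem lb_face {m : ℕ} (hm : 0 < m) {τ z z' : E 4} {i : Fin 4}
    (h : ((lb m τ z i).1 : ℝ) ≤ (m : ℝ) * (z' i - τ i) ∧
      (m : ℝ) * (z' i - τ i) ≤ ((lb m τ z i).2 : ℝ)) (hi : |z i - τ i| = 3) :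
    z' i = z i := by
  have hm' : (0 : ℝ) < m := by exact_mod_cast hm
  obtain ⟨k, hk⟩ : ∃ k : ℤ, (m : ℝ) * (z i - τ i) = k := by
    rcases eq_or_eq_neg_of_abs_eq hi with h1 | h1
    · exact ⟨3 * m, by rw [h1]; push_cast; ring⟩
    · exact ⟨-(3 * m), by rw [h1]; push_cast; ring⟩
  simp only [lb, hk, Int.floor_intCast, Int.ceil_intCast] at h
  have h2 : (m : ℝ) * (z' i - τ i) = (m : ℝ) * (z i - τ i) := by
    rw [hk]; exact le_antisymm h.2 h.1
  have h3 := mul_left_cancel₀ hm'.ne' h2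
  linarith

theorem lb_self (m : ℕ) (τ z : E 4) (i : Fin 4) : ((lb m τ z i).1 : ℝ) ≤ (m : ℝ) * (z i - τ i) ∧
      (m : ℝ) * (z i - τ i) ≤ ((lb m τ z i).2 : ℝ) :=
  ⟨Int.floor_le _, Int.le_ceil _⟩

theorem lb_closed {m : ℕ} (hm : 0 < m) {τ : E 4} {A : Set (E 4)}
    (g2 : ∀ i j : Fin 4, i ≠ j → ∀ z ∈ A, |z i - τ i| = 3 → ∀ s : ℚ, z j - τ j ≠ s) {z z' : E 4}
    (hz : z ∈ A ∩ (qc τ \ qo τ)) (hz' : z' ∈ A ∩ (qc τ \ qo τ))
    (h : ∀ j, ((lb m τ z j).1 : ℝ) ≤ (m : ℝ) * (z' j - τ j) ∧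
      (m : ℝ) * (z' j - τ j) ≤ ((lb m τ z j).2 : ℝ)) : lb m τ z' = lb m τ z := by
  have hm' : (0 : ℝ) < m := by exact_mod_cast hm
  obtain ⟨i, hi⟩ := mem_bd hz.2
  have h1 : z' i = z i := lb_face hm (h i) hi
  have hi' : |z' i - τ i| = 3 := by rw [h1, hi]
  have key : ∀ y ∈ A, |y i - τ i| = 3 → ∀ j, i ≠ j → ∀ k : ℤ, (m : ℝ) * (y j - τ j) ≠ k := by
    intro y hy hyi j hj k hk
    refine g2 i j hj y hy hyi (k / m) ?_
    push_cast
    rw [eq_div_iff hm'.ne', ← hk]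
    ring
  funext j
  by_cases hj : i = j
  · rw [← hj]
    simp only [lb, h1]
  · have e1 := key z hz.1 hi j hj
    have e2 := key z' hz'.1 hi' j hj
    have e3 := h j
    simp only [lb] at e3 ⊢
    generalize (m : ℝ) * (z j - τ j) = x at *
    generalize (m : ℝ) * (z' j - τ j) = x' at *
    have hceil : ∀ x : ℝ, (∀ k : ℤ, x ≠ k) → ⌈x⌉ = ⌊x⌋ + 1 := by
      intro x hx
      rw [Int.ceil_eq_iff]
      push_cast
      refine ⟨?_, (Int.lt_floor_add_one x).le⟩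
      rw [add_sub_cancel_right]
      exact lt_of_le_of_ne (Int.floor_le x) (hx _).symm
    rw [hceil x e1, hceil x' e2]
    rw [hceil x e1] at e3
    have h5 : ⌊x'⌋ = ⌊x⌋ := by
      rw [Int.floor_eq_iff]
      refine ⟨e3.1, lt_of_le_of_ne ?_ ?_⟩
      · have := e3.2
        push_cast at this
        exact this
      · have := e2 (⌊x⌋ + 1)
        push_cast at this
        exact this
    rw [h5]

theorem lb_finite (m : ℕ) (τ : E 4) (A : Set (E 4)) : (lb m τ '' (A ∩ (qc τ \ qo τ))).Finite := by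
  have h1 : (Set.pi univ fun _ : Fin 4 => (Icc (-(3 * m : ℤ)) (3 * m)) ×ˢ
      (Icc (-(3 * m : ℤ)) (3 * m))).Finite :=
    Set.Finite.pi fun _ => (finite_Icc _ _).prod (finite_Icc _ _)
  refine h1.subset ?_
  rintro _ ⟨z, ⟨-, hz, -⟩, rfl⟩ j -
  have h2 := abs_le.1 (hz j)
  have hm : (0 : ℝ) ≤ m := Nat.cast_nonneg m
  have h3 : (m : ℝ) * (z j - τ j) ≤ ((3 * m : ℤ) : ℝ) := by
    push_cast
    nlinarith [h2.2]
  have h4 : ((-(3 * m) : ℤ) : ℝ) ≤ (m : ℝ) * (z j - τ j) := by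
    push_cast
    nlinarith [h2.1]
  refine ⟨⟨Int.le_floor.2 h4, ?_⟩, ⟨?_, Int.ceil_le.2 h3⟩⟩
  · have h5 := Int.floor_le ((m : ℝ) * (z j - τ j))
    exact_mod_cast h5.trans h3
  · have h5 := Int.le_ceil ((m : ℝ) * (z j - τ j))
    exact_mod_cast h4.trans h5

end Pool.Agent.L0h29.EN
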