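import Pool.Agent.L0h29.EN.Thin

/-!
# Project EN: moves of arcs
-/

set_option autoImplicit false
set_option linter.unusedSectionVars false

open Set Filter Topology Metric Function MeasureTheory
open scoped Manifold ContDiff

noncomputable section

namespace Pool.Agent.L0h29.EN

open Pool.Agent.Y522 Pool.Agent.N550.KH Pool.Agent.N550.KH.One Pool.Agent.L0h29.CS

variable {X : Type} [TopologicalSpace X] [ChartedSpace (E 4) X]

theorem Cell.emb {ψ : E 4 → X} (hψ : Cell ψ) : IsOpenEmbedding ψ :=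
  IsOpenEmbedding.of_continuous_injective_isOpenMap hψ.cont hψ.1 fun _ hs => hψ.open_image hs

theorem left_sg (ψ : E 4 → X) (z P : E 4) : ψ z ∈ sg ψ z P :=
  mem_sg.2 ⟨0, ⟨le_rfl, zero_le_one⟩, by rw [ln_zero]⟩

theorem right_sg (ψ : E 4 → X) (z P : E 4) : ψ P ∈ sg ψ z P :=
  mem_sg.2 ⟨1, ⟨zero_le_one, le_rfl⟩, by rw [ln_one]⟩

/-- generic points -/
theorem exists_generic {U : Set (E 4)} (hU : IsOpen U) (hne : U.Nonempty) {N : Set (E 4)}
    (hN : volume N = 0) : ∃ w ∈ U, w ∉ N := by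
  by_contra hcon
  push Not at hcon
  exact (hU.measure_pos volume hne).ne' (measure_mono_null hcon hN)

theorem line_null (x z : E 4) : volume {w : E 4 | ∃ r : ℝ, w = x + r • (z - x)} = 0 := by
  have h1 : {w : E 4 | ∃ r : ℝ, w = x + r • (z - x)} ⊆
      ⋃ n : ℤ, cone x {x + (n : ℝ) • (z - x)} := by
    rintro w ⟨r, rfl⟩
    rcases eq_or_ne r 0 with rfl | hr
    · exact mem_iUnion.2 ⟨0, _, rfl, 0, ⟨le_rfl, zero_le_one⟩, by simp [ln]⟩
    rcases lt_or_gt_of_ne hr with h | h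
    · have h2 : (⌊r⌋ : ℝ) ≤ r := Int.floor_le r
      have h3 : (⌊r⌋ : ℝ) < 0 := lt_of_le_of_lt h2 h
      refine mem_iUnion.2 ⟨⌊r⌋, _, rfl, r / ⌊r⌋, ⟨?_, ?_⟩, ?_⟩
      · exact div_nonneg_of_nonpos h.le h3.le
      · rw [div_le_one_of_neg h3]; exact h2
      · simp only [ln, add_sub_cancel_left, smul_smul]
        rw [div_mul_cancel₀ _ h3.ne]
    · have h2 : r ≤ (⌈r⌉ : ℝ) := Int.le_ceil r
      have h3 : (0 : ℝ) < ⌈r⌉ := lt_of_lt_of_le h h2
      refine mem_iUnion.2 ⟨⌈r⌉, _, rfl, r / ⌈r⌉, ⟨by positivity, ?_⟩, ?_⟩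
      · rw [div_le_one h3]; exact h2
      · simp only [ln, add_sub_cancel_left, smul_smul]
        rw [div_mul_cancel₀ _ h3.ne']
  refine measure_mono_null h1 (measure_iUnion_null fun n => ?_)
  exact volume_null (by norm_num) (cone_null x (single_null _))

/-- the core move -/
theorem core [T2Space X] {ψ : E 4 → X} (hψ : Cell ψ) {S T' β' : Set X} (hS : IsCompact S)
    (hT' : IsCompact T') (hβ' : IsCompact β') (hβψ : β' ⊆ range ψ) {x z w : E 4}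
    (hx : ψ x ∈ β') (hz : ψ z ∈ β')
    (hb : ∀ p ∈ β', p ∈ S ∪ T' → p = ψ x ∨ p = ψ z) (hw : w ∉ Bad ψ β' (S ∪ T' ∪ β'))
    (h : Eg (S ∪ (sg ψ w x ∪ (sg ψ w z ∪ T')))) : Eg (S ∪ (β' ∪ T')) := by
  obtain ⟨c, hc, hKc⟩ := h
  have hcpt : ∀ P, IsCompact (sg ψ w P) := fun P =>
    (cone_cpt w isCompact_singleton).image hψ.cont
  have hpre : IsCompact (ψ ⁻¹' β') := hψ.emb.isInducing.isCompact_preimage' hβ' hβψ
  have hlx : ∀ t ∈ Icc (0 : ℝ) 1, ψ (ln w x t) ∈ range c := fun t ht =>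
    hKc (Or.inr (Or.inl (mem_sg.2 ⟨t, ht, rfl⟩)))
  have hlz : ∀ t ∈ Icc (0 : ℝ) 1, ψ (ln w z t) ∈ range c := fun t ht =>
    hKc (Or.inr (Or.inr (Or.inl (mem_sg.2 ⟨t, ht, rfl⟩))))
  have h1 := star hψ (z := w) (D := cone w (ψ ⁻¹' β')) (cone_cpt w hpre)
    (fun P hP t ht => cone_star hP ht)
    (K := S ∪ (sg ψ w x ∪ (sg ψ w z ∪ T')))
    ((hS.isClosed).union ((hcpt x).isClosed.union ((hcpt z).isClosed.union hT'.isClosed)))
    hc hKc (by
      have := hlx 0 ⟨le_rfl, zero_le_one⟩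
      rwa [ln_zero] at this) (by
      intro P hP hPK t ht
      have hS' : ψ P ∈ S ∪ T' → ψ (ln w P t) ∈ range c := by
        intro hPS
        have h2 : ψ P ∈ β' := by
          by_contra hcon
          obtain ⟨b, hbβ, s, hs, rfl⟩ := hP
          exact hw ⟨b, hbβ, s, hs, Or.inl hPS, hcon⟩
        rcases hb _ h2 hPS with h3 | h3
        · rw [hψ.1 h3]; exact hlx t ht
        · rw [hψ.1 h3]; exact hlz t ht
      rcases hPK with h2 | h2 | h2 | h2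
      · exact hS' (Or.inl h2)
      · obtain ⟨s, hs, hsP⟩ := mem_sg.1 h2
        rw [← hψ.1 hsP, ln_ln]
        exact hlx _ ⟨mul_nonneg ht.1 hs.1, mul_le_one₀ ht.2 hs.1 hs.2⟩
      · obtain ⟨s, hs, hsP⟩ := mem_sg.1 h2
        rw [← hψ.1 hsP, ln_ln]
        exact hlz _ ⟨mul_nonneg ht.1 hs.1, mul_le_one₀ ht.2 hs.1 hs.2⟩
      · exact hS' (Or.inr h2))
  refine h1.mono ?_
  rintro p (hp | hp | hp)
  · exact Or.inl (Or.inl hp)
  · obtain ⟨P, rfl⟩ := hβψ hp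
    exact Or.inr ⟨P, subset_cone _ _ hp, rfl⟩
  · exact Or.inl (Or.inr (Or.inr (Or.inr hp)))

/-- families of configurations -/
abbrev Tail (X : Type) : Type := X → Set X → Prop

/-- admissible families, for the end point `b` -/
structure Adm (b : X) (D : Tail X) : Prop where
  mem : ∀ y T, D y T → y ∈ T
  memb : ∀ y T, D y T → b ∈ T
  cpt : ∀ y T, D y T → IsCompact T
  null : ∀ y T, D y T → NullH2 4 T

/-- a slot: a thin set in `V` -/
def sl (V : Set X) (D : Tail X) : Tail X := fun x T =>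
  ∃ y β T', D y T' ∧ Thin β ∧ β ⊆ V ∧ x ∈ β ∧ y ∈ β ∧ y ≠ x ∧ β ∩ T' ⊆ {y} ∧ T = β ∪ T'

/-- a vertex in `W` -/
def vt (b : X) (W : Set X) (D : Tail X) : Tail X := fun y T => y ∈ W ∧ y ≠ b ∧ D y T

/-- the end -/
def endb (b : X) : Tail X := fun y T => y = b ∧ T = {b}

/-- all configurations are engulfed -/
def Good (b : X) (D : Tail X) (S : Set X) (x : X) : Prop :=
  ∀ T, D x T → S ∩ T ⊆ {x, b} → Eg (S ∪ T)

/-- implications between families -/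
def Le (b : X) (W : Set X) (D D' : Tail X) : Prop :=
  ∀ S, IsCompact S → NullH2 4 S → ∀ x ∈ W, Good b D S x → Good b D' S x

theorem Le.trans {b : X} {W : Set X} {D D' D'' : Tail X} (h : Le b W D D') (h' : Le b W D' D'') :
    Le b W D D'' := fun S h1 h2 x hx hg => h' S h1 h2 x hx (h S h1 h2 x hx hg)

theorem Le.mono {b : X} {W W' : Set X} {D D' : Tail X} (h : Le b W D D') (hW : W' ⊆ W) :
    Le b W' D D' := fun S h1 h2 x hx hg => h S h1 h2 x (hW hx) hg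

theorem Le.of_imp {b : X} {W : Set X} {D D' : Tail X} (h : ∀ x T, D' x T → D x T) :
    Le b W D D' := fun _ _ _ _ _ hg T hT hST => hg T (h _ T hT) hST

theorem null_single (b : X) : NullH2 4 ({b} : Set X) := by
  intro h hi hl
  have h1 : (h ⁻¹' {b}).Subsingleton := fun x hx y hy => hi (hx.trans hy.symm)
  rcases h1.eq_empty_or_singleton with h2 | ⟨x, h2⟩
  · rw [h2]; exact measure_empty
  · rw [h2]
    have := Measure.nullSingletonClass_hausdorff (X := E 4) (d := 2) two_pos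
    exact measure_singleton x

theorem adm_endb (b : X) : Adm b (endb b) := by
  refine ⟨?_, ?_, ?_, ?_⟩
  · rintro y T ⟨rfl, rfl⟩; rfl
  · rintro y T ⟨rfl, rfl⟩; rfl
  · rintro y T ⟨rfl, rfl⟩; exact isCompact_singleton
  · rintro y T ⟨rfl, rfl⟩; exact null_single _

theorem adm_vt {b : X} {W : Set X} {D : Tail X} (h : Adm b D) : Adm b (vt b W D) :=
  ⟨fun y T hT => h.mem y T hT.2.2, fun y T hT => h.memb y T hT.2.2,
    fun y T hT => h.cpt y T hT.2.2, fun y T hT => h.null y T hT.2.2⟩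

theorem adm_sl {b : X} {V : Set X} {D : Tail X} (h : Adm b D) : Adm b (sl V D) := by
  refine ⟨?_, ?_, ?_, ?_⟩
  · rintro x T ⟨y, β, T', -, -, -, hx, -, -, -, rfl⟩; exact Or.inl hx
  · rintro x T ⟨y, β, T', hD, -, -, -, -, -, -, rfl⟩; exact Or.inr (h.memb _ _ hD)
  · rintro x T ⟨y, β, T', hD, hβ, -, -, -, -, -, rfl⟩; exact hβ.cpt.union (h.cpt _ _ hD)
  · rintro x T ⟨y, β, T', hD, hβ, -, -, -, -, -, rfl⟩
    exact NullH2.union hβ.null (h.null _ _ hD)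

/-- insertion of a vertex -/
theorem ins {b : X} {V V₁ V₂ W W₀ : Set X} {D : Tail X} (h₁ : V₁ ⊆ V) (h₂ : V₂ ⊆ V) :
    Le b W₀ (sl V D) (sl V₁ (vt b W (sl V₂ D))) := by
  apply Le.of_imp
  rintro x T ⟨y₁, β₁, T₁, ⟨-, -, y, β₂, T', hD, hβ₂, hV₂, hy₁2, hy2, hyy, hβT, rfl⟩, hβ₁, hV₁, hx,
    hy₁, hyx, hβ₁T, rfl⟩
  refine ⟨y, β₁ ∪ β₂, T', hD, hβ₁.union hβ₂, union_subset (hV₁.trans h₁) (hV₂.trans h₂), Or.inl hx,
    Or.inr hy2, ?_, ?_, (union_assoc _ _ _).symm⟩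
  · rintro rfl
    exact hyx (hβ₁T ⟨hx, Or.inl hy2⟩).symm
  · rintro p ⟨hp | hp, hpT⟩
    · have h3 : p = y₁ := hβ₁T ⟨hp, Or.inr hpT⟩
      rw [h3] at hpT
      exact absurd (hβT ⟨hy₁2, hpT⟩) (fun h4 => hyy h4.symm)
    · exact hβT ⟨hp, hpT⟩

/-- congruence -/
theorem cong {b : X} {V W W₀ : Set X} {D D' : Tail X} (hD' : Adm b D')
    (h : Le b W D D') : Le b W₀ (sl V (vt b W D)) (sl V (vt b W D')) := by
  rintro S hS hSn x - hG T ⟨y, β, T', ⟨hyW, hyb, hDy⟩, hβ, hβV, hxβ, hyβ, hyx, hβT, rfl⟩ hST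
  have hbβ : b ∉ β := fun hb => hyb (hβT ⟨hb, hD'.memb _ _ hDy⟩).symm
  have hyS : y ∉ S := fun hyS => by
    rcases hST ⟨hyS, Or.inl hyβ⟩ with h1 | h1
    · exact hyx h1
    · exact hyb h1
  have hG' : Good b D (S ∪ β) y := by
    intro T₂ hT₂ hST₂
    rw [union_assoc]
    refine hG _ ⟨y, β, T₂, ⟨hyW, hyb, hT₂⟩, hβ, hβV, hxβ, hyβ, hyx, ?_, rfl⟩ ?_
    · rintro p ⟨hp, hpT⟩
      rcases hST₂ ⟨Or.inr hp, hpT⟩ with h1 | h1
      · exact h1
      · rw [mem_singleton_iff] at h1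
        rw [h1] at hp
        exact absurd hp hbβ
    · rintro p ⟨hp, hpβ | hpT⟩
      · exact hST ⟨hp, Or.inl hpβ⟩
      · rcases hST₂ ⟨Or.inl hp, hpT⟩ with h1 | h1
        · rw [h1] at hp
          exact absurd hp hyS
        · exact Or.inr h1
  have h2 := h (S ∪ β) (hS.union hβ.cpt) (NullH2.union hSn hβ.null) y hyW hG' T' hDy (by
    rintro p ⟨hp | hp, hpT⟩
    · rcases hST ⟨hp, Or.inr hpT⟩ with h1 | h1
      · rw [h1] at hpT
        exact absurd (hβT ⟨hxβ, hpT⟩) (fun h4 => hyx h4.symm)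
      · exact Or.inr h1
    · exact Or.inl (hβT ⟨hp, hpT⟩))
  rwa [union_assoc] at h2

/-- deletion of a vertex -/
theorem del [T2Space X] {ψ : E 4 → X} (hψ : Cell ψ) {b : X} {V₁ W₁ V₂ V' W₀ : Set X} {D : Tail X}
    (hD : Adm b D) (hV' : V' ⊆ range ψ)
    (h : ∀ x ∈ W₀, ∀ z T', D z T' → x ∈ V' → z ∈ V' → ∃ U : Set (E 4), IsOpen U ∧ U.Nonempty ∧
      ∀ w ∈ U, ψ w ∈ W₁ ∧ sg ψ w (invFun ψ x) ⊆ V₁ ∧ sg ψ w (invFun ψ z) ⊆ V₂) :
    Le b W₀ (sl V₁ (vt b W₁ (sl V₂ D))) (sl V' D) := by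
  rintro S hS hSn x hx hG T ⟨z, β', T', hDz, hthin, hβV, hxβ, hzβ, hzx, hβT, rfl⟩ hST
  obtain ⟨U, hUo, hUn, hU⟩ := h x hx z T' hDz (hβV hxβ) (hβV hzβ)
  set x' := invFun ψ x with hx'
  set z' := invFun ψ z with hz'
  have hψx : ψ x' = x := by
    obtain ⟨u, hu⟩ := hV' (hβV hxβ)
    rw [hx', ← hu, hψ.inv]
  have hψz : ψ z' = z := by
    obtain ⟨u, hu⟩ := hV' (hβV hzβ)
    rw [hz', ← hu, hψ.inv]
  have hT'c := hD.cpt _ _ hDz
  have hzT := hD.mem _ _ hDz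
  have hbT := hD.memb _ _ hDz
  have hnull : NullH2 4 (S ∪ T' ∪ β') :=
    NullH2.union (NullH2.union hSn (hD.null _ _ hDz)) hthin.null
  obtain ⟨w, hwU, hw⟩ := exists_generic hUo hUn (N := Bad ψ β' (S ∪ T' ∪ β') ∪
    (ψ ⁻¹' (S ∪ T' ∪ β') ∪ {w : E 4 | ∃ r : ℝ, w = x' + r • (z' - x')}))
    (measure_union_null (hthin.bad ψ hψ _ hnull) (measure_union_null
      (volume_null (by norm_num) (hnull ψ hψ.1 hψ.2)) (line_null _ _)))
  rw [mem_union, mem_union, not_or, not_or] at hw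
  obtain ⟨hw1, hw2, hw3⟩ := hw
  obtain ⟨hU1, hU2, hU3⟩ := hU w hwU
  have key : ∀ P, ψ P ∈ β' → ∀ p ∈ sg ψ w P, p ∈ S ∪ T' → p ∈ β' := by
    intro P hP p hp hpS
    obtain ⟨t, ht, rfl⟩ := mem_sg.1 hp
    by_contra hcon
    exact hw1 ⟨P, hP, t, ht, Or.inl hpS, hcon⟩
  have hkx := key x' (by rw [hψx]; exact hxβ)
  have hkz := key z' (by rw [hψz]; exact hzβ)
  have hxz : x' ≠ z' := fun hcon => hzx (by rw [← hψx, ← hψz, hcon])
  have hcol : ∀ s t : ℝ, ln w x' s = ln w z' t → s = 0 := by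
    intro s t hst
    by_contra hs
    have h1 : s • (x' - w) = t • (z' - w) := by
      simpa only [ln, add_right_inj] using hst
    have h2 : x' - w = (t / s) • (z' - w) := by
      rw [div_eq_inv_mul, mul_smul, ← h1, smul_smul, inv_mul_cancel₀ hs, one_smul]
    have h3 : 1 - t / s ≠ 0 := by
      intro h4
      have h5 : t / s = 1 := by linarith
      rw [h5, one_smul, sub_left_inj] at h2
      exact hxz h2
    refine hw3 ⟨-(t / s) / (1 - t / s), ?_⟩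
    have h4 : (1 - t / s) • w = x' - (t / s) • z' := by
      rw [sub_smul, one_smul]
      have h6 : x' = w + (t / s) • (z' - w) := by rw [← h2]; abel
      rw [h6, smul_sub]
      generalize (t / s) = r
      have : ∀ a b c : E 4, a + (b - c) - b = a - c := fun a b c => by abel
      rw [this]
    have h5 : w = (1 - t / s)⁻¹ • (x' - (t / s) • z') := by
      rw [← h4, smul_smul, inv_mul_cancel₀ h3, one_smul]
    have h7 : x' + (-(t / s) / (1 - t / s)) • (z' - x') = (1 - t / s)⁻¹ • (x' - (t / s) • z') := by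
      have h8 : (-(t / s) / (1 - t / s)) = (1 - t / s)⁻¹ * -(t / s) := by
        rw [div_eq_inv_mul]
      have h9 : x' = (1 - t / s)⁻¹ • ((1 - t / s) • x') := by
        rw [smul_smul, inv_mul_cancel₀ h3, one_smul]
      rw [h8, mul_smul]
      conv_lhs => rw [h9]
      rw [← smul_add]
      congr 1
      rw [smul_smul, inv_mul_cancel₀ h3, one_smul, sub_smul, one_smul, smul_sub]
      simp only [neg_smul]
      abel
    rw [h7]
    exact h5
  have h12 : ∀ p, p ∈ sg ψ w x' → p ∈ sg ψ w z' → p = ψ w := by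
    intro p hp1 hp2
    obtain ⟨s, hs, hsp⟩ := mem_sg.1 hp1
    obtain ⟨t, ht, htp⟩ := mem_sg.1 hp2
    have h1 := hψ.1 (hsp.trans htp.symm)
    rw [hcol s t h1, ln_zero] at hsp
    exact hsp.symm
  have hwβ : ψ w ∉ S ∪ T' := fun h1 => hw2 (Or.inl h1)
  have hwx : ψ w ≠ x := fun h1 => hw2 (Or.inr (by rw [h1]; exact hxβ))
  have hzw : z ≠ ψ w := fun h1 => hw2 (Or.inr (by rw [← h1]; exact hzβ))
  have hzx' : z ∉ sg ψ w x' := fun h1 =>
    hzw (h12 z h1 (by rw [← hψz]; exact right_sg _ _ _))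
  have hG1 : Eg (S ∪ (sg ψ w x' ∪ (sg ψ w z' ∪ T'))) := by
    refine hG _ ⟨ψ w, sg ψ w x', sg ψ w z' ∪ T', ⟨hU1, ?_, z, sg ψ w z', T', hDz, thin_sg hψ _ _,
      hU3, left_sg _ _ _, by rw [← hψz]; exact right_sg _ _ _, hzw, ?_, rfl⟩, thin_sg hψ _ _, hU2,
      by rw [← hψx]; exact right_sg _ _ _, left_sg _ _ _, hwx, ?_, rfl⟩ ?_
    · rintro h1
      exact hwβ (Or.inr (by rw [h1]; exact hbT))
    · rintro p ⟨hp1, hp2⟩
      exact hβT ⟨hkz p hp1 (Or.inr hp2), hp2⟩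
    · rintro p ⟨hp1, hp2 | hp2⟩
      · exact h12 p hp1 hp2
      · have h1 : p = z := hβT ⟨hkx p hp1 (Or.inr hp2), hp2⟩
        rw [h1] at hp1
        exact absurd hp1 hzx'
    · rintro p ⟨hp1, hp2 | hp2 | hp2⟩
      · exact hST ⟨hp1, Or.inl (hkx p hp2 (Or.inl hp1))⟩
      · exact hST ⟨hp1, Or.inl (hkz p hp2 (Or.inl hp1))⟩
      · exact hST ⟨hp1, Or.inr hp2⟩
  refine core hψ hS hT'c hthin.cpt (hβV.trans hV') (x := x') (z := z') (w := w)
    (by rw [hψx]; exact hxβ) (by rw [hψz]; exact hzβ) ?_ hw1 hG1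
  rw [hψx, hψz]
  rintro p hp (hpS | hpT)
  · rcases hST ⟨hpS, Or.inl hp⟩ with h1 | h1
    · exact Or.inl h1
    · right
      rw [mem_singleton_iff] at h1
      rw [h1] at hp ⊢
      exact hβT ⟨hp, hbT⟩
  · exact Or.inr (hβT ⟨hp, hpT⟩)

end Pool.Agent.L0h29.EN
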