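import Pool.Agent.L0h29.EN.Asm
import Pool.Agent.L0h29.RG.NF

/-!
# Project EN: engulfing of the compact subsets of the complements of points
-/

set_option autoImplicit false
set_option linter.unusedSectionVars false
set_option linter.unusedVariables false

open Set Filter Topology Metric Function MeasureTheory
open scoped Manifold ContDiff

noncomputable section

namespace Pool.Agent.L0h29.EN

open Pool.Agent.Y522 Pool.Agent.N550.KH Pool.Agent.N550.KH.One Pool.Agent.N550.KH.Supp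
  Pool.Agent.L0h29.CS Pool.Agent.N550.TS.Flm Pool.Agent.L0h29.RG Pool.Agent.N550.KH.End

theorem spread0 {ε R : ℝ} (hε : 0 < ε) (hR : 0 < R) : ∃ κ : E 4 → E 4, IsDf 4 κ ∧
    (∃ R' : ℝ, ∀ z, R' ≤ ‖z‖ → κ z = z) ∧ closedBall 0 R ⊆ κ '' ball 0 ε ∧ κ 0 = 0 := by
  obtain ⟨κ, hκ, ⟨R₁, hR₁⟩, hκR⟩ := Shift.main.2.2 4 0 ε R hε
  have hκc : Continuous κ := continuous_iff_continuousAt.2 fun z => (hκ.2 z).continuousAt
  have hO : IsOpen (κ '' ball 0 ε) := isOpen_image_of_LD (n := 4) isOpen_ball fun z _ => hκ.2 z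
  have hOp : IsPreconnected (κ '' ball 0 ε) :=
    (convex_ball (0 : E 4) ε).isPreconnected.image κ hκc.continuousOn
  obtain ⟨K, hK, hK0, L, hL, hLO, hLf⟩ := BL.mv hO hOp (x := κ 0) (y := 0)
    ⟨0, mem_ball_self hε, rfl⟩ (hκR (mem_closedBall_self hR.le))
  obtain ⟨R₂, -, hR₂⟩ := BL.exists_radius hL
  have hKd : IsDf 4 K := ⟨K.bijective, hK.1⟩
  refine ⟨fun z => K (κ z), isDf_comp hKd hκ, ⟨max R₁ R₂, fun z hz => ?_⟩, fun z hz => ?_, hK0⟩
  · show K (κ z) = z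
    rw [hR₁ z ((le_max_left _ _).trans hz)]
    exact hLf z fun h => absurd (hR₂ z h) (not_lt.2 ((le_max_right _ _).trans hz))
  · obtain ⟨w, hw⟩ := K.surjective z
    by_cases h : w ∈ L
    · obtain ⟨u, hu, rfl⟩ := hLO h
      exact ⟨u, hu, hw⟩
    · have h1 : w = z := by rw [← hw]; exact (hLf w h).symm
      obtain ⟨u, hu, huz⟩ := hκR hz
      refine ⟨u, hu, ?_⟩
      show K (κ u) = z
      rw [huz, ← h1, hLf w h]

variable {M N P : Type} [TopologicalSpace M] [ChartedSpace (E 4) M] [TopologicalSpace N]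
  [ChartedSpace (E 4) N] [TopologicalSpace P] [ChartedSpace (E 4) P]

theorem spread [T2Space P] {d : E 4 → P} (hd : Cell d) {ε R : ℝ} (hε : 0 < ε) (hR : 0 < R) :
    ∃ ρ : P → P, IsDf 4 ρ ∧ (∀ x, x ∉ range d → ρ x = x) ∧
      d '' closedBall 0 R ⊆ ρ '' (d '' ball 0 ε) ∧ ρ (d 0) = d 0 := by
  obtain ⟨κ, hκ, hκR, hκB, hκ0⟩ := spread0 hε hR
  obtain ⟨ρ, hρ, hρd, hρo⟩ := Supp.main 4 P d hd.1 hd.2 κ hκ hκR
  refine ⟨ρ, hρ, hρo, ?_, by rw [hρd, hκ0]⟩
  rintro _ ⟨z, hz, rfl⟩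
  obtain ⟨w, hw, rfl⟩ := hκB hz
  exact ⟨d w, ⟨w, hw, rfl⟩, hρd w⟩

/-- the compact subsets of the complements of the points are engulfed -/
def PE (P : Type) [TopologicalSpace P] [ChartedSpace (E 4) P] : Prop :=
  ∀ (x : P) (L : Set P), IsCompact L → x ∉ L → ∃ g : E 4 → P, Cell g ∧ L ⊆ range g ∧ x ∉ range g

theorem IsDf.cell {K : P → P} (hK : IsDf 4 K) {g : E 4 → P} (hg : Cell g) :
    Cell fun z => K (g z) :=
  ⟨fun _ _ h => hg.1 (hK.1.1 h), fun z => LD.comp_fun (g := K) (f := g) (hK.2 _) (hg.2 z)⟩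

theorem IsDf.cont {K : P → P} (hK : IsDf 4 K) : Continuous K :=
  continuous_iff_continuousAt.2 fun z => (hK.2 z).continuousAt

/-- from one point to all points -/
theorem PE.of_point [T2Space P] [PreconnectedSpace P] [IsManifold (𝓡 4) ∞ P] (x₁ : P)
    (h : ∀ L : Set P, IsCompact L → x₁ ∉ L → ∃ g : E 4 → P, Cell g ∧ L ⊆ range g ∧
      x₁ ∉ range g) : PE P := by
  intro x L hL hx
  obtain ⟨K, hK, hKx⟩ := homog x x₁
  obtain ⟨K', h1, h2, h3⟩ := IsDf_inv hK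
  have hK' : IsDf 4 K' := ⟨⟨fun a b hab => by rw [← h2 a, hab, h2], fun a => ⟨K a, h1 a⟩⟩, h3⟩
  obtain ⟨g, hg, hLg, hxg⟩ := h (K '' L) (hL.image (IsDf.cont hK)) (by
    rintro ⟨y, hy, hyx⟩
    rw [← hKx] at hyx
    rw [hK.1.1 hyx] at hy
    exact hx hy)
  refine ⟨fun z => K' (g z), IsDf.cell hK' hg, fun y hy => ?_, ?_⟩
  · obtain ⟨z, hz⟩ := hLg ⟨y, hy, rfl⟩
    refine ⟨z, ?_⟩
    show K' (g z) = y
    rw [hz, h1]
  · rintro ⟨z, hz⟩
    have hz' : K' (g z) = x := hz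
    apply hxg
    refine ⟨z, ?_⟩
    rw [← hKx, ← hz', h2]

/-- the case of the complement of a point which is a cell -/
theorem PE.of_cell [T2Space P] [PreconnectedSpace P] [IsManifold (𝓡 4) ∞ P] {b : E 4 → P}
    (hb : Cell b) {x₁ : P} (hbr : range b = {x₁}ᶜ) : PE P := by
  refine PE.of_point x₁ fun L _ hx => ⟨b, hb, ?_, ?_⟩
  · rw [hbr]
    intro y hy hyx
    rw [mem_singleton_iff] at hyx
    rw [hyx] at hy
    exact hx hy
  · rw [hbr]
    exact fun h => h rfl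

/-- the complements of the points are cells -/
theorem PE.cell [CompactSpace P] [T2Space P] [IsManifold (𝓡 4) ∞ P] (h : PE P) (x : P) :
    ∃ b : E 4 → P, Cell b ∧ range b = {x}ᶜ := by
  refine cell_of_eng {x}ᶜ isOpen_compl_singleton fun K hK hKx => ?_
  obtain ⟨g, hg, h1, h2⟩ := h x K hK fun hcon => hKx hcon rfl
  exact ⟨g, hg.1, hg.2, h1, fun z hz => h2 ⟨z, hz⟩⟩

/-- discs as cells -/
theorem disc_cell' {p : E 4 → P} (hp : IsDisc 4 p) :
    Cell (fun z => p (jb 2 z)) ∧ range (fun z : E 4 => p (jb 2 z)) = p '' ball 0 2 := by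
  have h2 : (0 : ℝ) < 2 := by norm_num
  have hm : ∀ z : E 4, jb 2 z ∈ ball (0 : E 4) 2 := fun z => mem_ball_zero_iff.2 (jb_norm 2 h2 z)
  refine ⟨⟨fun x y hxy => jb_inj 2 h2 (hp.1 (hm x) (hm y) hxy), fun z =>
    LD.comp_fun (g := p) (f := jb 2) (hp.2 _ (hm z)) (jb_LD 2 h2 z)⟩, ?_⟩
  ext x
  constructor
  · rintro ⟨z, rfl⟩
    exact ⟨_, hm z, rfl⟩
  · rintro ⟨w, hw, rfl⟩
    obtain ⟨z, hz⟩ := jb_surj 2 h2 w (mem_ball_zero_iff.1 hw)
    exact ⟨z, congrArg p hz⟩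

theorem disc_cpt {p : E 4 → P} (hp : IsDisc 4 p) {r : ℝ} (hr : r < 2) :
    IsCompact (p '' closedBall 0 r) :=
  (isCompact_closedBall _ _).image_of_continuousOn fun z hz =>
    (hp.2 z (closedBall_subset_ball hr hz)).continuousAt.continuousWithinAt

theorem disc_open {p : E 4 → P} (hp : IsDisc 4 p) {r : ℝ} (hr : r ≤ 2) :
    IsOpen (p '' ball 0 r) :=
  isOpen_image_of_LD (n := 4) isOpen_ball fun z hz => hp.2 z (ball_subset_ball hr hz)

/-- from the complement of a point to the complement of a disc -/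
theorem PE.disc [CompactSpace P] [T2Space P] [IsManifold (𝓡 4) ∞ P] (h : PE P) {q : E 4 → P}
    (hq : IsDisc 4 q) : ∃ g : E 4 → P, Cell g ∧ (q '' ball 0 2)ᶜ ⊆ range g ∧
      Disjoint (range g) (q '' closedBall 0 (1 / 2)) := by
  obtain ⟨hd, hdr⟩ := disc_cell' hq
  set d : E 4 → P := fun z => q (jb 2 z) with hdd
  obtain ⟨b, hb, hbr⟩ := h.cell (d 0)
  have hLc : IsCompact (q '' ball 0 2)ᶜ := (disc_open hq le_rfl).isClosed_compl.isCompact
  obtain ⟨T, hT, hLT⟩ := exists_rad hb hLc (by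
    rw [hbr]
    intro y hy hy0
    rw [mem_singleton_iff] at hy0
    rw [hy0, ← hdr] at hy
    exact hy ⟨0, rfl⟩)
  -- a small ball about the point
  have h1 : IsCompact (b '' closedBall 0 T) := (isCompact_closedBall _ _).image hb.cont
  have h2 : d ⁻¹' (b '' closedBall 0 T)ᶜ ∈ 𝓝 (0 : E 4) := by
    refine (h1.isClosed.isOpen_compl.preimage hd.cont).mem_nhds ?_
    rintro ⟨z, -, hz⟩
    have : d 0 ∈ range b := ⟨z, hz⟩
    rw [hbr] at this
    exact this rfl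
  obtain ⟨ε, hε, hεb⟩ := Metric.mem_nhds_iff.1 h2
  obtain ⟨R, hR, hRq⟩ := exists_rad hd (disc_cpt hq (r := 1 / 2) (by norm_num))
    (by rw [hdr]; exact image_mono (closedBall_subset_ball (by norm_num)))
  obtain ⟨ρ, hρ, hρo, hρR, -⟩ := spread hd hε hR
  refine ⟨fun z => ρ (b (jb T z)), ?_, ?_, ?_⟩
  · have h3 : Cell fun z => b (jb T z) :=
      ⟨fun x y hxy => jb_inj T hT (hb.1 hxy), fun z =>
        LD.comp_fun (g := b) (f := jb T) (hb.2 _) (jb_LD T hT z)⟩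
    exact IsDf.cell hρ h3
  · intro y hy
    obtain ⟨w, hw, hwy⟩ := hLT hy
    obtain ⟨z, hz⟩ := jb_surj T hT w (mem_ball_zero_iff.1 hw)
    refine ⟨z, ?_⟩
    show ρ (b (jb T z)) = y
    rw [hz, hwy]
    refine hρo y ?_
    rw [hdr]
    exact hy
  · rw [disjoint_left]
    rintro _ ⟨z, rfl⟩ hz
    obtain ⟨w, hw, hwz⟩ := hρR (image_mono ball_subset_closedBall (hRq hz))
    have h3 : w = b (jb T z) := hρ.1.1 hwz
    obtain ⟨u, hu, huw⟩ := hw
    refine hεb hu ?_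
    rw [huw, h3]
    exact ⟨_, mem_closedBall_zero_iff.2 (jb_norm T hT z).le, rfl⟩

end Pool.Agent.L0h29.EN
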