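import Pool.Agent.L0h29.EN.Fwd

/-!
# Project EN: recognition of connected sums
-/

set_option autoImplicit false
set_option linter.unusedSectionVars false
set_option linter.unusedVariables false

open Set Filter Topology Metric Function MeasureTheory
open scoped Manifold ContDiff

noncomputable section

namespace Pool.Agent.L0h29.EN

open Pool.Agent.Y522 Pool.Agent.N550.KH Pool.Agent.N550.KH.One Pool.Agent.N550.KH.Supp
  Pool.Agent.L0h29.CS Pool.Agent.N550.TS.Flm Pool.Agent.L0h29.RG Pool.Agent.N550.KH.End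

variable {M N : Type} [TopologicalSpace M] [ChartedSpace (E 4) M] [TopologicalSpace N]
  [ChartedSpace (E 4) N]

/-- an open embedding of the complement of a null set gives a connected sum -/
theorem sum_of_emb [CompactSpace M] [T2Space M] [ConnectedSpace M] [IsManifold (𝓡 4) ∞ M]
    [CompactSpace N] [T2Space N] [IsManifold (𝓡 4) ∞ N] [SimplyConnectedSpace N] {i : N → M}
    {Z : Set N} (hZ : IsClosed Z) (hZn : NullH2 4 Z) (hi : InjOn i Zᶜ)
    (hl : ∀ y, y ∉ Z → LD 4 i y) :
    ∃ (P : Type) (_ : TopologicalSpace P) (_ : ChartedSpace (E 4) P), CompactSpace P ∧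
      T2Space P ∧ ConnectedSpace P ∧ IsManifold (𝓡 4) ∞ P ∧ ConnSum 4 M N P := by
  have hne : Nonempty N := PathConnectedSpace.nonempty
  obtain ⟨φ, h1, -, -⟩ := (dfOff_emb hZ hi hl).symm
  obtain ⟨c, hc, hZc⟩ := engulf hZ.isCompact hZn
  obtain ⟨R, hR, hZR⟩ := exists_rad hc hZ.isCompact hZc
  obtain ⟨G, hG, -, -, hG3⟩ := h1.exists_coll hc hR hZR
  obtain ⟨P, tP, cP, hPc, hPt, hPm, hcs, hconn, -⟩ :=
    exists_connSum3 4 (by norm_num) M N G hG c hc.1 hc.2 fun y hy => hG3 y (by
      rintro rfl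
      exact hy ⟨0, mem_closedBall_self (by norm_num), rfl⟩)
  exact ⟨P, tP, cP, hPc, hPt, hconn hc.ne_univ inferInstance, hPm, hcs⟩

/-- the complement of a point of a summand embeds into the connected sum -/
theorem emb_of_sum [T2Space N] {P : Type} [TopologicalSpace P] [ChartedSpace (E 4) P]
    (h : ConnSum 4 M N P) : ∃ (y₀ : N) (i : N → M), InjOn i {y₀}ᶜ ∧ ∀ y, y ≠ y₀ → LD 4 i y := by
  obtain ⟨p, q, i, j, hp, -, hi1, hi2, -, -, -, -⟩ := h
  obtain ⟨hd, hdr⟩ := disc_cell' hp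
  set d : E 4 → N := fun z => p (jb 2 z) with hdd
  obtain ⟨R, hR, hRp⟩ := exists_rad hd (disc_cpt hp (r := 1 / 2) (by norm_num))
    (by rw [hdr]; exact image_mono (closedBall_subset_ball (by norm_num)))
  have h1 : ∀ y, y ≠ d 0 → ∃ y', act d (psiR R) y' = y := fun y hy =>
    coll_surj (c := d) hd.1 hR hy
  have hne : Nonempty N := ⟨d 0⟩
  choose! w hw using h1
  have h2 : ∀ y', act d (psiR R) y' ≠ d 0 → w (act d (psiR R) y') = y' := fun y' hy' =>
    coll_inj hd.1 hR (by rw [hw _ hy']) (by rw [hw _ hy']; exact hy')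
  have h3 : ∀ y, y ≠ d 0 → w y ∉ p '' closedBall 0 (1 / 2) := by
    intro y hy hcon
    obtain ⟨z, hz, hzy⟩ := hRp hcon
    apply hy
    rw [← hw y hy, ← hzy, coll_c hd.1, psiR_zero hR]
    have := mem_ball_zero_iff.1 hz
    linarith
  have hcc : Continuous (act d (psiR R)) := continuous_iff_continuousAt.2 fun y =>
    (coll_smooth hd.1 hd.2 hR y).continuousAt
  have h4 : ∀ y, y ≠ d 0 → LD 4 w y := by
    intro y hy
    have h5 := LD.inverse (n := 4) (k := act d (psiR R)) (g := w)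
      (U := {y' | act d (psiR R) y' ≠ d 0}) (isOpen_compl_singleton.preimage hcc)
      (fun y' hy' => coll_ld hd.1 hd.2 hR hy') (fun y' hy' => h2 y' hy') (x := w y)
      (by show act d (psiR R) (w y) ≠ d 0; rw [hw y hy]; exact hy)
    rw [hw y hy] at h5
    exact h5
  refine ⟨d 0, fun y => i (w y), fun y hy y' hy' hyy => ?_, fun y hy => ?_⟩
  · have h5 := hi1 (h3 y hy) (h3 y' hy') hyy
    rw [← hw y hy, ← hw y' hy', h5]
  · exact LD.comp_fun (g := i) (f := w) (hi2 _ (h3 y hy)) (h4 y hy)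

end Pool.Agent.L0h29.EN
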