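import Pool.Agent.L0h29.EN.Slot

/-!
# Project EN: rows of arcs
-/

set_option autoImplicit false
set_option linter.unusedSectionVars false
set_option linter.unusedVariables false

open Set Filter Topology Metric Function MeasureTheory
open scoped Manifold ContDiff

noncomputable section

namespace Pool.Agent.L0h29.EN

open Pool.Agent.Y522 Pool.Agent.N550.KH Pool.Agent.N550.KH.One Pool.Agent.L0h29.CS

variable {X : Type} [TopologicalSpace X] [ChartedSpace (E 4) X]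

/-- slot changes -/
def SC (Wx Wz V V' : Set X) : Prop := ∀ (b : X) (D : Tail X), Adm b D →
  (∀ z T', D z T' → z ∈ Wz) → Le b Wx (sl V D) (sl V' D)

theorem SC.mono {Wx Wz V V' Wx' Wz' : Set X} (h : SC Wx Wz V V') (hx : Wx' ⊆ Wx) (hz : Wz' ⊆ Wz) :
    SC Wx' Wz' V V' := fun b D hD hDz => (h b D hD fun z T' hT => hz (hDz z T' hT)).mono hx

/-- rows of slots and vertices -/
def fr (b : X) (V W : ℕ → Set X) : ℕ → ℕ → Tail X
  | m, 0 => sl (V m) (endb b)
  | m, k + 1 => sl (V m) (vt b (W (m + 1)) (fr b V W (m + 1) k))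

theorem adm_fr (b : X) (V W : ℕ → Set X) (k : ℕ) : ∀ m, Adm b (fr b V W m k) := by
  induction k with
  | zero => intro m; exact adm_sl (adm_endb b)
  | succ k ih => intro m; exact adm_sl (adm_vt (ih (m + 1)))

theorem rowslot {b : X} {V V' W : ℕ → Set X} {N : ℕ} (hb : b ∈ W (N + 1))
    (h : ∀ i, SC (W i) (W (i + 1)) (V i) (V' i)) (k : ℕ) :
    ∀ m, m + k = N → Le b (W m) (fr b V W m k) (fr b V' W m k) := by
  induction k with
  | zero =>
    intro m hm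
    refine h m b _ (adm_endb b) ?_
    rintro z T' ⟨rfl, rfl⟩
    have : m + 1 = N + 1 := by omega
    rw [this]
    exact hb
  | succ k ih =>
    intro m hm
    refine Le.trans (h m b (vt b (W (m + 1)) (fr b V W (m + 1) k)) (adm_vt (adm_fr b V W k _))
      fun z T' hT => hT.1) ?_
    exact cong (adm_fr b V' W k _) (ih (m + 1) (by omega))

/-- convex open sets in charts -/
def Cvx (U : Set X) : Prop := ∃ (ψ : E 4 → X) (C : Set (E 4)), Cell ψ ∧ IsOpen C ∧ Convex ℝ C ∧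
  U = ψ '' C

theorem del' [T2Space X] {b v : X} {U W₁ W₀ : Set X} {D : Tail X} (hD : Adm b D) (hU : Cvx U)
    (hv : v ∈ U) (hW : W₁ ∈ 𝓝 v) : Le b W₀ (sl U (vt b W₁ (sl U D))) (sl U D) := by
  obtain ⟨ψ, C, hψ, hC, hCc, rfl⟩ := hU
  refine del hψ hD (image_subset_range _ _) ?_
  rintro x - z T' - ⟨x', hx', rfl⟩ ⟨z', hz', rfl⟩
  obtain ⟨v', hv', rfl⟩ := hv
  refine ⟨C ∩ ψ ⁻¹' (interior W₁), hC.inter (isOpen_interior.preimage hψ.cont),
    ⟨v', hv', mem_interior_iff_mem_nhds.2 hW⟩, fun w hw => ?_⟩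
  rw [hψ.inv, hψ.inv]
  exact ⟨interior_subset hw.2, sg_sub hCc hw.1 hx', sg_sub hCc hw.1 hz'⟩

theorem rowmove' [T2Space X] {b : X} {U W W' : ℕ → Set X} {v : ℕ → X}
    (hU : ∀ i, Cvx (U i)) (hv : ∀ i, v i ∈ U i) (hW : ∀ i, W i ∈ 𝓝 (v i))
    (h : ∀ i, SC (W' (i + 1)) (W (i + 1)) (U i ∩ U (i + 1)) (U (i + 1))) (k : ℕ) :
    ∀ i, Le b (W' (i + 1)) (sl (U i ∩ U (i + 1)) (vt b (W (i + 1)) (fr b U W (i + 1) k)))
      (fr b U W' (i + 1) k) := by
  induction k with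
  | zero =>
    intro i
    refine Le.trans (h i b (vt b (W (i + 1)) (fr b U W (i + 1) 0))
      (adm_vt (adm_fr b U W 0 _)) fun z T' hT => hT.1) ?_
    exact del' (adm_endb b) (hU _) (hv _) (hW _)
  | succ k ih =>
    intro i
    refine Le.trans (h i b (vt b (W (i + 1)) (fr b U W (i + 1) (k + 1)))
      (adm_vt (adm_fr b U W (k + 1) _)) fun z T' hT => hT.1) ?_
    refine Le.trans (del' (adm_vt (adm_fr b U W k _)) (hU _) (hv _) (hW _)) ?_
    refine Le.trans (ins (V₁ := U (i + 1)) (V₂ := U (i + 1) ∩ U (i + 1 + 1))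
      (W := W' (i + 1 + 1)) (Subset.refl _) inter_subset_left) ?_
    exact cong (adm_fr b U W' k _) (ih (i + 1))

theorem rowmove [T2Space X] {b : X} {W₀ : Set X} {U W W' : ℕ → Set X} {v : ℕ → X}
    (hU : ∀ i, Cvx (U i)) (hv : ∀ i, v i ∈ U i) (hW : ∀ i, W i ∈ 𝓝 (v i))
    (h : ∀ i, SC (W' (i + 1)) (W (i + 1)) (U i ∩ U (i + 1)) (U (i + 1))) (k : ℕ) :
    Le b W₀ (fr b U W 0 k) (fr b U W' 0 k) := by
  cases k with
  | zero => exact Le.of_imp fun x T hT => hT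
  | succ k =>
    refine Le.trans (ins (V₁ := U 0) (V₂ := U 0 ∩ U (0 + 1))
      (W := W' (0 + 1)) (Subset.refl _) inter_subset_left) ?_
    exact cong (adm_fr b U W' k _) (rowmove' hU hv hW h k 0)

/-- the grid -/
theorem grid [T2Space X] {a b : X} {N : ℕ} (U W : ℕ → ℕ → Set X) (v : ℕ → ℕ → X)
    (ha : ∀ r, a ∈ W r 0) (hb : ∀ r, b ∈ W r (N + 1)) (hU : ∀ r i, Cvx (U (r + 1) i))
    (hv : ∀ r i, v r i ∈ U (r + 1) i) (hW : ∀ r i, W r i ∈ 𝓝 (v r i))
    (h1 : ∀ r i, SC (W r i) (W r (i + 1)) (U r i) (U (r + 1) i))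
    (h2 : ∀ r i, SC (W (r + 1) (i + 1)) (W r (i + 1)) (U (r + 1) i ∩ U (r + 1) (i + 1))
      (U (r + 1) (i + 1))) (r : ℕ) :
    Le b {a} (fr b (U 0) (W 0) 0 N) (fr b (U r) (W r) 0 N) := by
  induction r with
  | zero => exact Le.of_imp fun x T hT => hT
  | succ r ih =>
    refine ih.trans ?_
    refine Le.trans ((rowslot (V' := U (r + 1)) (hb r) (h1 r) N 0 (by omega)).mono
      (singleton_subset_iff.2 (ha r))) ?_
    exact rowmove (hU r) (hv r) (hW r) (h2 r) N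

end Pool.Agent.L0h29.EN
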