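import Pool.Agent.L0h29.RG.Push

/-!
# Project EN: simple connectivity of preimages of complements of points
-/

set_option autoImplicit false

open Set Filter Topology Metric Function
open scoped Manifold ContDiff unitInterval

noncomputable section

namespace Pool.Agent.L0h29.EN

open Pool.Agent.Y522 Pool.Agent.L0h29.RG

/-- If `M` is simply connected and `u : M → P` is a continuous map which is a homeomorphism from `V`
to the complement of the point `c 0`, then `V` is simply connected. -/
theorem scv {n : ℕ} (hn : 3 ≤ n) {M P : Type} [TopologicalSpace M] [SimplyConnectedSpace M]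
    [TopologicalSpace P] [T2Space P] {c : E n → P} (hc : IsOpenEmbedding c) (u : M → P)
    (hu : Continuous u) (j : P → M) (hj : ∀ y, y ≠ c 0 → ContinuousAt j y) (V : Set M)
    (huV : ∀ x ∈ V, u x ≠ c 0) (hju : ∀ x ∈ V, j (u x) = x) (hjV : ∀ y, y ≠ c 0 → j y ∈ V)
    (huj : ∀ y, y ≠ c 0 → u (j y) = y) : SimplyConnectedSpace V := by
  have hproj : Continuous fun x : ℝ × ℝ =>
      ((projIcc (0 : ℝ) 1 zero_le_one x.1, projIcc (0 : ℝ) 1 zero_le_one x.2) : I × I) :=
    (continuous_projIcc.comp continuous_fst).prodMk (continuous_projIcc.comp continuous_snd)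
  have hpc : PathConnectedSpace V := by
    rw [← isPathConnected_iff_pathConnectedSpace]
    obtain ⟨e, he⟩ : ∃ e : E n, e ≠ 0 := by
      refine ⟨EuclideanSpace.single ⟨0, by omega⟩ (1 : ℝ), ?_⟩
      rw [← norm_pos_iff, PiLp.norm_single]
      simp
    have hx : c e ≠ c 0 := fun h => he (hc.injective h)
    refine ⟨j (c e), hjV _ hx, fun {y} hy => ?_⟩
    obtain ⟨γ⟩ := PathConnectedSpace.joined (j (c e)) y
    let H : ℝ × ℝ → P := fun x => u (γ (projIcc (0 : ℝ) 1 zero_le_one x.2))
    have hH : Continuous H := hu.comp (γ.continuous.comp (continuous_projIcc.comp continuous_snd))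
    have h0 : H (0, 0) = c e := by
      show u (γ (projIcc (0 : ℝ) 1 zero_le_one 0)) = c e
      rw [projIcc_left]
      have : γ ⟨0, _⟩ = j (c e) := γ.source
      rw [this, huj _ hx]
    have h1 : H (0, 1) = u y := by
      show u (γ (projIcc (0 : ℝ) 1 zero_le_one 1)) = u y
      rw [projIcc_right]
      exact congrArg u γ.target
    obtain ⟨H', a1, a2, a3⟩ := push_compact hn hc H hH {(0, 0), (0, 1)}
      (((finite_singleton _).insert _).isCompact) (by
        rintro x (hx' | hx')
        · rw [hx', h0]; exact hx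
        · rw [mem_singleton_iff] at hx'
          rw [hx', h1]; exact huV y hy)
    have hjc : Continuous fun t : I => j (H' (0, (t : ℝ))) := by
      rw [continuous_iff_continuousAt]
      intro t
      have h2 : Continuous fun t : I => H' (0, (t : ℝ)) := by fun_prop
      exact ContinuousAt.comp (g := j) (hj _ (a3 _)) h2.continuousAt
    refine ⟨⟨⟨fun t => j (H' (0, (t : ℝ))), hjc⟩, ?_, ?_⟩, fun t => hjV _ (a3 _)⟩
    · show j (H' (0, ((0 : I) : ℝ))) = j (c e)
      rw [Icc.coe_zero, a2 _ (Or.inl rfl), h0]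
    · show j (H' (0, ((1 : I) : ℝ))) = y
      rw [Icc.coe_one, a2 _ (Or.inr rfl), h1, hju y hy]
  rw [simply_connected_iff_paths_homotopic']
  refine ⟨hpc, fun {x y} p q => ?_⟩
  have hval : Continuous (Subtype.val : V → M) := continuous_subtype_val
  obtain ⟨F⟩ := SimplyConnectedSpace.paths_homotopic (p.map hval) (q.map hval)
  let H : ℝ × ℝ → P := fun x =>
    u (F (projIcc (0 : ℝ) 1 zero_le_one x.1, projIcc (0 : ℝ) 1 zero_le_one x.2))
  have hH : Continuous H := hu.comp (F.continuous.comp hproj)
  have hHe : ∀ s t : I, H ((s : ℝ), (t : ℝ)) = u (F (s, t)) := by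
    intro s t
    show u (F (projIcc (0 : ℝ) 1 zero_le_one s, projIcc (0 : ℝ) 1 zero_le_one t)) = u (F (s, t))
    rw [projIcc_val, projIcc_val]
  let B : Set (ℝ × ℝ) := (fun z : I × I => ((z.1 : ℝ), (z.2 : ℝ))) ''
    {z | z.1 = 0 ∨ z.1 = 1 ∨ z.2 = 0 ∨ z.2 = 1}
  have hBc : IsCompact B := by
    refine IsCompact.image ?_ (by fun_prop)
    refine IsClosed.isCompact ?_
    refine (isClosed_eq continuous_fst continuous_const).union ?_
    refine (isClosed_eq continuous_fst continuous_const).union ?_
    exact (isClosed_eq continuous_snd continuous_const).union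
      (isClosed_eq continuous_snd continuous_const)
  have hFV : ∀ s t : I, (s = 0 ∨ s = 1 ∨ t = 0 ∨ t = 1) → F (s, t) ∈ V := by
    intro s t hst
    rcases hst with h | h | h | h
    · rw [h, F.apply_zero]
      exact (p t).2
    · rw [h, F.apply_one]
      exact (q t).2
    · rw [h, F.source]
      exact x.2
    · rw [h, F.target]
      exact y.2
  have hB0 : ∀ z ∈ B, H z ≠ c 0 := by
    rintro _ ⟨⟨s, t⟩, hst, rfl⟩
    simp only at hst ⊢
    rw [hHe]
    exact huV _ (hFV s t hst)
  obtain ⟨H', a1, a2, a3⟩ := push_compact hn hc H hH B hBc hB0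
  have a2' : ∀ s t : I, (s = 0 ∨ s = 1 ∨ t = 0 ∨ t = 1) →
      j (H' ((s : ℝ), (t : ℝ))) = F (s, t) := by
    intro s t hst
    rw [a2 _ ⟨(s, t), hst, rfl⟩, hHe, hju _ (hFV s t hst)]
  refine ⟨{
    toFun := fun z => ⟨j (H' ((z.1 : ℝ), (z.2 : ℝ))), hjV _ (a3 _)⟩
    continuous_toFun := by
      refine Continuous.subtype_mk ?_ _
      rw [continuous_iff_continuousAt]
      intro z
      have h2 : Continuous fun z : I × I => H' ((z.1 : ℝ), (z.2 : ℝ)) := by fun_prop
      exact ContinuousAt.comp (g := j) (hj _ (a3 _)) h2.continuousAt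
    map_zero_left := fun t => ?_
    map_one_left := fun t => ?_
    prop' := fun s t ht => ?_ }⟩
  · apply Subtype.ext
    show j (H' (((0 : I) : ℝ), (t : ℝ))) = _
    rw [a2' 0 t (Or.inl rfl), F.apply_zero]
    rfl
  · apply Subtype.ext
    show j (H' (((1 : I) : ℝ), (t : ℝ))) = _
    rw [a2' 1 t (Or.inr (Or.inl rfl)), F.apply_one]
    rfl
  · apply Subtype.ext
    show j (H' ((s : ℝ), (t : ℝ))) = _
    rcases ht with h | h
    · have h1 : t = 0 := h
      rw [h1, a2' s 0 (Or.inr (Or.inr (Or.inl rfl))), F.source]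
      show x.1 = (p 0).1
      rw [p.source]
    · have h1 : t = 1 := h
      rw [h1, a2' s 1 (Or.inr (Or.inr (Or.inr rfl))), F.target]
      show y.1 = (p 1).1
      rw [p.target]

end Pool.Agent.L0h29.EN
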