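import Pool.Agent.L0h29.EN.Coll
import Pool.Agent.L0h29.EN.Scv

/-!
# Project EN: the second cell
-/

set_option autoImplicit false
set_option linter.unusedSectionVars false
set_option linter.unusedVariables false

open Set Filter Topology Metric Function MeasureTheory
open scoped Manifold ContDiff

noncomputable section

namespace Pool.Agent.L0h29.EN

open Pool.Agent.Y522 Pool.Agent.N550.KH Pool.Agent.N550.KH.One Pool.Agent.N550.KH.Supp
  Pool.Agent.L0h29.CS Pool.Agent.N550.TS.Flm Pool.Agent.L0h29.RG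

variable {M N : Type} [TopologicalSpace M] [ChartedSpace (E 4) M] [TopologicalSpace N]
  [ChartedSpace (E 4) N]

theorem act_mem_iff {c : E 4 → N} (hi : Injective c) (κ : E 4 → E 4) (y : N) :
    act c κ y ∈ range c ↔ y ∈ range c := by
  by_cases hy : y ∈ range c
  · obtain ⟨z, rfl⟩ := hy
    rw [act_range hi]
    exact ⟨fun _ => ⟨z, rfl⟩, fun _ => ⟨κ z, rfl⟩⟩
  · rw [act_off _ hy]

/-- engulfing in open subsets -/
theorem engulf_open [T2Space M] [IsManifold (𝓡 4) ∞ M] {Z' : Set M} (hZ : IsCompact Z')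
    (hZn : NullH2 4 Z') (V : Set M) (hV : IsOpen V) (hs : SimplyConnectedSpace V)
    (hZV : Z' ⊆ V) : ∃ c' : E 4 → M, Cell c' ∧ Z' ⊆ range c' ∧ range c' ⊆ V := by
  let X : TopologicalSpace.Opens M := ⟨V, hV⟩
  have hsX : SimplyConnectedSpace X := hs
  have hval : ∀ x : X, LD 4 (Subtype.val : X → M) x := fun x =>
    Pool.Agent.N550.SH.ld_opens X x
  obtain ⟨c, hc, hcZ⟩ := engulf (X := X) (Z := Subtype.val ⁻¹' Z') (by
    rw [Topology.IsEmbedding.subtypeVal.isCompact_iff]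
    have : (Subtype.val : X → M) '' (Subtype.val ⁻¹' Z') = Z' := by
      ext x
      constructor
      · rintro ⟨y, hy, rfl⟩
        exact hy
      · intro hx
        exact ⟨⟨x, hZV hx⟩, hx, rfl⟩
    rw [this]
    exact hZ) (by
    intro h hi hl
    exact hZn (fun z => (h z : M)) (fun a b hab => hi (Subtype.ext hab))
      (fun z => LD.comp_fun (g := (Subtype.val : X → M)) (hval _) (hl z)))
  refine ⟨fun z => (c z : M), ⟨fun a b hab => hc.1 (Subtype.ext hab), fun z =>
    LD.comp_fun (g := (Subtype.val : X → M)) (hval _) (hc.2 z)⟩, ?_, ?_⟩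
  · intro x hx
    obtain ⟨z, hz⟩ := hcZ (show (⟨x, hZV hx⟩ : X) ∈ _ from hx)
    exact ⟨z, congrArg Subtype.val hz⟩
  · rintro _ ⟨z, rfl⟩
    exact (c z).2

/-- the second cell -/
theorem DfOff.second_cell [CompactSpace M] [T2Space M] [CompactSpace N] [T2Space N]
    [IsManifold (𝓡 4) ∞ M] [IsManifold (𝓡 4) ∞ N] [SimplyConnectedSpace M] {φ : M → N}
    {Z' : Set M} {Z : Set N} (h : DfOff φ Z' Z) (hZ' : NullH2 4 Z') {c : E 4 → N} (hc : Cell c)
    {R : ℝ} (hR : 0 < R) (hZc : Z ⊆ c '' ball 0 R) :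
    ∃ c' : E 4 → M, Cell c' ∧ Z' ⊆ range c' ∧ ∀ x ∈ range c', x ∈ Z' ∨ φ x ∈ range c := by
  obtain ⟨G, hG, hG1, hG2, hG3⟩ := h.exists_coll hc hR hZc
  obtain ⟨P, tP, cP, hPc, hPt, hPm, -, -, u, y₀, hu, hul, hui, huy, hus⟩ :=
    exists_connSum3 4 (by norm_num) M N G hG c hc.1 hc.2 fun y hy => hG3 y (by
      rintro rfl
      exact hy ⟨0, mem_closedBall_self (by norm_num), rfl⟩)
  set V : Set M := G ⁻¹' range c with hV
  have hVo : IsOpen V := hc.isOpen.preimage hG
  have hVm : ∀ x, x ∈ V ↔ x ∈ Z' ∨ φ x ∈ range c := by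
    intro x
    by_cases hx : x ∈ Z'
    · exact ⟨fun _ => Or.inl hx, fun _ => by
        show G x ∈ range c
        rw [hG1 x hx]
        exact ⟨0, rfl⟩⟩
    · have h1 : x ∈ V ↔ φ x ∈ range c := by
        show G x ∈ range c ↔ _
        rw [hG2 x hx]
        exact act_mem_iff hc.1 _ _
      rw [h1]
      exact ⟨fun h => Or.inr h, fun h => h.resolve_left hx⟩
  obtain ⟨d, hdi, hdl, hd0⟩ := exists_cell0 (n := 4) y₀
  have hd : Cell d := ⟨hdi, hdl⟩
  obtain ⟨x₀⟩ : Nonempty M := PathConnectedSpace.nonempty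
  have h1 : ∀ y, y ≠ y₀ → ∃ x, x ∈ V ∧ u x = y := by
    intro y hy
    obtain ⟨x, hx⟩ := hus y hy
    refine ⟨x, ?_, hx⟩
    by_contra hcon
    exact hy (by rw [← hx, huy]; exact hcon)
  choose! j hj using h1
  have hju : ∀ x ∈ V, j (u x) = x := by
    intro x hx
    have h2 : u x ≠ y₀ := fun hcon => (huy x).1 hcon hx
    exact hui (hj _ h2).1 hx (hj _ h2).2
  have hjc : ∀ y, y ≠ y₀ → ContinuousAt j y := by
    intro y hy
    have h3 := LD.inverse (n := 4) (k := u) (g := j) hVo (fun x hx => hul x hx)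
      (fun x hx => hju x hx) (x := j y) (hj y hy).1
    rw [(hj y hy).2] at h3
    exact h3.continuousAt
  have hs : SimplyConnectedSpace V := by
    refine scv (n := 4) (by norm_num) hd.emb u hu j ?_ V ?_ hju ?_ ?_
    · rw [hd0]; exact hjc
    · rw [hd0]
      exact fun x hx hcon => (huy x).1 hcon hx
    · rw [hd0]
      exact fun y hy => (hj y hy).1
    · rw [hd0]
      exact fun y hy => (hj y hy).2
  obtain ⟨c', hc', h4, h5⟩ := engulf_open (h.cl'.isCompact) hZ' V hVo hs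
    (fun x hx => (hVm x).2 (Or.inl hx))
  exact ⟨c', hc', h4, fun x hx => (hVm x).1 (h5 hx)⟩

end Pool.Agent.L0h29.EN
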