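import Pool.Agent.L0h29.EN.Move

/-!
# Project EN: change of the slots, rows of arcs
-/

set_option autoImplicit false
set_option linter.unusedSectionVars false
set_option linter.unusedVariables false

open Set Filter Topology Metric Function MeasureTheory
open scoped Manifold ContDiff

noncomputable section

namespace Pool.Agent.L0h29.EN

open Pool.Agent.Y522 Pool.Agent.N550.KH Pool.Agent.N550.KH.One Pool.Agent.L0h29.CS

theorem ln_mem {U : Set (E 4)} (hU : Convex ℝ U) {z P : E 4} (hz : z ∈ U) (hP : P ∈ U) {t : ℝ}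
    (ht : t ∈ Icc (0 : ℝ) 1) : ln z P t ∈ U := by
  have h1 := hU hz hP (sub_nonneg.2 ht.2) ht.1 (by ring)
  have h2 : ln z P t = (1 - t) • z + t • P := by
    simp only [ln, smul_sub, sub_smul, one_smul]
    abel
  rw [h2]
  exact h1

variable {X : Type} [TopologicalSpace X] [ChartedSpace (E 4) X]

theorem sg_sub {ψ : E 4 → X} {U : Set (E 4)} (hU : Convex ℝ U) {z P : E 4} (hz : z ∈ U)
    (hP : P ∈ U) : sg ψ z P ⊆ ψ '' U := by
  intro x hx
  obtain ⟨t, ht, rfl⟩ := mem_sg.1 hx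
  exact ⟨_, ln_mem hU hz hP ht, rfl⟩

/-- change of a slot -/
theorem sc [T2Space X] {ψ : E 4 → X} (hψ : Cell ψ) {U₀ : Set (E 4)} (hU₀ : IsOpen U₀)
    (hUc : Convex ℝ U₀) {V : Set X} (hV : IsOpen V) {γ : ℝ → X} (hγ : Continuous γ)
    (hγV : ∀ t ∈ Icc (0 : ℝ) 1, γ t ∈ V) (hγU : ∀ t ∈ Icc (0 : ℝ) 1, γ t ∈ ψ '' U₀) :
    ∃ Wx ∈ 𝓝 (γ 0), ∃ Wz ∈ 𝓝 (γ 1), ∀ (b : X) (D : Tail X), Adm b D →
      (∀ z T', D z T' → z ∈ Wz) → Le b Wx (sl V D) (sl (ψ '' U₀) D) := by
  set g : ℝ → E 4 := fun t => invFun ψ (γ t) with hg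
  have hgγ : ∀ t ∈ Icc (0 : ℝ) 1, ψ (g t) = γ t := by
    intro t ht
    obtain ⟨u, -, hu⟩ := hγU t ht
    rw [hg]
    simp only
    rw [← hu, hψ.inv]
  have hgc : ContinuousOn g (Icc 0 1) := by
    intro t ht
    obtain ⟨u, -, hu⟩ := hγU t ht
    have h1 : ContinuousAt (invFun ψ) (γ t) := (hψ.inv_ld ⟨u, hu⟩).continuousAt
    exact (h1.comp hγ.continuousAt).continuousWithinAt
  set O : Set (E 4) := U₀ ∩ ψ ⁻¹' V with hO
  have hOo : IsOpen O := hU₀.inter (hV.preimage hψ.cont)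
  have hgO : ∀ t ∈ Icc (0 : ℝ) 1, g t ∈ O := by
    intro t ht
    refine ⟨?_, ?_⟩
    · obtain ⟨u, hu, hu'⟩ := hγU t ht
      have : g t = u := by
        rw [hg]
        simp only
        rw [← hu', hψ.inv]
      rw [this]
      exact hu
    · show ψ (g t) ∈ V
      rw [hgγ t ht]
      exact hγV t ht
  have hcpt : IsCompact (g '' Icc 0 1) := isCompact_Icc.image_of_continuousOn hgc
  obtain ⟨ε, hε, hεO⟩ := hcpt.exists_thickening_subset_open hOo (by
    rintro _ ⟨t, ht, rfl⟩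
    exact hgO t ht)
  have hball : ∀ t ∈ Icc (0 : ℝ) 1, ball (g t) ε ⊆ O := by
    intro t ht y hy
    apply hεO
    rw [mem_thickening_iff]
    exact ⟨g t, ⟨t, ht, rfl⟩, hy⟩
  have hunif := isCompact_Icc.uniformContinuousOn_of_continuous hgc
  rw [Metric.uniformContinuousOn_iff] at hunif
  obtain ⟨δ, hδ, hδg⟩ := hunif (ε / 4) (by positivity)
  obtain ⟨k, hk⟩ := exists_nat_gt (1 / δ)
  have hkpos : (0 : ℝ) < k := lt_trans (by positivity) hk
  have hk1 : 1 / (k : ℝ) < δ := by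
    rw [div_lt_iff₀ hδ] at hk
    rw [div_lt_iff₀ hkpos]
    linarith
  -- the points of the subdivision
  set a : ℕ → E 4 := fun i => g (i / k) with ha
  have hik : ∀ i : ℕ, i ≤ k → (i / k : ℝ) ∈ Icc (0 : ℝ) 1 := by
    intro i hi
    refine ⟨by positivity, ?_⟩
    rw [div_le_one hkpos]
    exact_mod_cast hi
  have hstep : ∀ i : ℕ, i + 1 ≤ k → dist (a (i + 1)) (a i) < ε / 4 := by
    intro i hi
    refine hδg _ (hik (i + 1) hi) _ (hik i (by omega)) ?_
    rw [Real.dist_eq]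
    have : ((i + 1 : ℕ) / k - i / k : ℝ) = 1 / k := by
      push_cast
      field_simp
      ring
    rw [this, abs_of_pos (by positivity)]
    exact hk1
  have hsub4 : ∀ i : ℕ, i ≤ k → ball (a i) (ε / 2) ⊆ O := fun i hi =>
    (ball_subset_ball (by linarith)).trans (hball _ (hik i hi))
  have ha0 : a 0 = g 0 := by simp [ha]
  have hak : a k = g 1 := by
    rw [ha]
    simp only
    rw [div_self hkpos.ne']
  have main : ∀ i : ℕ, i ≤ k → ∀ (b : X) (D : Tail X), Adm b D →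
      (∀ z T', D z T' → z ∈ ψ '' ball (a i) (ε / 4)) →
      Le b (ψ '' ball (a 0) (ε / 4)) (sl V D) (sl (ψ '' U₀) D) := by
    intro i
    induction i with
    | zero =>
      intro hi b D hD hDz
      refine (ins (V₁ := V) (V₂ := V) (W := ψ '' ball (a 0) (ε / 4)) (Subset.refl _)
        (Subset.refl _)).trans ?_
      refine del hψ hD (image_subset_range _ _) ?_
      rintro x ⟨x', hx', rfl⟩ z T' hDzT - -
      obtain ⟨z', hz', rfl⟩ := hDz z T' hDzT
      refine ⟨ball (a 0) (ε / 4), isOpen_ball, ⟨_, mem_ball_self (by positivity)⟩, fun w hw => ?_⟩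
      rw [hψ.inv, hψ.inv]
      have hb : ψ '' ball (a 0) (ε / 4) ⊆ V := by
        rintro _ ⟨y, hy, rfl⟩
        exact (hsub4 0 hi (ball_subset_ball (by linarith) hy)).2
      exact ⟨⟨w, hw, rfl⟩, (sg_sub (convex_ball _ _) hw hx').trans hb,
        (sg_sub (convex_ball _ _) hw hz').trans hb⟩
    | succ i ih =>
      intro hi b D hD hDz
      refine (ins (V₁ := V) (V₂ := V) (W := ψ '' ball (a i) (ε / 4)) (Subset.refl _)
        (Subset.refl _)).trans ?_
      refine (ih (by omega) b (vt b (ψ '' ball (a i) (ε / 4)) (sl V D)) (adm_vt (adm_sl hD))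
        (fun z T' h => h.1)).trans ?_
      refine del hψ hD (image_subset_range _ _) ?_
      rintro x - z T' hDzT ⟨x', hx', rfl⟩ -
      obtain ⟨z', hz', rfl⟩ := hDz z T' hDzT
      refine ⟨ball (a i) (ε / 4), isOpen_ball, ⟨_, mem_ball_self (by positivity)⟩, fun w hw => ?_⟩
      rw [hψ.inv, hψ.inv]
      have hO2 := hsub4 i (by omega)
      have hw2 : w ∈ ball (a i) (ε / 2) := ball_subset_ball (by linarith) hw
      have hz2 : z' ∈ ball (a i) (ε / 2) := by
        rw [mem_ball] at hz' ⊢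
        have := dist_triangle z' (a (i + 1)) (a i)
        have := hstep i hi
        linarith
      refine ⟨⟨w, hw, rfl⟩, sg_sub hUc (hO2 hw2).1 hx', ?_⟩
      refine (sg_sub (convex_ball _ _) hw2 hz2).trans ?_
      rintro _ ⟨y, hy, rfl⟩
      exact (hO2 hy).2
  refine ⟨ψ '' ball (a 0) (ε / 4), ?_, ψ '' ball (a k) (ε / 4), ?_, fun b D hD hDz =>
    main k le_rfl b D hD hDz⟩
  · have h1 : γ 0 = ψ (a 0) := by rw [ha0, hgγ 0 ⟨le_rfl, zero_le_one⟩]
    rw [h1]
    exact (hψ.open_image isOpen_ball).mem_nhds ⟨_, mem_ball_self (by positivity), rfl⟩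
  · have h1 : γ 1 = ψ (a k) := by rw [hak, hgγ 1 ⟨zero_le_one, le_rfl⟩]
    rw [h1]
    exact (hψ.open_image isOpen_ball).mem_nhds ⟨_, mem_ball_self (by positivity), rfl⟩

end Pool.Agent.L0h29.EN
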