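import Pool.Agent.L0h29.EN.Glu
import Pool.Agent.N550.SH.Cross

/-!
# Project EN: invertible summands
-/

set_option autoImplicit false
set_option linter.unusedSectionVars false
set_option linter.unusedVariables false

open Set Filter Topology Metric Function MeasureTheory
open scoped Manifold ContDiff

noncomputable section

namespace Pool.Agent.L0h29.EN

open Pool.Agent.Y522 Pool.Agent.N550.KH Pool.Agent.N550.KH.One Pool.Agent.N550.KH.Supp
  Pool.Agent.L0h29.CS Pool.Agent.N550.TS.Flm Pool.Agent.L0h29.RG Pool.Agent.N550.KH.End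
  Pool.Agent.N550.SH

/-- the stereographic projection as a partial diffeomorphism -/
def stePD (k : ℕ) (a : Sp k) : PartialDiffeomorph (𝓡 k) (𝓡 k) (Sp k) (E k) ∞ where
  toPartialEquiv := (ste k a).toPartialEquiv
  open_source := (ste k a).open_source
  open_target := (ste k a).open_target
  contMDiffOn_toFun := by
    have := Fact.mk (@finrank_euclideanSpace_fin ℝ _ (k + 1))
    exact contMDiffOn_of_mem_maximalAtlas (IsManifold.subset_maximalAtlas ⟨a, rfl⟩)
  contMDiffOn_invFun := by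
    have := Fact.mk (@finrank_euclideanSpace_fin ℝ _ (k + 1))
    exact contMDiffOn_symm_of_mem_maximalAtlas (IsManifold.subset_maximalAtlas ⟨a, rfl⟩)

theorem ste_ld (k : ℕ) (a u : Sp k) (h : u ≠ a) : LD k (ste k a) u :=
  ⟨stePD k a, by
    show u ∈ (ste k a).source
    rw [ste_source]
    exact h, fun _ _ => rfl⟩

theorem ste_symm_ld (k : ℕ) (a : Sp k) (z : E k) : LD k (ste k a).symm z :=
  ⟨(stePD k a).symm, by
    show z ∈ (ste k a).target
    rw [ste_target]
    trivial, fun _ _ => rfl⟩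

theorem ste_cell (a : Sp 4) : Cell (fun z : E 4 => (ste 4 a).symm z) ∧
    range (fun z : E 4 => (ste 4 a).symm z) = {a}ᶜ := by
  refine ⟨⟨fun x y hxy => ?_, ste_symm_ld 4 a⟩, ?_⟩
  · have h1 : ∀ z : E 4, ste 4 a ((ste 4 a).symm z) = z := fun z =>
      (ste 4 a).right_inv (by rw [ste_target]; trivial)
    rw [← h1 x, ← h1 y]
    exact congrArg _ hxy
  · ext u
    constructor
    · rintro ⟨z, rfl⟩
      have := (ste 4 a).map_target (x := z) (by rw [ste_target]; trivial)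
      rwa [ste_source] at this
    · intro hu
      exact ⟨ste 4 a u, (ste 4 a).left_inv (by rw [ste_source]; exact hu)⟩

variable {P P' : Type} [TopologicalSpace P] [ChartedSpace (E 4) P] [TopologicalSpace P']
  [ChartedSpace (E 4) P']

/-- invertible manifolds -/
theorem PE.of_inv [CompactSpace P] [T2Space P] [ConnectedSpace P] [IsManifold (𝓡 4) ∞ P]
    [CompactSpace P'] [T2Space P'] [IsManifold (𝓡 4) ∞ P'] (h : ConnSum 4 (Sp 4) P P') : PE P := by
  obtain ⟨p, q, i, j, hp, hq, hi1, hi2, hj1, hj2, hcov, hglue⟩ := h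
  set Z' : Set P' := q '' closedBall 0 (1 / 2) with hZ'
  set B : Set P := p '' closedBall 0 (1 / 2) with hB
  have hZ'c : IsClosed Z' := (disc_cpt hq (by norm_num)).isClosed
  have hBc : IsClosed B := (disc_cpt hp (by norm_num)).isClosed
  have hne' : Nonempty P' := ⟨q 0⟩
  have hne : Nonempty P := ⟨p 0⟩
  have h1 : DfOff j Z' (j '' Z'ᶜ)ᶜ := dfOff_emb hZ'c hj1 fun y hy => hj2 y hy
  have h2 : DfOff i B (i '' Bᶜ)ᶜ := dfOff_emb hBc hi1 fun y hy => hi2 y hy
  obtain ⟨j', h3, h4, h5⟩ := h1.symm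
  obtain ⟨i', h6, h7, h8⟩ := h2.symm
  set Z : Set (Sp 4) := (j '' Z'ᶜ)ᶜ with hZ
  obtain ⟨hd', hdr'⟩ := disc_cell' hq
  obtain ⟨hd, hdr⟩ := disc_cell' hp
  -- the pole
  obtain ⟨xa, hxa⟩ : ∃ x : P', x ∉ q '' ball 0 2 := by
    by_contra hcon
    push Not at hcon
    refine hd'.ne_univ ?_
    rw [hdr']
    exact eq_univ_of_forall hcon
  have hxaZ : xa ∉ Z' := fun hcon => hxa (image_mono (closedBall_subset_ball (by norm_num)) hcon)
  obtain ⟨hc, hcr⟩ := ste_cell (j xa)
  set c : E 4 → Sp 4 := fun z => (ste 4 (j xa)).symm z with hcd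
  have hZc : Z ⊆ range c := by
    rw [hcr]
    intro y hy hya
    rw [mem_singleton_iff] at hya
    rw [hya] at hy
    exact hy ⟨xa, hxaZ, rfl⟩
  -- the cell in `P'`
  obtain ⟨R, hR, hRq⟩ := exists_rad hd' (disc_cpt hq (r := 1) (by norm_num))
    (by rw [hdr']; exact image_mono (closedBall_subset_ball (by norm_num)))
  set c' : E 4 → P' := fun z => q (jb 2 (R • z)) with hc'd
  have hc' : Cell c' := hd'.scale hR
  have hc'1 : q '' closedBall 0 1 ⊆ c' '' ball 0 1 := by
    intro x hx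
    obtain ⟨z, hz, hzx⟩ := hRq hx
    refine ⟨R⁻¹ • z, ?_, ?_⟩
    · rw [mem_ball_zero_iff] at hz ⊢
      rw [norm_smul, norm_inv, Real.norm_of_nonneg hR.le, inv_mul_lt_iff₀ hR]
      linarith
    · show q (jb 2 (R • R⁻¹ • z)) = x
      rw [smul_smul, mul_inv_cancel₀ hR.ne', one_smul]
      exact hzx
  have hc'r : range c' ⊆ q '' ball 0 2 := by
    rintro _ ⟨z, rfl⟩
    rw [← hdr']
    exact ⟨R • z, rfl⟩
  have hK : IsCompact (i '' (p '' ball 0 1)ᶜ) := by
    refine IsCompact.image_of_continuousOn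
      (disc_open hp (by norm_num)).isClosed_compl.isCompact fun s hs => ?_
    refine (hi2 s fun hcon => hs ?_).continuousAt.continuousWithinAt
    exact image_mono (closedBall_subset_ball (by norm_num)) hcon
  obtain ⟨g, hg1, hg2, hg3, hg4⟩ := region (m := 3) j j' Z' Z hZ'c h1.cl
    (fun x hx => ⟨h1.notMem hx, h4 x hx⟩) h5 h1.ld h3.ld c hc.1 hc.2 hZc c' hc'.1 hc'.2
    ((image_mono (closedBall_subset_closedBall (by norm_num))).trans hc'1) (fun x hx hxZ => by
      rw [hcr]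
      intro hcon
      have h9 : x = xa := hj1 hxZ hxaZ hcon
      rw [h9] at hx
      exact hxa (hc'r hx)) (i '' (p '' ball 0 1)ᶜ) hK (by
      rintro _ ⟨s, hs, rfl⟩
      by_cases hsZ : i s ∈ Z
      · exact Or.inl hsZ
      · right
        have hsB : s ∉ B := fun hcon =>
          hs (image_mono (closedBall_subset_ball (by norm_num)) hcon)
        obtain ⟨e1, e2⟩ := h5 _ hsZ
        obtain ⟨z, hz1, hz2, rfl, e3⟩ := (hglue s hsB _ e1).1 e2.symm
        rw [e3]
        refine image_mono (ball_subset_ball (by norm_num)) (hc'1 ⟨_, ?_, rfl⟩)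
        rw [mem_closedBall_zero_iff, inv_norm']
        have hz3 : 1 ≤ ‖z‖ := by
          by_contra hcon
          exact hs ⟨z, mem_ball_zero_iff.2 (not_le.1 hcon), rfl⟩
        exact inv_le_one_of_one_le₀ hz3)
  have hgi : ∀ z, g z ∈ i '' Bᶜ := by
    intro z
    by_cases hz : g z ∈ Z
    · have h9 : g z ∈ i '' Bᶜ ∪ j '' Z'ᶜ := by rw [hcov]; trivial
      exact h9.resolve_right hz
    · obtain ⟨e1, e2⟩ := h5 _ hz
      obtain ⟨w, hw, hwz⟩ := hc'r (image_subset_range _ _ ((hg4 z).resolve_left hz))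
      have hw1 : 1 / 2 < ‖w‖ := by
        by_contra hcon
        exact e1 ⟨w, mem_closedBall_zero_iff.2 (not_lt.1 hcon), hwz⟩
      have hw2 := mem_ball_zero_iff.1 hw
      obtain ⟨e4, e5⟩ := inv_lt' (by norm_num) hw1 hw2
      have e6 : p ((‖w‖ ^ 2)⁻¹ • w) ∉ B := by
        rintro ⟨w', hw', hww⟩
        have e7 := hp.1 (closedBall_subset_ball (by norm_num) hw')
          (mem_ball_zero_iff.2 (by norm_num at e5; exact e5)) hww
        rw [e7, mem_closedBall_zero_iff] at hw'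
        norm_num at e4 hw'
        linarith
      have e8 := (hglue _ e6 _ e1).2 ⟨(‖w‖ ^ 2)⁻¹ • w, by norm_num at e4 ⊢; exact e4,
        by norm_num at e5 ⊢; exact e5, rfl, by rw [inv_inv', hwz]⟩
      exact ⟨_, e6, by rw [e8, e2]⟩
  have hgn : ∀ z, g z ∉ (i '' Bᶜ)ᶜ := fun z hz => hz (hgi z)
  have hgP : Cell fun z => i' (g z) :=
    ⟨fun a b hab => hg1 (h6.inj (hgn a) (hgn b) hab), fun z =>
      LD.comp_fun (g := i') (f := g) (h6.ld _ (hgn z)) (hg2 z)⟩
  have hgPB : ∀ z, i' (g z) ∉ B := fun z => (h8 _ (hgn z)).1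
  have hgPr : ∀ s, s ∉ p '' ball 0 1 → ∃ z, i' (g z) = s := by
    intro s hs
    obtain ⟨z, hz⟩ := hg3 ⟨s, hs, rfl⟩
    refine ⟨z, ?_⟩
    rw [hz]
    exact h7 s fun hcon => hs (image_mono (closedBall_subset_ball (by norm_num)) hcon)
  -- the point
  refine PE.of_point (p 0) fun L hL hL0 => ?_
  have hd0 : p (jb 2 (0 : E 4)) = p 0 := by rw [jb_zero]
  obtain ⟨R₁, hR₁, hRp⟩ := exists_rad hd (disc_cpt hp (r := 1) (by norm_num))
    (by rw [hdr]; exact image_mono (closedBall_subset_ball (by norm_num)))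
  have h9 : (fun z : E 4 => p (jb 2 z)) ⁻¹' Lᶜ ∈ 𝓝 (0 : E 4) := by
    refine (hL.isClosed.isOpen_compl.preimage hd.cont).mem_nhds ?_
    show p (jb 2 0) ∉ L
    rw [hd0]
    exact hL0
  obtain ⟨ε, hε, hεL⟩ := Metric.mem_nhds_iff.1 h9
  obtain ⟨ρ, hρ, -, hρR, hρ0⟩ := spread hd hε hR₁
  obtain ⟨ρ', e1, e2, e3⟩ := IsDf_inv hρ
  have hρ' : IsDf 4 ρ' := ⟨⟨fun a b hab => by rw [← e2 a, hab, e2], fun a => ⟨ρ a, e1 a⟩⟩, e3⟩
  refine ⟨fun z => ρ' (i' (g z)), IsDf.cell hρ' hgP, fun y hy => ?_, ?_⟩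
  · obtain ⟨z, hz⟩ := hgPr (ρ y) (by
      intro hcon
      obtain ⟨w, hw, hwy⟩ := hρR (image_mono ball_subset_closedBall
        (hRp (image_mono ball_subset_closedBall hcon)))
      have e4 : w = y := hρ.1.1 hwy
      obtain ⟨u, hu, huw⟩ := hw
      refine hεL hu ?_
      show p (jb 2 u) ∈ L
      rw [e4] at huw
      have e5 : p (jb 2 u) = y := huw
      rw [e5]
      exact hy)
    refine ⟨z, ?_⟩
    show ρ' (i' (g z)) = y
    rw [hz, e1]
  · rintro ⟨z, hz⟩
    have hz' : ρ' (i' (g z)) = p 0 := hz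
    apply hgPB z
    have e6 : i' (g z) = p 0 := by
      rw [← e2 (i' (g z)), hz', ← hd0]
      exact hρ0
    rw [e6]
    exact ⟨0, mem_closedBall_self (by norm_num), rfl⟩

end Pool.Agent.L0h29.EN
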