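import Pool.Agent.L0h29.CS.Inv
import Pool.Agent.N550.KH.Supp
import Pool.Agent.N550.KH.Shift

/-!
# Project EN: engulfing of star-shaped sets
-/

set_option autoImplicit false
set_option linter.unusedSectionVars false

open Set Filter Topology Metric Function MeasureTheory
open scoped Manifold ContDiff

noncomputable section

namespace Pool.Agent.L0h29.EN

open Pool.Agent.Y522 Pool.Agent.N550.KH Pool.Agent.N550.KH.One

/-- the point at time `t` of the segment from `z` to `P` -/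
def ln (z P : E 4) (t : ℝ) : E 4 := z + t • (P - z)

@[simp] theorem ln_zero (z P : E 4) : ln z P 0 = z := by simp [ln]

@[simp] theorem ln_one (z P : E 4) : ln z P 1 = P := by simp [ln]

theorem ln_ln (z P : E 4) (s t : ℝ) : ln z (ln z P s) t = ln z P (t * s) := by
  simp only [ln, add_sub_cancel_left, smul_smul]

theorem ln_swap (z P : E 4) (t : ℝ) : ln z P t = ln P z (1 - t) := by
  simp only [ln, sub_smul, one_smul, smul_sub]
  abel

theorem ln_cont : Continuous fun p : (E 4 × E 4) × ℝ => ln p.1.1 p.1.2 p.2 := by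
  unfold ln
  fun_prop

variable {X : Type} [TopologicalSpace X] [ChartedSpace (E 4) X]

/-- `c` is an open cell -/
def Cell (c : E 4 → X) : Prop := Injective c ∧ ∀ z, LD 4 c z

theorem Cell.cont {c : E 4 → X} (h : Cell c) : Continuous c :=
  continuous_iff_continuousAt.2 fun z => (h.2 z).continuousAt

theorem Cell.open_image {c : E 4 → X} (h : Cell c) {s : Set (E 4)} (hs : IsOpen s) :
    IsOpen (c '' s) := isOpen_image_of_LD (n := 4) hs fun z _ => h.2 z

theorem Cell.isOpen {c : E 4 → X} (h : Cell c) : IsOpen (range c) := open_range h.2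

/-- `K` is contained in an open cell -/
def Eg (K : Set X) : Prop := ∃ c : E 4 → X, Cell c ∧ K ⊆ range c

theorem Eg.mono {K K' : Set X} (h : K ⊆ K') (hK : Eg K') : Eg K := by
  obtain ⟨c, h1, h2⟩ := hK
  exact ⟨c, h1, h.trans h2⟩

/-- smooth functions separating a compact set from a closed set, with compact support -/
theorem exists_bump {D F : Set (E 4)} (hD : IsCompact D) (hF : IsClosed F) (h : Disjoint D F) :
    ∃ χ : E 4 → ℝ, ContDiff ℝ ∞ χ ∧ (∀ x, 0 ≤ χ x ∧ χ x ≤ 1) ∧ (∀ x ∈ D, χ x = 1) ∧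
      (∀ x ∈ F, χ x = 0) ∧ ∃ R : ℝ, ∀ x, R ≤ ‖x‖ → χ x = 0 := by
  obtain ⟨R, hR⟩ := hD.isBounded.subset_ball (0 : E 4)
  have h1 : IsClosed (F ∪ (ball (0 : E 4) R)ᶜ) := hF.union isOpen_ball.isClosed_compl
  have h2 : Disjoint (F ∪ (ball (0 : E 4) R)ᶜ) D := by
    rw [disjoint_left]
    rintro x (hx | hx) hxD
    · exact disjoint_left.1 h hxD hx
    · exact hx (hR hxD)
  obtain ⟨f, hf0, hf1, hf⟩ := exists_contMDiffMap_zero_one_of_isClosed (n := (⊤ : ℕ∞)) 𝓘(ℝ, E 4) h1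
    hD.isClosed h2
  refine ⟨f, contMDiff_iff_contDiff.1 f.contMDiff, fun x => ⟨(hf x).1, (hf x).2⟩,
    fun x hx => hf1 hx, fun x hx => hf0 (Or.inl hx), R, fun x hx => hf0 (Or.inr ?_)⟩
  intro hcon
  rw [mem_ball_zero_iff] at hcon
  linarith

/-- **The star lemma**: engulfing of a star-shaped set -/
theorem star [T2Space X] {ψ : E 4 → X} (hψ : Cell ψ) {z : E 4} {D : Set (E 4)}
    (hD : IsCompact D) (hst : ∀ P ∈ D, ∀ t ∈ Icc (0 : ℝ) 1, ln z P t ∈ D) {K : Set X}
    (hK : IsClosed K) {c : E 4 → X} (hc : Cell c) (hKc : K ⊆ range c) (hz : ψ z ∈ range c)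
    (h : ∀ P ∈ D, ψ P ∈ K → ∀ t ∈ Icc (0 : ℝ) 1, ψ (ln z P t) ∈ range c) :
    Eg (K ∪ ψ '' D) := by
  set O : Set (E 4) := ψ ⁻¹' range c with hO
  have hOo : IsOpen O := hc.isOpen.preimage hψ.cont
  set O₁ : Set (E 4) := {P | ∀ t ∈ Icc (0 : ℝ) 1, ln z P t ∈ O} with hO₁
  have hO₁o : IsOpen O₁ := by
    rw [isOpen_iff_mem_nhds]
    intro P hP
    refine IsCompact.eventually_forall_of_forall_eventually isCompact_Icc fun t ht => ?_
    have h1 : Continuous fun q : E 4 × ℝ => ln z q.1 q.2 := by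
      unfold ln; fun_prop
    exact h1.continuousAt.preimage_mem_nhds (hOo.mem_nhds (hP t ht))
  have hO₁O : O₁ ⊆ O := fun P hP => by
    have := hP 1 ⟨zero_le_one, le_rfl⟩
    rwa [ln_one] at this
  have hO₁s : ∀ P ∈ O₁, ∀ t ∈ Icc (0 : ℝ) 1, ln z P t ∈ O₁ := by
    intro P hP t ht s hs
    rw [ln_ln]
    exact hP _ ⟨mul_nonneg hs.1 ht.1, mul_le_one₀ hs.2 ht.1 ht.2⟩
  obtain ⟨r, hr, hrO⟩ : ∃ r : ℝ, 0 < r ∧ ball z r ⊆ O₁ := by
    have h1 : z ∈ O₁ := by
      intro t _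
      have : ln z z t = z := by simp [ln]
      rw [this]
      exact hz
    exact Metric.isOpen_iff.1 hO₁o z h1
  -- the cut-off function
  have hcpt : IsCompact (D \ O₁) := hD.diff hO₁o
  have hKcl : IsClosed (ψ ⁻¹' K) := hK.preimage hψ.cont
  have hdis : Disjoint (D \ O₁) (ψ ⁻¹' K) := by
    rw [disjoint_left]
    rintro P ⟨hP1, hP2⟩ hP3
    exact hP2 fun t ht => h P hP1 hP3 t ht
  obtain ⟨χ, hχ, hχ01, hχ1, hχ0, R, hR⟩ := exists_bump hcpt hKcl hdis
  let G : E 4 → E 4 := fun P => χ P • (P - z)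
  have hG : ContDiff ℝ ∞ G := hχ.smul (contDiff_id.sub contDiff_const)
  have hGs : HasCompactSupport G := by
    refine HasCompactSupport.intro (isCompact_closedBall (0 : E 4) R) fun P hP => ?_
    show χ P • (P - z) = 0
    rw [mem_closedBall_zero_iff, not_le] at hP
    rw [hR P hP.le, zero_smul]
  obtain ⟨M, hM⟩ := (hG.continuous_fderiv (by simp)).bounded_above_of_compact_support
    (hGs.fderiv ℝ)
  have hM0 : 0 ≤ M := (norm_nonneg _).trans (hM 0)
  set ε : ℝ := 1 / (2 * (M + 1)) with hε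
  have hε0 : 0 < ε := by positivity
  have hε1 : ε ≤ 1 / 2 := by
    rw [hε, div_le_div_iff₀ (by positivity) (by norm_num)]
    nlinarith
  have hεM : ε * M ≤ 1 / 2 := by
    rw [hε, one_div, inv_mul_le_iff₀ (by positivity)]
    nlinarith
  let g : E 4 → E 4 := fun P => (-ε) • G P
  have hgs : ContDiff ℝ ∞ g := hG.const_smul (-ε)
  have hgd : ∀ P, ‖fderiv ℝ g P‖ ≤ 1 / 2 := by
    intro P
    have h1 : fderiv ℝ g P = (-ε) • fderiv ℝ G P :=
      fderiv_fun_const_smul ((hG.differentiable (by simp)) P) (-ε)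
    rw [h1, norm_smul, norm_neg, Real.norm_of_nonneg hε0.le]
    calc ε * ‖fderiv ℝ G P‖ ≤ ε * M := by gcongr; exact hM P
      _ ≤ 1 / 2 := hεM
  have hS : IsDf 4 (fun P => P + g P) := Shift.pert hgs (by norm_num) hgd
  set S : E 4 → E 4 := fun P => P + g P with hSd
  have hSln : ∀ P, S P = ln z P (1 - ε * χ P) := by
    intro P
    show P + (-ε) • (χ P • (P - z)) = z + (1 - ε * χ P) • (P - z)
    rw [sub_smul, one_smul, neg_smul, smul_smul]
    abel
  have hSt : ∀ P, (1 - ε * χ P) ∈ Icc (0 : ℝ) 1 := by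
    intro P
    have := hχ01 P
    constructor <;> nlinarith
  have hSnorm : ∀ P, S P - z = (1 - ε * χ P) • (P - z) := by
    intro P
    rw [hSln]
    simp [ln]
  have hiter : ∀ P ∈ D, ∀ m : ℕ, (S^[m] P ∈ D) ∧
      (S^[m] P ∈ O₁ ∨ ‖S^[m] P - z‖ ≤ (1 - ε) ^ m * ‖P - z‖) := by
    intro P hP m
    induction m with
    | zero => exact ⟨hP, Or.inr (by simp)⟩
    | succ m ih =>
      rw [Function.iterate_succ']
      show S (S^[m] P) ∈ D ∧ (S (S^[m] P) ∈ O₁ ∨ _)
      refine ⟨?_, ?_⟩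
      · rw [hSln]
        exact hst _ ih.1 _ (hSt _)
      · by_cases h1 : S^[m] P ∈ O₁
        · left
          rw [hSln]
          exact hO₁s _ h1 _ (hSt _)
        · right
          have h2 : ‖S^[m] P - z‖ ≤ (1 - ε) ^ m * ‖P - z‖ := ih.2.resolve_left h1
          show ‖S (S^[m] P) - z‖ ≤ _
          rw [hSnorm, hχ1 _ ⟨ih.1, h1⟩, mul_one, norm_smul,
            Real.norm_of_nonneg (by linarith)]
          calc (1 - ε) * ‖S^[m] P - z‖ ≤ (1 - ε) * ((1 - ε) ^ m * ‖P - z‖) := by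
                gcongr
                linarith
            _ = (1 - ε) ^ (m + 1) * ‖P - z‖ := by ring
  obtain ⟨B, hB⟩ := hD.isBounded.exists_norm_le
  obtain ⟨m, hm⟩ : ∃ m : ℕ, (1 - ε) ^ m * (B + ‖z‖) < r := by
    have h1 : Tendsto (fun m : ℕ => (1 - ε) ^ m * (B + ‖z‖)) atTop (𝓝 (0 * (B + ‖z‖))) :=
      (tendsto_pow_atTop_nhds_zero_of_lt_one (by linarith) (by linarith)).mul_const _
    rw [zero_mul] at h1
    exact (h1.eventually (gt_mem_nhds hr)).exists
  have hend : ∀ P ∈ D, S^[m] P ∈ O₁ := by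
    intro P hP
    rcases (hiter P hP m).2 with h1 | h1
    · exact h1
    · apply hrO
      rw [mem_ball_iff_norm]
      refine lt_of_le_of_lt h1 (lt_of_le_of_lt ?_ hm)
      refine mul_le_mul_of_nonneg_left ?_ (pow_nonneg (by linarith) m)
      calc ‖P - z‖ ≤ ‖P‖ + ‖z‖ := norm_sub_le _ _
        _ ≤ B + ‖z‖ := by gcongr; exact hB P hP
  have hSfix : ∀ P, χ P = 0 → S P = P := by
    intro P hP
    rw [hSln, hP]
    simp
  have hfix : ∀ P, χ P = 0 → S^[m] P = P := fun P hP => Function.iterate_fixed (hSfix P hP) m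
  obtain ⟨L, hL, hLψ, hLo⟩ := Supp.main 4 X ψ hψ.1 hψ.2 (S^[m]) (Shift.isDf_iter hS m)
    ⟨R, fun P hP => hfix P (hR P hP)⟩
  obtain ⟨L', h1, h2, h3⟩ := IsDf_inv hL
  refine ⟨fun w => L' (c w), ⟨fun a b hab => hc.1 ?_, fun w => LD.comp_fun (h3 _) (hc.2 w)⟩, ?_⟩
  · have := congrArg L hab
    simpa only [h2] using this
  · rintro x (hx | ⟨P, hP, rfl⟩)
    · have h4 : L x = x := by
        by_cases h5 : x ∈ range ψ
        · obtain ⟨P, rfl⟩ := h5
          rw [hLψ, hfix P (hχ0 P hx)]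
        · exact hLo x h5
      obtain ⟨w, hw⟩ := hKc hx
      refine ⟨w, ?_⟩
      show L' (c w) = x
      rw [hw, ← h4, h1, h4]
    · obtain ⟨w, hw⟩ : ψ (S^[m] P) ∈ range c := hO₁O (hend P hP)
      refine ⟨w, ?_⟩
      show L' (c w) = ψ P
      rw [hw, ← hLψ, h1]

end Pool.Agent.L0h29.EN
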