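import Pool.Agent.L0h29.EN.Cov
import Pool.Agent.L0h29.EN.Star

/-!
# Project EN: thin sets (arcs) and generic cones
-/

set_option autoImplicit false
set_option linter.unusedSectionVars false

open Set Filter Topology Metric Function MeasureTheory
open scoped Manifold ContDiff

noncomputable section

namespace Pool.Agent.L0h29.EN

open Pool.Agent.Y522 Pool.Agent.N550.KH Pool.Agent.N550.KH.One Pool.Agent.L0h29.CS

section euclid

/-- images of Hausdorff null sets -/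
theorem null_image' {G : Type*} [NormedAddCommGroup G] [NormedSpace ℝ G] [MeasurableSpace G]
    [BorelSpace G] [SecondCountableTopology G] {d : ℝ} (hd : 0 ≤ d) {S : Set G}
    (hS : Measure.hausdorffMeasure d S = 0) (f : G → E 4) (hf : ∀ x ∈ S, ContDiffAt ℝ 1 f x) :
    Measure.hausdorffMeasure d (f '' S) = 0 := by
  have h : ∀ x ∈ S, ∃ V ∈ 𝓝 x, Measure.hausdorffMeasure d (f '' (S ∩ V)) = 0 := by
    intro x hx
    obtain ⟨K, t, ht, hK⟩ := (hf x hx).exists_lipschitzOnWith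
    refine ⟨t, ht, ?_⟩
    have h1 := (hK.mono (inter_subset_right (s := S))).hausdorffMeasure_image_le hd
    have h2 : Measure.hausdorffMeasure d (S ∩ t) = 0 := measure_mono_null inter_subset_left hS
    rw [h2, mul_zero] at h1
    exact le_antisymm h1 bot_le
  choose! V hV hr using h
  obtain ⟨t, hts, htc, hcov⟩ := TopologicalSpace.countable_cover_nhdsWithin
    (s := S) (f := V) (fun x hx => mem_nhdsWithin_of_mem_nhds (hV x hx))
  have h1 : f '' S ⊆ ⋃ x ∈ t, f '' (S ∩ V x) := by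
    rintro _ ⟨y, hy, rfl⟩
    obtain ⟨x, hx, hyx⟩ := mem_iUnion₂.1 (hcov hy)
    exact mem_iUnion₂.2 ⟨x, hx, y, ⟨hy, hyx⟩, rfl⟩
  refine measure_mono_null h1 ?_
  rw [measure_biUnion_null_iff htc]
  exact fun x hx => hr x (hts hx)

/-- four-dimensional Hausdorff null sets are null -/
theorem vol_null {S : Set (E 4)} (hS : Measure.hausdorffMeasure 4 S = 0) : volume S = 0 := by
  have h2 : (volume : Measure (E 4)) ≪ Measure.hausdorffMeasure (Module.finrank ℝ (E 4) : ℝ) :=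
    Measure.absolutelyContinuous_isAddHaarMeasure _ _
  apply h2
  rw [finrank_euclideanSpace, Fintype.card_fin]
  exact_mod_cast hS

/-- images of products of null sets with the plane -/
theorem null_image_plane {A : Set (E 4)} (hA : Measure.hausdorffMeasure 2 A = 0)
    (Φ : (E 4 × ℝ) × ℝ → E 4) (T : Set ((E 4 × ℝ) × ℝ)) (hT : ∀ p ∈ T, p.1.1 ∈ A)
    (hΦ : ∀ p ∈ T, ContDiffAt ℝ 1 Φ p) : volume (Φ '' T) = 0 := by
  have h1 : Measure.hausdorffMeasure (2 + 1) (A ×ˢ (univ : Set ℝ)) = 0 :=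
    prod_null (by norm_num) hA
  have h2 : Measure.hausdorffMeasure (2 + 1 + 1) ((A ×ˢ (univ : Set ℝ)) ×ˢ (univ : Set ℝ)) = 0 :=
    prod_null (by norm_num) h1
  have h3 : Measure.hausdorffMeasure 4 T = 0 := by
    have h4 : (2 + 1 + 1 : ℝ) = 4 := by norm_num
    rw [h4] at h2
    have h5 : T ⊆ (A ×ˢ (univ : Set ℝ)) ×ˢ (univ : Set ℝ) := fun p hp =>
      ⟨⟨hT p hp, trivial⟩, trivial⟩
    exact measure_mono_null h5 h2
  exact vol_null (null_image' (by norm_num) h3 Φ hΦ)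

/-- the cone with vertex `z` -/
def cone (z : E 4) (Y : Set (E 4)) : Set (E 4) := {Q | ∃ P ∈ Y, ∃ t ∈ Icc (0 : ℝ) 1, Q = ln z P t}

theorem subset_cone (z : E 4) (Y : Set (E 4)) : Y ⊆ cone z Y := fun P hP =>
  ⟨P, hP, 1, ⟨zero_le_one, le_rfl⟩, (ln_one z P).symm⟩

theorem mem_cone {z : E 4} {Y : Set (E 4)} (h : Y.Nonempty) : z ∈ cone z Y := by
  obtain ⟨P, hP⟩ := h
  exact ⟨P, hP, 0, ⟨le_rfl, zero_le_one⟩, (ln_zero z P).symm⟩

theorem cone_star {z : E 4} {Y : Set (E 4)} {Q : E 4} (hQ : Q ∈ cone z Y) {t : ℝ}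
    (ht : t ∈ Icc (0 : ℝ) 1) : ln z Q t ∈ cone z Y := by
  obtain ⟨P, hP, s, hs, rfl⟩ := hQ
  rw [ln_ln]
  exact ⟨P, hP, _, ⟨mul_nonneg ht.1 hs.1, mul_le_one₀ ht.2 hs.1 hs.2⟩, rfl⟩

theorem cone_mono {z : E 4} {Y Y' : Set (E 4)} (h : Y ⊆ Y') : cone z Y ⊆ cone z Y' := by
  rintro Q ⟨P, hP, t, ht, rfl⟩
  exact ⟨P, h hP, t, ht, rfl⟩

theorem cone_cpt (z : E 4) {Y : Set (E 4)} (hY : IsCompact Y) : IsCompact (cone z Y) := by
  have h1 : cone z Y = (fun p : E 4 × ℝ => ln z p.1 p.2) '' (Y ×ˢ Icc (0 : ℝ) 1) := by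
    ext Q
    constructor
    · rintro ⟨P, hP, t, ht, rfl⟩
      exact ⟨(P, t), ⟨hP, ht⟩, rfl⟩
    · rintro ⟨⟨P, t⟩, ⟨hP, ht⟩, rfl⟩
      exact ⟨P, hP, t, ht, rfl⟩
  rw [h1]
  refine (hY.prod isCompact_Icc).image ?_
  unfold ln
  fun_prop

theorem cone_null (z : E 4) {Y : Set (E 4)} (hY : Measure.hausdorffMeasure 1 Y = 0) :
    Measure.hausdorffMeasure 2 (cone z Y) = 0 := by
  have h1 : Measure.hausdorffMeasure (1 + 1) (Y ×ˢ (univ : Set ℝ)) = 0 :=
    prod_null (by norm_num) hY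
  have h2 : (1 + 1 : ℝ) = 2 := by norm_num
  rw [h2] at h1
  have h3 := null_image' (by norm_num) h1 (fun p : E 4 × ℝ => ln z p.1 p.2) (fun p _ => by
    unfold ln
    fun_prop)
  refine measure_mono_null ?_ h3
  rintro Q ⟨P, hP, t, ht, rfl⟩
  exact ⟨(P, t), ⟨hP, trivial⟩, rfl⟩

theorem single_null (P : E 4) : Measure.hausdorffMeasure 1 ({P} : Set (E 4)) = 0 := by
  have := Measure.nullSingletonClass_hausdorff (X := E 4) (d := 1) one_pos
  exact measure_singleton P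

end euclid

variable {X : Type} [TopologicalSpace X] [ChartedSpace (E 4) X]

/-- the inverse of a cell -/
theorem Cell.inv_ld {ψ : E 4 → X} (hψ : Cell ψ) {x : X} (hx : x ∈ range ψ) :
    LD 4 (invFun ψ) x := by
  obtain ⟨z, rfl⟩ := hx
  exact LD.inverse isOpen_univ (fun x _ => hψ.2 x) (fun x _ => leftInverse_invFun hψ.1 x)
    (mem_univ z)

theorem Cell.inv {ψ : E 4 → X} (hψ : Cell ψ) (z : E 4) : invFun ψ (ψ z) = z :=
  leftInverse_invFun hψ.1 z

theorem nullH2_chart {ψ : E 4 → X} (hψ : Cell ψ) {S : Set (E 4)}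
    (hS : Measure.hausdorffMeasure 2 S = 0) : NullH2 4 (ψ '' S) := by
  intro h hi hl
  have hh : Cell h := ⟨hi, hl⟩
  refine measure_mono_null (t := (fun x => invFun h (ψ x)) '' (S ∩ ψ ⁻¹' range h)) ?_
    (null_image (measure_mono_null inter_subset_left hS) _ ?_)
  · rintro w ⟨x, hx, hxw⟩
    refine ⟨x, ⟨hx, w, hxw.symm⟩, ?_⟩
    show invFun h (ψ x) = w
    rw [hxw, hh.inv]
  · rintro x ⟨-, hx⟩
    exact (LD.comp_fun (g := invFun h) (hh.inv_ld hx) (hψ.2 x)).contDiffAt.of_le (by simp)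

theorem NullH2.union {A B : Set X} (hA : NullH2 4 A) (hB : NullH2 4 B) : NullH2 4 (A ∪ B) := by
  intro h hi hl
  rw [preimage_union]
  exact measure_union_null (hA h hi hl) (hB h hi hl)

/-- the set of the vertices `w` for which the cone over `β` meets `S` off `β` -/
def Bad (ψ : E 4 → X) (β S : Set X) : Set (E 4) :=
  {w | ∃ b, ψ b ∈ β ∧ ∃ t ∈ Icc (0 : ℝ) 1, ψ (ln w b t) ∈ S ∧ ψ (ln w b t) ∉ β}

/-- thin sets: finite unions of arcs -/
structure Thin (β : Set X) : Prop where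
  cpt : IsCompact β
  null : NullH2 4 β
  bad : ∀ ψ : E 4 → X, Cell ψ → ∀ S : Set X, NullH2 4 S → volume (Bad ψ β S) = 0

theorem Thin.union {β β' : Set X} (h : Thin β) (h' : Thin β') : Thin (β ∪ β') := by
  refine ⟨h.cpt.union h'.cpt, NullH2.union h.null h'.null, fun ψ hψ S hS => ?_⟩
  refine measure_mono_null ?_ (measure_union_null (h.bad ψ hψ S hS) (h'.bad ψ hψ S hS))
  rintro w ⟨b, hb, t, ht, h1, h2⟩
  rw [mem_union, not_or] at h2
  rcases hb with hb | hb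
  · exact Or.inl ⟨b, hb, t, ht, h1, h2.1⟩
  · exact Or.inr ⟨b, hb, t, ht, h1, h2.2⟩

/-- a segment in a chart -/
def sg (ψ : E 4 → X) (z P : E 4) : Set X := ψ '' (cone z {P})

theorem mem_sg {ψ : E 4 → X} {z P : E 4} {x : X} :
    x ∈ sg ψ z P ↔ ∃ t ∈ Icc (0 : ℝ) 1, ψ (ln z P t) = x := by
  constructor
  · rintro ⟨Q, ⟨P', hP', t, ht, rfl⟩, rfl⟩
    rw [mem_singleton_iff] at hP'
    subst hP'
    exact ⟨t, ht, rfl⟩
  · rintro ⟨t, ht, rfl⟩
    exact ⟨_, ⟨P, rfl, t, ht, rfl⟩, rfl⟩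

theorem thin_sg {ψ' : E 4 → X} (hψ' : Cell ψ') (z' P' : E 4) : Thin (sg ψ' z' P') := by
  refine ⟨(cone_cpt z' isCompact_singleton).image hψ'.cont,
    nullH2_chart hψ' (cone_null z' (single_null P')), fun ψ hψ S hS => ?_⟩
  let Φ : (E 4 × ℝ) × ℝ → E 4 := fun p =>
    p.1.1 + p.2 • (p.1.1 - invFun ψ (ψ' (ln z' P' p.1.2)))
  let T : Set ((E 4 × ℝ) × ℝ) := {p | p.1.1 ∈ ψ ⁻¹' S ∧ ψ' (ln z' P' p.1.2) ∈ range ψ}
  refine measure_mono_null (t := Φ '' T) ?_ (null_image_plane (hS ψ hψ.1 hψ.2) Φ T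
    (fun p hp => hp.1) ?_)
  · rintro w ⟨b, hb, t, ht, h1, h2⟩
    obtain ⟨u, hu, hub⟩ := mem_sg.1 hb
    have ht1 : t ≠ 1 := by
      rintro rfl
      rw [ln_one] at h2
      exact h2 hb
    have ht2 : (1 - t) ≠ 0 := sub_ne_zero.2 ht1.symm
    refine ⟨((ln w b t, u), t / (1 - t)), ⟨h1, b, hub.symm⟩, ?_⟩
    show ln w b t + (t / (1 - t)) • (ln w b t - invFun ψ (ψ' (ln z' P' u))) = w
    rw [hub, hψ.inv]
    have e1 : ln w b t = (1 - t) • w + t • b := by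
      simp only [ln, smul_sub, sub_smul, one_smul]
      abel
    have e2 : ln w b t - b = (1 - t) • (w - b) := by
      rw [e1]
      simp only [smul_sub, sub_smul, one_smul]
      abel
    rw [e2, smul_smul, div_mul_cancel₀ _ ht2, e1]
    simp only [smul_sub, sub_smul, one_smul]
    abel
  · rintro ⟨⟨P, u⟩, s⟩ ⟨-, hp⟩
    have h1 : ContDiffAt ℝ ∞ (fun x => invFun ψ (ψ' x)) (ln z' P' u) :=
      (LD.comp_fun (g := invFun ψ) (hψ.inv_ld hp) (hψ'.2 _)).contDiffAt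
    have h2 : ContDiff ℝ ∞ (fun p : (E 4 × ℝ) × ℝ => ln z' P' p.1.2) := by
      unfold ln
      fun_prop
    have h3 : ContDiffAt ℝ ∞ (fun p : (E 4 × ℝ) × ℝ => invFun ψ (ψ' (ln z' P' p.1.2)))
        ((P, u), s) := ContDiffAt.comp (g := fun x => invFun ψ (ψ' x)) _ h1 h2.contDiffAt
    have h4 : ContDiffAt ℝ ∞ Φ ((P, u), s) :=
      contDiffAt_fst.fst.add (contDiffAt_snd.smul (contDiffAt_fst.fst.sub h3))
    exact h4.of_le (by simp)

end Pool.Agent.L0h29.EN
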